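import Pool.Agent.SGraph33.Good

/-!
The code of the regular `K`-gon arrangement of `2K` lines.
-/

namespace Pool.Agent.SGraph33

set_option linter.unusedVariables false

/-- sign vector -/
def sv1 (K : ℕ) (s i g : ℤ) : Fin K ⊕ Fin K → Bool := Sum.elim (pen K s) (arc K i g)

/-- the code -/
def V1 (K : ℕ) : Set (Fin K ⊕ Fin K → Bool) :=
  {x | ∃ s i g : ℤ, 0 ≤ g ∧ g ≤ K ∧ (2 * i = s + 1 - g ∨ 2 * i + 1 = s + 1 - g) ∧
    x = sv1 K s i g}

variable {K : ℕ}

lemma flip_inl1 (p a : Fin K → Bool) (z : Fin K) :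
    flipAt (Sum.elim p a) (Sum.inl z) = Sum.elim (flipAt p z) a := by
  funext c
  rcases c with c | c
  · by_cases h : c = z
    · subst h; simp
    · rw [flipAt_ne _ (by simpa using h)]
      simp [flipAt_ne _ h]
  · rw [flipAt_ne _ (by simp)]; rfl

lemma flip_inr1 (p a : Fin K → Bool) (z : Fin K) :
    flipAt (Sum.elim p a) (Sum.inr z) = Sum.elim p (flipAt a z) := by
  funext c
  rcases c with c | c
  · rw [flipAt_ne _ (by simp)]; rfl
  · by_cases h : c = z
    · subst h; simp
    · rw [flipAt_ne _ (by simpa using h)]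
      simp [flipAt_ne _ h]

variable [NeZero K]

lemma sv1_shift (s i g t : ℤ) : sv1 K (s + 2 * K * t) (i + K * t) g = sv1 K s i g := by
  simp only [sv1, pen_add_two_mul, arc_add_mul]

lemma V1_compl (x : Fin K ⊕ Fin K → Bool) (hx : x ∈ V1 K) : cpl x ∈ V1 K := by
  obtain ⟨s, i, g, h0, h1, h2, rfl⟩ := hx
  refine ⟨s + K, i + g, K - g, by omega, by omega, by omega, ?_⟩
  simp only [sv1, pen_add, arc_compl h0 h1]
  funext c
  rcases c with c | c <;> rfl

/-- right type cells -/
lemma V1_good_R {s i g : ℤ} (h0 : 1 ≤ g) (h1 : g ≤ K - 1) (h : 2 * i = s + 1 - g) :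
    GoodAt (V1 K) (sv1 K s i g) (Sum.inl (cls K (s + 1))) (Sum.inr (cls K (i + g - 1)))
      (Sum.inr (cls K (i - 1))) := by
  have ea : arc K i g = flipAt (arc K i (g - 1)) (cls K (i + g - 1)) := by
    have := arc_right (K := K) (i := i) (g := g - 1) (by omega) (by omega)
    rw [sub_add_cancel] at this
    rw [this]
    congr 2
    ring
  have eb : arc K (i - 1) (g + 1) = flipAt (arc K i g) (cls K (i - 1)) :=
    arc_left (by omega) (by omega)
  refine ⟨by simp, by simp, ?_, ?_, ?_, ?_, ?_⟩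
  · intro h'
    exact cls_ne (K := K) (a := i - 1) (b := i + g - 1) (by omega) (by omega)
      (Sum.inr_injective h').symm
  · refine ⟨s + 1, i, g, by omega, by omega, by omega, ?_⟩
    rw [sv1, flip_inl1, ← pen_succ]; rfl
  · refine ⟨s, i, g - 1, by omega, by omega, by omega, ?_⟩
    rw [sv1, flip_inr1, ea, flipAt_flipAt]; rfl
  · refine ⟨s, i - 1, g + 1, by omega, by omega, by omega, ?_⟩
    rw [sv1, flip_inr1, ← eb]; rfl
  · rintro u ⟨s', i', g', h0', h1', h2', rfl⟩ hp ha hb
    simp only [sv1, Sum.elim_inl, Sum.elim_inr] at hp ha hb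
    have hxa : arc K i g (cls K (i + g - 1)) = true :=
      (arc_cls (by omega) _).mpr ⟨0, by omega, by omega⟩
    have hxb : arc K i g (cls K (i - 1)) = false := by
      by_contra hc
      rw [Bool.not_eq_false, arc_cls (by omega)] at hc
      obtain ⟨q, hq1, hq2⟩ := hc
      rcases lt_trichotomy q 0 with hq | hq | hq
      · have : (K : ℤ) * q ≤ K * (-1) := mul_le_mul_of_nonneg_left (by omega) (by positivity)
        omega
      · subst hq; omega
      · have : (K : ℤ) * 1 ≤ K * q := mul_le_mul_of_nonneg_left (by omega) (by positivity)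
        omega
    rw [hxa] at ha
    rw [hxb] at hb
    obtain ⟨t, ht1, ht2⟩ := arc_rep_mem h1' ha
    have hb0 := arc_cls_false h1' _ hb (-t)
    have hb1 := arc_cls_false h1' _ hb (-t + 1)
    rw [mul_add, mul_neg] at hb1
    rw [mul_neg] at hb0
    rw [pen_right] at hp
    have hp' : Odd ((s' + 2 * K * t - s - 1) / (K : ℤ)) := by
      have e : s' + 2 * K * t - s - 1 = (s' - s - 1) + K * (2 * t) := by ring
      rw [e, Int.add_mul_ediv_left _ _ K_pos.ne', Int.odd_add]
      simp [hp]
    rw [← sv1_shift s' i' g' t]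
    set i'' := i' + K * t with hi''
    have hs : ∃ s'', s'' = s' + 2 * K * t := ⟨_, rfl⟩
    obtain ⟨s'', hs''⟩ := hs
    rw [← hs''] at hp' ⊢
    have h2'' : 2 * i'' = s'' + 1 - g' ∨ 2 * i'' + 1 = s'' + 1 - g' := by
      have : 2 * (K : ℤ) * t = 2 * (K * t) := by ring
      rw [hs'', hi'', this]; omega
    rw [odd_div_iff (by omega) (by omega)] at hp'
    have e1 : s'' = s := by omega
    have e2 : i'' = i := by omega
    have e3 : g' = g := by omega
    rw [e1, e2, e3]

/-- left type cells -/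
lemma V1_good_L {s i g : ℤ} (h0 : 1 ≤ g) (h1 : g ≤ K - 1) (h : 2 * i + 1 = s + 1 - g) :
    GoodAt (V1 K) (sv1 K s i g) (Sum.inl (cls K s)) (Sum.inr (cls K i))
      (Sum.inr (cls K (i + g))) := by
  have ea : arc K i g = flipAt (arc K (i + 1) (g - 1)) (cls K i) := by
    have := arc_left (K := K) (i := i + 1) (g := g - 1) (by omega) (by omega)
    rw [sub_add_cancel, add_sub_cancel_right] at this
    exact this
  have eb : arc K i (g + 1) = flipAt (arc K i g) (cls K (i + g)) :=
    arc_right (by omega) (by omega)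
  refine ⟨by simp, by simp, ?_, ?_, ?_, ?_, ?_⟩
  · intro h'
    exact cls_ne (K := K) (a := i) (b := i + g) (by omega) (by omega)
      (Sum.inr_injective h')
  · refine ⟨s - 1, i, g, by omega, by omega, by omega, ?_⟩
    have := pen_succ (K := K) (s - 1)
    rw [sub_add_cancel] at this
    rw [sv1, flip_inl1, this, flipAt_flipAt]; rfl
  · refine ⟨s, i + 1, g - 1, by omega, by omega, by omega, ?_⟩
    rw [sv1, flip_inr1, ea, flipAt_flipAt]; rfl
  · refine ⟨s, i, g + 1, by omega, by omega, by omega, ?_⟩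
    rw [sv1, flip_inr1, ← eb]; rfl
  · rintro u ⟨s', i', g', h0', h1', h2', rfl⟩ hp ha hb
    simp only [sv1, Sum.elim_inl, Sum.elim_inr] at hp ha hb
    have hxa : arc K i g (cls K i) = true :=
      (arc_cls (by omega) _).mpr ⟨0, by omega, by omega⟩
    have hxb : arc K i g (cls K (i + g)) = false := by
      by_contra hc
      rw [Bool.not_eq_false, arc_cls (by omega)] at hc
      obtain ⟨q, hq1, hq2⟩ := hc
      rcases lt_trichotomy q 0 with hq | hq | hq
      · have : (K : ℤ) * q ≤ K * (-1) := mul_le_mul_of_nonneg_left (by omega) (by positivity)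
        omega
      · subst hq; omega
      · have : (K : ℤ) * 1 ≤ K * q := mul_le_mul_of_nonneg_left (by omega) (by positivity)
        omega
    rw [hxa] at ha
    rw [hxb] at hb
    obtain ⟨t, ht1, ht2⟩ := arc_rep_mem h1' ha
    have hb0 := arc_cls_false h1' _ hb (-t)
    have hb1 := arc_cls_false h1' _ hb (-t - 1)
    rw [mul_sub, mul_neg] at hb1
    rw [mul_neg] at hb0
    rw [pen_left] at hp
    have hp' : Even ((s' + 2 * K * t - s) / (K : ℤ)) := by
      have e : s' + 2 * K * t - s = (s' - s) + K * (2 * t) := by ring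
      rw [e, Int.add_mul_ediv_left _ _ K_pos.ne', Int.even_add]
      simp [hp]
    rw [← sv1_shift s' i' g' t]
    set i'' := i' + K * t with hi''
    have hs : ∃ s'', s'' = s' + 2 * K * t := ⟨_, rfl⟩
    obtain ⟨s'', hs''⟩ := hs
    rw [← hs''] at hp' ⊢
    have h2'' : 2 * i'' = s'' + 1 - g' ∨ 2 * i'' + 1 = s'' + 1 - g' := by
      have : 2 * (K : ℤ) * t = 2 * (K * t) := by ring
      rw [hs'', hi'', this]; omega
    rw [← Int.not_odd_iff_even, odd_div_iff (by omega) (by omega)] at hp'
    have e1 : s'' = s := by omega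
    have e2 : i'' = i := by omega
    have e3 : g' = g := by omega
    rw [e1, e2, e3]

end Pool.Agent.SGraph33

namespace Pool.Agent.SGraph33

set_option linter.unusedVariables false

variable {K : ℕ} [NeZero K]

lemma V1_good_zero (hK : 2 ≤ K) {s b i : ℤ} (h : s = 2 * b ∨ s = 2 * b + 1) :
    GoodAt (V1 K) (sv1 K s i 0) (Sum.inl (cls K s)) (Sum.inl (cls K (s + 1)))
      (Sum.inr (cls K b)) := by
  have e0 : arc K i 0 = arc K b 0 := arc_zero _ _
  have eb : arc K b (0 + 1) = flipAt (arc K b 0) (cls K (b + 0)) :=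
    arc_right (by omega) (by omega)
  rw [zero_add, add_zero] at eb
  have ex : ∀ s' : ℤ, sv1 K s' i 0 ∈ V1 K := by
    intro s'
    rcases Int.emod_two_eq_zero_or_one s' with h' | h'
    · refine ⟨s', s' / 2, 0, by omega, by omega, by omega, ?_⟩
      simp only [sv1, arc_zero i (s' / 2)]
    · refine ⟨s', (s' + 1) / 2, 0, by omega, by omega, by omega, ?_⟩
      simp only [sv1, arc_zero i ((s' + 1) / 2)]
  refine ⟨?_, by simp, by simp, ?_, ?_, ?_, ?_⟩
  · intro h'
    exact cls_ne (K := K) (a := s) (b := s + 1) (by omega) (by omega)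
      (Sum.inl_injective h')
  · have := pen_succ (K := K) (s - 1)
    rw [sub_add_cancel] at this
    rw [sv1, flip_inl1, this, flipAt_flipAt]
    exact ex (s - 1)
  · rw [sv1, flip_inl1, ← pen_succ]
    exact ex (s + 1)
  · refine ⟨s, b, 1, by omega, by omega, by omega, ?_⟩
    rw [sv1, flip_inr1, e0, ← eb]; rfl
  · rintro u ⟨s', i', g', h0', h1', h2', rfl⟩ hp1 hp2 hb
    simp only [sv1, Sum.elim_inl, Sum.elim_inr] at hp1 hp2 hb
    have hxb : arc K i 0 (cls K b) = false := by
      simp only [arc, decide_eq_false_iff_not, not_lt]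
      exact Int.emod_nonneg _ K_pos.ne'
    rw [hxb] at hb
    rw [pen_left] at hp1
    rw [pen_right] at hp2
    obtain ⟨t, ht⟩ := two_walls hp1 hp2
    rw [← sv1_shift s' i' g' (-t)]
    have e1 : s' + 2 * K * -t = s := by
      have : 2 * (K : ℤ) * -t = -(2 * K * t) := by ring
      rw [this]; omega
    rw [e1]
    have e2 : 2 * (K : ℤ) * t = 2 * (K * t) := by ring
    have hb0 := arc_cls_false h1' _ hb t
    have hg : g' = 0 := by
      rw [mul_neg] at *
      omega
    subst hg
    simp only [sv1, arc_zero _ i]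

lemma V1_cubic (hK : 2 ≤ K) : CubicCode (V1 K) := by
  have key : ∀ s i g : ℤ, 0 ≤ g → g ≤ K - 1 → (2 * i = s + 1 - g ∨ 2 * i + 1 = s + 1 - g) →
      Good (V1 K) (sv1 K s i g) := by
    intro s i g h0 h1 h2
    rcases h0.eq_or_lt with h0 | h0
    · subst h0
      rcases Int.emod_two_eq_zero_or_one s with h' | h'
      · exact ⟨_, _, _, V1_good_zero hK (b := s / 2) (Or.inl (by omega))⟩
      · exact ⟨_, _, _, V1_good_zero hK (b := s / 2) (Or.inr (by omega))⟩
    · rcases h2 with h2 | h2
      · exact ⟨_, _, _, V1_good_R (by omega) h1 h2⟩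
      · exact ⟨_, _, _, V1_good_L (by omega) h1 h2⟩
  refine cubicCode_of_good ⟨sv1 K 0 0 0, 0, 0, 0, by omega, by omega, by omega, rfl⟩ V1_compl ?_
  rintro x ⟨s, i, g, h0, h1, h2, rfl⟩
  rcases h1.lt_or_eq with h1 | h1
  · exact key s i g h0 (by omega) h2
  · have hc := V1_compl (sv1 K s i g) ⟨s, i, g, h0, h1.le, h2, rfl⟩
    have e : cpl (sv1 K s i g) = sv1 K (s + K) (i + g) (K - g) := by
      simp only [sv1, pen_add, arc_compl h0 h1.le]
      funext c
      rcases c with c | c <;> rfl
    have := key (s + K) (i + g) (K - g) (by omega) (by omega) (by omega)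
    rw [← e] at this
    have h3 := this.cpl V1_compl
    rwa [cpl_cpl] at h3

lemma V1_mem_diameterSet (hK : 3 ≤ K) : 2 * K ∈ diameterSet := by
  have hV := V1_cubic (K := K) (by omega)
  obtain ⟨h1, h2, h3, hi, hj, hk, hu⟩ := V1_good_zero (K := K) (by omega) (s := 0) (b := 0)
    (i := 0) (Or.inl (by omega))
  have key := hV.card_mem ⟨sv1 K 0 0 0, ⟨0, 0, 0, by omega, by omega, by omega, rfl⟩,
    _, _, _, h1, h2, h3, hi, hj, hk, hu, ?_, ?_⟩
  · simpa [two_mul] using key
  · rintro ⟨s', i', g', h0', h1', h2', he⟩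
    rw [sv1, flip_inl1, flip_inl1] at he
    have : flipAt (flipAt (pen K 0) (cls K 0)) (cls K (0 + 1)) = pen K s' := by
      funext z
      exact congrFun he (Sum.inl z)
    exact pen_flip2_ne hK 0 s' this.symm
  · rintro ⟨s', i', g', h0', h1', h2', he⟩
    have e1 := pen_succ (K := K) (-1)
    rw [neg_add_cancel] at e1
    have eb : arc K 0 (0 + 1) = flipAt (arc K 0 0) (cls K (0 + 0)) :=
      arc_right (by omega) (by omega)
    rw [zero_add, zero_add] at eb
    rw [sv1, flip_inl1, flip_inr1, e1, flipAt_flipAt, ← eb] at he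
    have hp : pen K s' = pen K (-1) := by
      funext z
      exact (congrFun he (Sum.inl z)).symm
    have ha : arc K i' g' = arc K 0 1 := by
      funext z
      exact (congrFun he (Sum.inr z)).symm
    obtain ⟨t, ht⟩ := pen_inj hp
    obtain ⟨t', ht', hg⟩ := arc_eq_singleton (by omega) h1' ha
    -- 2 * i' in {s', s' - 1}
    have e3 : 2 * (K : ℤ) * t = 2 * (K * t) := by ring
    rw [e3] at ht
    have h5 : (K : ℤ) * (t + t') = 0 ∨ (K : ℤ) * (t + t') = 1 := by
      rw [mul_add]; omega
    rcases h5 with h5 | h5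
    · rw [mul_add] at h5; omega
    · have : (K : ℤ) ∣ 1 := ⟨_, h5.symm⟩
      have := Int.le_of_dvd (by omega) this
      omega

end Pool.Agent.SGraph33
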