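import Pool.Agent.SGraph33.Elim

/-!
The code of the regular `K`-gon arrangement together with the line at infinity, `K = 2 m`.
-/

namespace Pool.Agent.SGraph33

set_option linter.unusedVariables false
set_option linter.unusedSectionVars false

/-- sign vector -/
def sw2 (K : ℕ) (s i g : ℤ) (b : Bool) : Fin K ⊕ Fin K ⊕ Unit → Bool :=
  sv3 (pen K s) (arc K i g) (fun _ => b)

/-- the parameters of a cell -/
def ok2 (K m : ℕ) (s i g : ℤ) (b : Bool) : Prop :=
  0 ≤ g ∧ g ≤ K ∧ (2 * i = s + 1 + m - g ∨ 2 * i + 1 = s + 1 + m - g) ∧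
    (b = false → g ≤ m) ∧ (b = true → m ≤ g)

/-- the code -/
def V2 (K m : ℕ) : Set (Fin K ⊕ Fin K ⊕ Unit → Bool) :=
  {x | ∃ s i g : ℤ, ∃ b : Bool, ok2 K m s i g b ∧ x = sw2 K s i g b}

variable {K m : ℕ} [NeZero K]

lemma sw2_shift (s i g : ℤ) (b : Bool) (t : ℤ) :
    sw2 K (s + 2 * K * t) (i + K * t) g b = sw2 K s i g b := by
  simp only [sw2, pen_add_two_mul, arc_add_mul]

lemma ok2_shift {s i g : ℤ} {b : Bool} (h : ok2 K m s i g b) (t : ℤ) :
    ok2 K m (s + 2 * K * t) (i + K * t) g b := by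
  obtain ⟨h1, h2, h3, h4, h5⟩ := h
  refine ⟨h1, h2, ?_, h4, h5⟩
  have : 2 * (K : ℤ) * t = 2 * (K * t) := by ring
  rw [this]; omega

lemma cpl_sw2 {s i g : ℤ} {b : Bool} (h0 : 0 ≤ g) (h1 : g ≤ K) :
    cpl (sw2 K s i g b) = sw2 K (s + K) (i + g) (K - g) (!b) := by
  simp only [sw2, cpl_sv3, pen_add, arc_compl h0 h1]

lemma ok2_compl (hKm : K = 2 * m) {s i g : ℤ} {b : Bool} (h : ok2 K m s i g b) :
    ok2 K m (s + K) (i + g) (K - g) (!b) := by
  obtain ⟨h1, h2, h3, h4, h5⟩ := h
  refine ⟨by omega, by omega, by omega, ?_, ?_⟩ <;> cases b <;> simp at * <;> omega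

lemma V2_compl (hKm : K = 2 * m) (x) (hx : x ∈ V2 K m) : cpl x ∈ V2 K m := by
  obtain ⟨s, i, g, b, h, rfl⟩ := hx
  exact ⟨_, _, _, _, ok2_compl hKm h, cpl_sw2 h.1 h.2.1⟩

/-- the flip data for right type cells, `1 ≤ g ≤ m - 1` -/
lemma V2_good_R (hKm : K = 2 * m) {s i g : ℤ} (h0 : 1 ≤ g) (h1 : g ≤ m - 1)
    (h : 2 * i = s + 1 + m - g) :
    GoodAt (V2 K m) (sw2 K s i g false) (Sum.inl (cls K (s + 1)))
      (Sum.inr (Sum.inl (cls K (i + g - 1)))) (Sum.inr (Sum.inl (cls K (i - 1)))) := by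
  refine ⟨by simp, by simp, ?_, ?_, ?_, ?_, ?_⟩
  · intro h'
    exact cls_ne (K := K) (a := i - 1) (b := i + g - 1) (by omega) (by omega)
      (Sum.inl_injective (Sum.inr_injective h')).symm
  · rw [sw2, flip_pen, flip_pen_right]
    exact ⟨s + 1, i, g, false, ⟨by omega, by omega, by omega, by omega, by simp⟩, rfl⟩
  · rw [sw2, flip_arc, arc_remove_right (by omega) (by omega)]
    exact ⟨s, i, g - 1, false, ⟨by omega, by omega, by omega, by omega, by simp⟩, rfl⟩
  · rw [sw2, flip_arc, arc_add_left (by omega) (by omega)]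
    exact ⟨s, i - 1, g + 1, false, ⟨by omega, by omega, by omega, by omega, by simp⟩, rfl⟩
  · rintro u ⟨s', i', g', b', hok, rfl⟩ hp ha hb
    simp only [sw2, sv3_inl, sv3_inr_inl] at hp ha hb
    rw [arc_true (i := i) (g := g) (by omega) (by omega) (by omega)] at ha
    rw [arc_false (i := i) (g := g) (by omega) (by omega) (by omega) (by omega)] at hb
    obtain ⟨t, ht1, ht2⟩ := arc_rep_mem hok.2.1 ha
    have hb0 := arc_cls_false hok.2.1 _ hb (-t)
    have hb1 := arc_cls_false hok.2.1 _ hb (-t + 1)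
    rw [mul_add, mul_neg] at hb1
    rw [mul_neg] at hb0
    rw [pen_right, ← odd_shift _ _ t] at hp
    rw [← sw2_shift s' i' g' b' t]
    obtain ⟨h1', h2', h3', h4', h5'⟩ := ok2_shift hok t
    generalize hi : i' + K * t = i'' at *
    generalize hs : s' + 2 * K * t = s'' at *
    rw [odd_div_iff (by omega) (by omega)] at hp
    have e1 : s'' = s := by omega
    have e2 : i'' = i := by omega
    have e3 : g' = g := by omega
    subst e1 e2 e3
    cases b'
    · rfl
    · have := h5' rfl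
      omega

lemma V2_good_L (hKm : K = 2 * m) {s i g : ℤ} (h0 : 1 ≤ g) (h1 : g ≤ m - 1)
    (h : 2 * i + 1 = s + 1 + m - g) :
    GoodAt (V2 K m) (sw2 K s i g false) (Sum.inl (cls K s))
      (Sum.inr (Sum.inl (cls K i))) (Sum.inr (Sum.inl (cls K (i + g)))) := by
  refine ⟨by simp, by simp, ?_, ?_, ?_, ?_, ?_⟩
  · intro h'
    exact cls_ne (K := K) (a := i) (b := i + g) (by omega) (by omega)
      (Sum.inl_injective (Sum.inr_injective h'))
  · rw [sw2, flip_pen, flip_pen_left]
    exact ⟨s - 1, i, g, false, ⟨by omega, by omega, by omega, by omega, by simp⟩, rfl⟩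
  · rw [sw2, flip_arc, arc_remove_left (by omega) (by omega)]
    exact ⟨s, i + 1, g - 1, false, ⟨by omega, by omega, by omega, by omega, by simp⟩, rfl⟩
  · rw [sw2, flip_arc, arc_add_right (by omega) (by omega)]
    exact ⟨s, i, g + 1, false, ⟨by omega, by omega, by omega, by omega, by simp⟩, rfl⟩
  · rintro u ⟨s', i', g', b', hok, rfl⟩ hp ha hb
    simp only [sw2, sv3_inl, sv3_inr_inl] at hp ha hb
    rw [arc_true (i := i) (g := g) (by omega) (by omega) (by omega)] at ha
    rw [arc_false (i := i) (g := g) (by omega) (by omega) (by omega) (by omega)] at hb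
    obtain ⟨t, ht1, ht2⟩ := arc_rep_mem hok.2.1 ha
    have hb0 := arc_cls_false hok.2.1 _ hb (-t)
    have hb1 := arc_cls_false hok.2.1 _ hb (-t - 1)
    rw [mul_sub, mul_neg] at hb1
    rw [mul_neg] at hb0
    rw [pen_left, ← even_shift _ _ t] at hp
    rw [← sw2_shift s' i' g' b' t]
    obtain ⟨h1', h2', h3', h4', h5'⟩ := ok2_shift hok t
    generalize hi : i' + K * t = i'' at *
    generalize hs : s' + 2 * K * t = s'' at *
    rw [← Int.not_odd_iff_even, odd_div_iff (by omega) (by omega)] at hp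
    have e1 : s'' = s := by omega
    have e2 : i'' = i := by omega
    have e3 : g' = g := by omega
    subst e1 e2 e3
    cases b'
    · rfl
    · have := h5' rfl
      omega

/-- cells just below the line at infinity -/
lemma V2_good_R' (hKm : K = 2 * m) (hm : 1 ≤ m) {s i : ℤ} (h : 2 * i = s + 1) :
    GoodAt (V2 K m) (sw2 K s i m false) (Sum.inl (cls K (s + 1)))
      (Sum.inr (Sum.inl (cls K (i + m - 1)))) (Sum.inr (Sum.inr ())) := by
  refine ⟨by simp, by simp, by simp, ?_, ?_, ?_, ?_⟩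
  · rw [sw2, flip_pen, flip_pen_right]
    exact ⟨s + 1, i, m, false, ⟨by omega, by omega, by omega, by omega, by simp⟩, rfl⟩
  · rw [sw2, flip_arc, arc_remove_right (by omega) (by omega)]
    exact ⟨s, i, m - 1, false, ⟨by omega, by omega, by omega, by omega, by simp⟩, rfl⟩
  · rw [sw2, flip_spec]
    refine ⟨s, i, m, true, ⟨by omega, by omega, by omega, by omega, by simp⟩, ?_⟩
    simp only [sw2]
    congr 1
  · rintro u ⟨s', i', g', b', hok, rfl⟩ hp ha hb
    simp only [sw2, sv3_inl, sv3_inr_inl, sv3_inr_inr] at hp ha hb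
    subst hb
    rw [arc_true (i := i) (g := m) (by omega) (by omega) (by omega)] at ha
    obtain ⟨t, ht1, ht2⟩ := arc_rep_mem hok.2.1 ha
    rw [pen_right, ← odd_shift _ _ t] at hp
    rw [← sw2_shift s' i' g' _ t]
    obtain ⟨h1', h2', h3', h4', h5'⟩ := ok2_shift hok t
    have h4'' := h4' rfl
    generalize hi : i' + K * t = i'' at *
    generalize hs : s' + 2 * K * t = s'' at *
    rw [odd_div_iff (by omega) (by omega)] at hp
    have e1 : s'' = s := by omega
    have e2 : i'' = i := by omega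
    have e3 : g' = m := by omega
    subst e1 e2 e3
    rfl

lemma V2_good_L' (hKm : K = 2 * m) (hm : 1 ≤ m) {s i : ℤ} (h : 2 * i + 1 = s + 1) :
    GoodAt (V2 K m) (sw2 K s i m false) (Sum.inl (cls K s))
      (Sum.inr (Sum.inl (cls K i))) (Sum.inr (Sum.inr ())) := by
  refine ⟨by simp, by simp, by simp, ?_, ?_, ?_, ?_⟩
  · rw [sw2, flip_pen, flip_pen_left]
    exact ⟨s - 1, i, m, false, ⟨by omega, by omega, by omega, by omega, by simp⟩, rfl⟩
  · rw [sw2, flip_arc, arc_remove_left (by omega) (by omega)]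
    exact ⟨s, i + 1, m - 1, false, ⟨by omega, by omega, by omega, by omega, by simp⟩, rfl⟩
  · rw [sw2, flip_spec]
    refine ⟨s, i, m, true, ⟨by omega, by omega, by omega, by omega, by simp⟩, ?_⟩
    simp only [sw2]
    congr 1
  · rintro u ⟨s', i', g', b', hok, rfl⟩ hp ha hb
    simp only [sw2, sv3_inl, sv3_inr_inl, sv3_inr_inr] at hp ha hb
    subst hb
    rw [arc_true (i := i) (g := m) (by omega) (by omega) (by omega)] at ha
    obtain ⟨t, ht1, ht2⟩ := arc_rep_mem hok.2.1 ha
    rw [pen_left, ← even_shift _ _ t] at hp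
    rw [← sw2_shift s' i' g' _ t]
    obtain ⟨h1', h2', h3', h4', h5'⟩ := ok2_shift hok t
    have h4'' := h4' rfl
    generalize hi : i' + K * t = i'' at *
    generalize hs : s' + 2 * K * t = s'' at *
    rw [← Int.not_odd_iff_even, odd_div_iff (by omega) (by omega)] at hp
    have e1 : s'' = s := by omega
    have e2 : i'' = i := by omega
    have e3 : g' = m := by omega
    subst e1 e2 e3
    rfl

/-- cells at the pivot -/
lemma V2_good_zero (hKm : K = 2 * m) (hm : 1 ≤ m) {s b i : ℤ}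
    (h : s + m = 2 * b ∨ s + m = 2 * b + 1) :
    GoodAt (V2 K m) (sw2 K s i 0 false) (Sum.inl (cls K s)) (Sum.inl (cls K (s + 1)))
      (Sum.inr (Sum.inl (cls K b))) := by
  have e0 : arc K i 0 = arc K b 0 := arc_zero _ _
  have ex : ∀ s' : ℤ, sw2 K s' i 0 false ∈ V2 K m := by
    intro s'
    rcases Int.emod_two_eq_zero_or_one (s' + m) with h' | h'
    · refine ⟨s', (s' + m) / 2, 0, false, ⟨by omega, by omega, by omega, by omega, by simp⟩, ?_⟩
      simp only [sw2, arc_zero i ((s' + m) / 2)]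
    · refine ⟨s', (s' + m + 1) / 2, 0, false,
        ⟨by omega, by omega, by omega, by omega, by simp⟩, ?_⟩
      simp only [sw2, arc_zero i ((s' + m + 1) / 2)]
  refine ⟨?_, by simp, by simp, ?_, ?_, ?_, ?_⟩
  · intro h'
    exact cls_ne (K := K) (a := s) (b := s + 1) (by omega) (by omega)
      (Sum.inl_injective h')
  · rw [sw2, flip_pen, flip_pen_left]
    exact ex (s - 1)
  · rw [sw2, flip_pen, flip_pen_right]
    exact ex (s + 1)
  · have eb := arc_add_right (K := K) (i := b) (g := 0) (by omega) (by omega)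
    rw [zero_add, add_zero] at eb
    rw [sw2, flip_arc, e0, eb]
    exact ⟨s, b, 1, false, ⟨by omega, by omega, by omega, by omega, by simp⟩, rfl⟩
  · rintro u ⟨s', i', g', b', hok, rfl⟩ hp1 hp2 hb
    simp only [sw2, sv3_inl, sv3_inr_inl] at hp1 hp2 hb
    have hxb : arc K i 0 (cls K b) = false := by
      simp only [arc, decide_eq_false_iff_not, not_lt]
      exact Int.emod_nonneg _ K_pos.ne'
    rw [hxb] at hb
    rw [pen_left] at hp1
    rw [pen_right] at hp2
    obtain ⟨t, ht⟩ := two_walls hp1 hp2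
    rw [← sw2_shift s' i' g' b' (-t)]
    have e1 : s' + 2 * K * -t = s := by
      have : 2 * (K : ℤ) * -t = -(2 * K * t) := by ring
      rw [this]; omega
    obtain ⟨h1', h2', h3', h4', h5'⟩ := ok2_shift hok (-t)
    rw [e1] at h3' ⊢
    have hb0 := arc_cls_false hok.2.1 _ hb t
    rw [mul_neg] at h3' ⊢
    have hg : g' = 0 := by omega
    subst hg
    cases b'
    · simp only [sw2, arc_zero _ i]
    · have := h5' rfl
      omega

lemma V2_cubic (hKm : K = 2 * m) (hm : 1 ≤ m) : CubicCode (V2 K m) := by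
  have key : ∀ s i g : ℤ, ok2 K m s i g false → Good (V2 K m) (sw2 K s i g false) := by
    rintro s i g ⟨h0, h1, h2, h3, -⟩
    have h3 := h3 rfl
    rcases h0.eq_or_lt with h0 | h0
    · subst h0
      rcases Int.emod_two_eq_zero_or_one (s + m) with h' | h'
      · exact ⟨_, _, _, V2_good_zero hKm hm (b := (s + m) / 2) (Or.inl (by omega))⟩
      · exact ⟨_, _, _, V2_good_zero hKm hm (b := (s + m) / 2) (Or.inr (by omega))⟩
    · rcases h3.lt_or_eq with h3 | h3
      · rcases h2 with h2 | h2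
        · exact ⟨_, _, _, V2_good_R hKm (by omega) (by omega) h2⟩
        · exact ⟨_, _, _, V2_good_L hKm (by omega) (by omega) h2⟩
      · subst h3
        rcases h2 with h2 | h2
        · exact ⟨_, _, _, V2_good_R' hKm hm (by omega)⟩
        · exact ⟨_, _, _, V2_good_L' hKm hm (by omega)⟩
  have hne : (V2 K m).Nonempty := by
    rcases Int.emod_two_eq_zero_or_one (m : ℤ) with h' | h'
    · exact ⟨_, 0, m / 2, 0, false, ⟨by omega, by omega, by omega, by omega, by simp⟩, rfl⟩
    · exact ⟨_, 0, (m + 1) / 2, 0, false, ⟨by omega, by omega, by omega, by omega, by simp⟩, rfl⟩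
  refine cubicCode_of_good hne (V2_compl hKm) ?_
  rintro x ⟨s, i, g, b, hok, rfl⟩
  cases b
  · exact key s i g hok
  · have h1 := key _ _ _ (ok2_compl hKm hok)
    have h2 := cpl_sw2 (s := s) (i := i) (b := true) hok.1 hok.2.1
    simp only [Bool.not_true] at h1 h2
    rw [← h2] at h1
    have h3 := h1.cpl (V2_compl hKm)
    rwa [cpl_cpl] at h3

lemma V2_mem_diameterSet (hKm : K = 2 * m) (hm : 2 ≤ m) : 2 * K + 1 ∈ diameterSet := by
  have hV := V2_cubic hKm (by omega)
  obtain ⟨h1, h2, h3, hi, hj, hk, hu⟩ := V2_good_zero hKm (by omega) (s := -m) (b := 0)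
    (i := 0) (Or.inl (by omega))
  have hmem : sw2 K (-m) 0 0 false ∈ V2 K m := by
    have e : sw2 K (-m) 0 0 false = sw2 K (-m) 0 0 false := rfl
    refine ⟨-m, 0, 0, false, ⟨by omega, by omega, by omega, by omega, by simp⟩, e⟩
  have key := hV.card_mem ⟨sw2 K (-m) 0 0 false, hmem, _, _, _, h1, h2, h3, hi, hj, hk, hu, ?_, ?_⟩
  · have e : Fintype.card (Fin K ⊕ Fin K ⊕ Unit) = 2 * K + 1 := by
      simp; ring
    rwa [e] at key
  · rintro ⟨s', i', g', b', hok, he⟩
    rw [sw2, flip_pen, flip_pen] at he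
    have : flipAt (flipAt (pen K (-m)) (cls K (-m))) (cls K (-m + 1)) = pen K s' := by
      funext z
      exact congrFun he (Sum.inl z)
    exact pen_flip2_ne (by omega) _ s' this.symm
  · rintro ⟨s', i', g', b', hok, he⟩
    have eb := arc_add_right (K := K) (i := 0) (g := 0) (by omega) (by omega)
    rw [zero_add, zero_add] at eb
    rw [sw2, flip_pen, flip_arc, flip_pen_left, eb] at he
    have hp : pen K s' = pen K (-m - 1) := by
      funext z
      exact (congrFun he (Sum.inl z)).symm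
    have ha : arc K i' g' = arc K 0 1 := by
      funext z
      exact (congrFun he (Sum.inr (Sum.inl z))).symm
    obtain ⟨t, ht⟩ := pen_inj hp
    obtain ⟨h1', h2', h3', h4', h5'⟩ := hok
    obtain ⟨t', ht', hg⟩ := arc_eq_singleton (by omega) h2' ha
    have e3 : 2 * (K : ℤ) * t = 2 * (K * t) := by ring
    rw [e3] at ht
    have h5 : (K : ℤ) * (t + t') = 0 ∨ (K : ℤ) * (t + t') = 1 := by
      rw [mul_add]; omega
    rcases h5 with h5 | h5
    · rw [mul_add] at h5; omega
    · have : (K : ℤ) ∣ 1 := ⟨_, h5.symm⟩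
      have := Int.le_of_dvd (by omega) this
      omega

end Pool.Agent.SGraph33
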