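import Pool.Agent.SGraph33.Family3c

namespace Pool.Agent.SGraph33

set_option linter.unusedVariables false
set_option linter.unusedSectionVars false
set_option maxHeartbeats 1000000

variable {K m : ℕ} [NeZero K]

/-- special wall 1 from level 1 to level 2 at `g = m` -/
lemma okmid (hKm : K = 2 * m) (hm : 2 ≤ m) {s i : ℤ} (h : ok3 K m s i m 1) :
    ok3 K m s i m 2 := by
  unfold ok3 at *
  rcases h with ⟨h1, h2, ⟨h3, ⟨h4, h5⟩ | ⟨h4, h5⟩⟩ | ⟨h3, h4, h5⟩⟩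
  · exact ⟨by omega, by omega, Or.inl ⟨h3, Or.inl ⟨h4, by omega⟩⟩⟩
  · exact ⟨by omega, by omega, Or.inl ⟨h3, Or.inr ⟨h4, by omega⟩⟩⟩
  · exact ⟨by omega, by omega, Or.inr ⟨by omega, by omega, by omega⟩⟩

lemma V3_eR (hKm : K = 2 * m) (hm : 2 ≤ m) {s i : ℤ}
    (h : (2 * i = s + 1 ∧ 1 ≤ s % (K : ℤ) ∧ s % (K : ℤ) ≤ K - 2) ∨
      (s % (K : ℤ) = K - 2 ∧ 2 * i = s + 2)) :
    GoodAt (V3 K m) (sw3 K s i m 1) (Sum.inl (cls K (s + 1)))
      (Sum.inr (Sum.inl (cls K (i + m - 1)))) (Sum.inr (Sum.inr 1)) := by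
  obtain ⟨T, hT⟩ := parity3 hKm s
  have hr := res_bounds (K := K) s
  have hok0 : ok3 K m s i m 1 := by
    unfold ok3
    rcases h with ⟨h1, h2⟩ | ⟨h1, h2⟩
    · exact ⟨by omega, by omega, Or.inl ⟨by omega, Or.inr ⟨by omega, by omega⟩⟩⟩
    · exact ⟨by omega, by omega, Or.inr ⟨by omega, by omega, by omega⟩⟩
  refine ⟨by simp, by simp, by simp, ?_, ?_, ?_, ?_⟩
  · rw [sw3, flip_pen, flip_pen_right]
    obtain ⟨e1, e2⟩ := (res_succ (K := K) (s := s)).1 (by omega)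
    refine mem3 ?_ (Or.inl e2.symm)
    unfold ok3
    rw [e1]
    rcases h with ⟨h1, h2⟩ | ⟨h1, h2⟩
    · exact ⟨by omega, by omega, Or.inl ⟨by omega, Or.inr ⟨by omega, by omega⟩⟩⟩
    · exact ⟨by omega, by omega, Or.inl ⟨by omega, Or.inl ⟨by omega, by omega⟩⟩⟩
  · rw [sw3, flip_arc, arc_remove_right (by omega) (by omega)]
    exact mem3 (okB1 hKm hm (by omega) (by omega) (by omega)) (Or.inl rfl)
  · rw [sw3, flip_spec, spec_flip_mid]
    exact mem3 (okmid hKm hm hok0) (Or.inl rfl)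
  · rintro u ⟨s', i', g', l', hok, rfl⟩ hp ha hl
    simp only [sw3, sv3_inl, sv3_inr_inl, sv3_inr_inr] at hp ha hl
    rw [arc_true (i := i) (g := m) (by omega) (by omega) (by omega)] at ha
    obtain ⟨c1, c2, c3, c4⟩ := ok3_bounds hok
    obtain ⟨t, ht1, ht2⟩ := arc_rep_mem c2 ha
    rw [pen_right, ← odd_shift _ _ t] at hp
    rw [← half_shift s' t] at hl
    rw [← sw3_shift s' i' g' l' t]
    have hok' := ok3_shift hok t
    generalize hi : i' + K * t = i'' at *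
    generalize hs : s' + 2 * K * t = s'' at *
    have hr'' := res_bounds (K := K) s''
    obtain ⟨T', hT'⟩ := parity3 hKm s''
    have hl1 := spec_mid_one hl
    unfold ok3 at hok'
    have hg' : g' ≤ m := by
      rcases hok' with ⟨h1, h2, ⟨h3, ⟨h4, h5⟩ | ⟨h4, h5⟩⟩ | ⟨h3, h4, h5⟩⟩ <;> omega
    have hy : -(K : ℤ) ≤ s'' - s - 1 ∧ s'' - s - 1 ≤ K := by
      rcases hok' with ⟨h1, h2, ⟨h3, ⟨h4, h5⟩ | ⟨h4, h5⟩⟩ | ⟨h3, h4, h5⟩⟩ <;> omega
    rw [odd_div_iff (by omega) (by omega)] at hp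
    have hbr : (s'' % (K : ℤ) = s % K + (s'' - s) ∨ s'' % (K : ℤ) = s % K + (s'' - s) + 2 * K ∨
        s'' % (K : ℤ) = s % K + (s'' - s) - 2 * K) ∨ (s'' % (K : ℤ) = s % K + (s'' - s) + K ∨
      s'' % (K : ℤ) = s % K + (s'' - s) - K) := by
      rcases bridge (K := K) (s := s) (s' := s'') (by omega) (by omega) with ⟨-, h'⟩ | ⟨-, h'⟩
      · exact Or.inl h'
      · exact Or.inr h'
    have hfin : s'' = s ∧ i'' = i ∧ g' = m ∧ l' = 1 := by
      rcases hok' with ⟨h1, h2, ⟨h3, ⟨h4, h5⟩ | ⟨h4, h5⟩⟩ | ⟨h3, h4, h5⟩⟩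
      · omega
      · omega
      · omega
    obtain ⟨e1, e2, e3, e4⟩ := hfin
    rw [e1, e2, e3, e4]

lemma V3_eL (hKm : K = 2 * m) (hm : 2 ≤ m) {s i : ℤ}
    (h : (2 * i + 1 = s + 1 ∧ 1 ≤ s % (K : ℤ) ∧ s % (K : ℤ) ≤ K - 2) ∨
      (s % (K : ℤ) = 1 ∧ 2 * i + 1 = s)) :
    GoodAt (V3 K m) (sw3 K s i m 1) (Sum.inl (cls K s))
      (Sum.inr (Sum.inl (cls K i))) (Sum.inr (Sum.inr 1)) := by
  obtain ⟨T, hT⟩ := parity3 hKm s
  have hr := res_bounds (K := K) s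
  have hok0 : ok3 K m s i m 1 := by
    unfold ok3
    rcases h with ⟨h1, h2⟩ | ⟨h1, h2⟩
    · exact ⟨by omega, by omega, Or.inl ⟨by omega, Or.inr ⟨by omega, by omega⟩⟩⟩
    · exact ⟨by omega, by omega, Or.inr ⟨by omega, by omega, by omega⟩⟩
  refine ⟨by simp, by simp, by simp, ?_, ?_, ?_, ?_⟩
  · rw [sw3, flip_pen, flip_pen_left]
    obtain ⟨e1, e2⟩ := (res_pred (K := K) (s := s)).1 (by omega)
    refine mem3 ?_ (Or.inl e2.symm)
    unfold ok3
    rw [e1]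
    rcases h with ⟨h1, h2⟩ | ⟨h1, h2⟩
    · exact ⟨by omega, by omega, Or.inl ⟨by omega, Or.inr ⟨by omega, by omega⟩⟩⟩
    · exact ⟨by omega, by omega, Or.inl ⟨by omega, Or.inl ⟨by omega, by omega⟩⟩⟩
  · rw [sw3, flip_arc, arc_remove_left (by omega) (by omega)]
    exact mem3 (okB1 hKm hm (by omega) (by omega) (by omega)) (Or.inl rfl)
  · rw [sw3, flip_spec, spec_flip_mid]
    exact mem3 (okmid hKm hm hok0) (Or.inl rfl)
  · rintro u ⟨s', i', g', l', hok, rfl⟩ hp ha hl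
    simp only [sw3, sv3_inl, sv3_inr_inl, sv3_inr_inr] at hp ha hl
    rw [arc_true (i := i) (g := m) (by omega) (by omega) (by omega)] at ha
    obtain ⟨c1, c2, c3, c4⟩ := ok3_bounds hok
    obtain ⟨t, ht1, ht2⟩ := arc_rep_mem c2 ha
    rw [pen_left, ← even_shift _ _ t] at hp
    rw [← half_shift s' t] at hl
    rw [← sw3_shift s' i' g' l' t]
    have hok' := ok3_shift hok t
    generalize hi : i' + K * t = i'' at *
    generalize hs : s' + 2 * K * t = s'' at *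
    have hr'' := res_bounds (K := K) s''
    obtain ⟨T', hT'⟩ := parity3 hKm s''
    have hl1 := spec_mid_one hl
    unfold ok3 at hok'
    have hg' : g' ≤ m := by
      rcases hok' with ⟨h1, h2, ⟨h3, ⟨h4, h5⟩ | ⟨h4, h5⟩⟩ | ⟨h3, h4, h5⟩⟩ <;> omega
    have hy : -(K : ℤ) - 2 ≤ s'' - s ∧ s'' - s < K := by
      rcases hok' with ⟨h1, h2, ⟨h3, ⟨h4, h5⟩ | ⟨h4, h5⟩⟩ | ⟨h3, h4, h5⟩⟩ <;> omega
    rw [← Int.not_odd_iff_even, odd_div_iff (by omega) (by omega)] at hp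
    have hbr : (s'' % (K : ℤ) = s % K + (s'' - s) ∨ s'' % (K : ℤ) = s % K + (s'' - s) + 2 * K ∨
        s'' % (K : ℤ) = s % K + (s'' - s) - 2 * K) ∨ (s'' % (K : ℤ) = s % K + (s'' - s) + K ∨
      s'' % (K : ℤ) = s % K + (s'' - s) - K) := by
      rcases bridge (K := K) (s := s) (s' := s'') (by omega) (by omega) with ⟨-, h'⟩ | ⟨-, h'⟩
      · exact Or.inl h'
      · exact Or.inr h'
    have hfin : s'' = s ∧ i'' = i ∧ g' = m ∧ l' = 1 := by
      rcases hok' with ⟨h1, h2, ⟨h3, ⟨h4, h5⟩ | ⟨h4, h5⟩⟩ | ⟨h3, h4, h5⟩⟩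
      · omega
      · omega
      · omega
    obtain ⟨e1, e2, e3, e4⟩ := hfin
    rw [e1, e2, e3, e4]

/-- bring a sector within half a turn -/
lemma near (s s' : ℤ) : ∃ t : ℤ, -(K : ℤ) ≤ s' + 2 * K * t - s ∧ s' + 2 * K * t - s < K := by
  have h2K : (0 : ℤ) < 2 * K := by have := K_pos (K := K); omega
  refine ⟨-((s' - s + K) / (2 * (K : ℤ))), ?_, ?_⟩
  · have h1 := Int.emod_nonneg (s' - s + K) h2K.ne'
    have h2 : s' - s + K = (s' - s + K) % (2 * K) + 2 * K * ((s' - s + K) / (2 * K)) :=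
      (Int.emod_add_mul_ediv _ _).symm
    rw [mul_neg]; linarith
  · have h1 := Int.emod_lt_of_pos (s' - s + K) h2K
    have h2 : s' - s + K = (s' - s + K) % (2 * K) + 2 * K * ((s' - s + K) / (2 * K)) :=
      (Int.emod_add_mul_ediv _ _).symm
    rw [mul_neg]; linarith

lemma V3_gR (hKm : K = 2 * m) (hm : 2 ≤ m) {s i : ℤ}
    (h : s % (K : ℤ) = 0 ∧ 2 * i + 1 = s + 1) :
    GoodAt (V3 K m) (sw3 K s i m 1) (Sum.inl (cls K (s + 1)))
      (Sum.inr (Sum.inr (low (half K s)))) (Sum.inr (Sum.inr 1)) := by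
  obtain ⟨T, hT⟩ := parity3 hKm s
  have hr := res_bounds (K := K) s
  have hok0 : ok3 K m s i m 1 := by
    unfold ok3
    exact ⟨by omega, by omega, Or.inl ⟨by omega, Or.inl ⟨by omega, by omega⟩⟩⟩
  refine ⟨by simp, by simp, ?_, ?_, ?_, ?_, ?_⟩
  · intro h'
    exact low_ne_one (half K s) (Sum.inr_injective (Sum.inr_injective h'))
  · rw [sw3, flip_pen, flip_pen_right]
    obtain ⟨e1, e2⟩ := (res_succ (K := K) (s := s)).1 (by omega)
    refine mem3 ?_ (Or.inl e2.symm)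
    unfold ok3
    rw [e1]
    exact ⟨by omega, by omega, Or.inr ⟨by omega, by omega, by omega⟩⟩
  · rw [sw3, flip_spec, spec_flip_low']
    refine mem3 ?_ (Or.inr rfl)
    unfold ok3
    exact ⟨by omega, by omega, Or.inl ⟨by omega, Or.inl ⟨by omega, by omega⟩⟩⟩
  · rw [sw3, flip_spec, spec_flip_mid]
    exact mem3 (okmid hKm hm hok0) (Or.inl rfl)
  · rintro u ⟨s', i', g', l', hok, rfl⟩ hp hl hl2
    simp only [sw3, sv3_inl, sv3_inr_inr] at hp hl hl2
    obtain ⟨c1, c2, c3, c4⟩ := ok3_bounds hok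
    obtain ⟨t, ht1, ht2⟩ := near (K := K) s s'
    rw [pen_right, ← odd_shift _ _ t] at hp
    rw [← half_shift s' t] at hl
    rw [← sw3_shift s' i' g' l' t]
    have hok' := ok3_shift hok t
    generalize hi : i' + K * t = i'' at *
    generalize hs : s' + 2 * K * t = s'' at *
    have hr'' := res_bounds (K := K) s''
    have hl1 := spec_mid_one hl2
    have hl' := spec_low_one c4 hl
    unfold ok3 at hok'
    rw [odd_div_iff (by omega) (by omega)] at hp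
    have hbr := bridge (K := K) (s := s) (s' := s'') (by omega) (by omega)
    have hbl := bridge_low hbr hl'
    have e1 : s'' = s := by omega
    have e4 : l' = 1 := by omega
    rw [e1] at hok'
    have hfin : i'' = i ∧ g' = m := by
      rcases hok' with ⟨h1, h2, ⟨h3, ⟨h4, h5⟩ | ⟨h4, h5⟩⟩ | ⟨h3, h4, h5⟩⟩
      · omega
      · omega
      · omega
    obtain ⟨e2, e3⟩ := hfin
    rw [e1, e2, e3, e4]

lemma V3_gL (hKm : K = 2 * m) (hm : 2 ≤ m) {s i : ℤ}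
    (h : s % (K : ℤ) = K - 1 ∧ 2 * i = s + 1) :
    GoodAt (V3 K m) (sw3 K s i m 1) (Sum.inl (cls K s))
      (Sum.inr (Sum.inr (low (half K s)))) (Sum.inr (Sum.inr 1)) := by
  obtain ⟨T, hT⟩ := parity3 hKm s
  have hr := res_bounds (K := K) s
  have hok0 : ok3 K m s i m 1 := by
    unfold ok3
    exact ⟨by omega, by omega, Or.inl ⟨by omega, Or.inl ⟨by omega, by omega⟩⟩⟩
  refine ⟨by simp, by simp, ?_, ?_, ?_, ?_, ?_⟩
  · intro h'
    exact low_ne_one (half K s) (Sum.inr_injective (Sum.inr_injective h'))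
  · rw [sw3, flip_pen, flip_pen_left]
    obtain ⟨e1, e2⟩ := (res_pred (K := K) (s := s)).1 (by omega)
    refine mem3 ?_ (Or.inl e2.symm)
    unfold ok3
    rw [e1]
    exact ⟨by omega, by omega, Or.inr ⟨by omega, by omega, by omega⟩⟩
  · rw [sw3, flip_spec, spec_flip_low']
    refine mem3 ?_ (Or.inr rfl)
    unfold ok3
    exact ⟨by omega, by omega, Or.inl ⟨by omega, Or.inl ⟨by omega, by omega⟩⟩⟩
  · rw [sw3, flip_spec, spec_flip_mid]
    exact mem3 (okmid hKm hm hok0) (Or.inl rfl)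
  · rintro u ⟨s', i', g', l', hok, rfl⟩ hp hl hl2
    simp only [sw3, sv3_inl, sv3_inr_inr] at hp hl hl2
    obtain ⟨c1, c2, c3, c4⟩ := ok3_bounds hok
    obtain ⟨t, ht1, ht2⟩ := near (K := K) s s'
    rw [pen_left, ← even_shift _ _ t] at hp
    rw [← half_shift s' t] at hl
    rw [← sw3_shift s' i' g' l' t]
    have hok' := ok3_shift hok t
    generalize hi : i' + K * t = i'' at *
    generalize hs : s' + 2 * K * t = s'' at *
    have hr'' := res_bounds (K := K) s''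
    have hl1 := spec_mid_one hl2
    have hl' := spec_low_one c4 hl
    unfold ok3 at hok'
    rw [← Int.not_odd_iff_even, odd_div_iff (by omega) (by omega)] at hp
    have hbr := bridge (K := K) (s := s) (s' := s'') (by omega) (by omega)
    have hbl := bridge_low hbr hl'
    have e1 : s'' = s := by omega
    have e4 : l' = 1 := by omega
    rw [e1] at hok'
    have hfin : i'' = i ∧ g' = m := by
      rcases hok' with ⟨h1, h2, ⟨h3, ⟨h4, h5⟩ | ⟨h4, h5⟩⟩ | ⟨h3, h4, h5⟩⟩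
      · omega
      · omega
      · omega
    obtain ⟨e2, e3⟩ := hfin
    rw [e1, e2, e3, e4]

/-- every cell of level zero is good -/
lemma V3_good0 (hKm : K = 2 * m) (hm : 2 ≤ m) {s i g : ℤ} (hok : ok3 K m s i g 0) :
    Good (V3 K m) (sw3 K s i g 0) := by
  obtain ⟨c1, c2, c3, c4⟩ := ok3_bounds hok
  unfold ok3 at hok
  rcases eq_or_ne g 0 with hg0 | hg0
  · subst hg0
    rcases Int.emod_two_eq_zero_or_one (s + m) with h' | h'
    · exact ⟨_, _, _, V3_good_zero hKm hm (b := (s + m) / 2) (Or.inl (by clear hok; omega))⟩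
    · exact ⟨_, _, _, V3_good_zero hKm hm (b := (s + m) / 2) (Or.inr (by clear hok; omega))⟩
  · have hg1 : 1 ≤ g := by clear hok; omega
    rcases hok with ⟨h1, h2, ⟨h3, ⟨h4, h5⟩ | ⟨h4, h5⟩⟩ | ⟨h3, h4, h5⟩⟩
    · have h5' : g = m ∨ g ≤ m - 1 := by clear h3 h4; omega
      rcases h5' with h5' | h5'
      · rcases h3 with h3 | h3
        · exact ⟨_, _, _, V3_topR hKm hm h3 (Or.inl ⟨h4, h5'⟩)⟩
        · exact ⟨_, _, _, V3_topL hKm hm h3 (Or.inl ⟨h4, h5'⟩)⟩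
      · rcases h3 with h3 | h3
        · exact ⟨_, _, _, V3_R hKm hm hg1 h3 (Or.inl ⟨h4, h5'⟩)⟩
        · exact ⟨_, _, _, V3_L hKm hm hg1 h3 (Or.inl ⟨h4, h5'⟩)⟩
    · have h5' : g = m - 1 ∨ g ≤ m - 2 := by clear h3 h4; omega
      rcases h5' with h5' | h5'
      · rcases h3 with h3 | h3
        · exact ⟨_, _, _, V3_topR hKm hm h3 (Or.inr ⟨h4, h5'⟩)⟩
        · exact ⟨_, _, _, V3_topL hKm hm h3 (Or.inr ⟨h4, h5'⟩)⟩
      · rcases h3 with h3 | h3
        · exact ⟨_, _, _, V3_R hKm hm hg1 h3 (Or.inr ⟨h4, h5'⟩)⟩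
        · exact ⟨_, _, _, V3_L hKm hm hg1 h3 (Or.inr ⟨h4, h5'⟩)⟩
    · exfalso; clear h3 h5; omega

/-- every cell of level one is good -/
lemma V3_good1 (hKm : K = 2 * m) (hm : 2 ≤ m) {s i g : ℤ} (hok : ok3 K m s i g 1) :
    Good (V3 K m) (sw3 K s i g 1) := by
  obtain ⟨T, hT⟩ := parity3 hKm s
  unfold ok3 at hok
  rcases hok with ⟨h1, h2, ⟨h3, ⟨h4, h5⟩ | ⟨h4, h5⟩⟩ | ⟨h3, h4, h5⟩⟩
  · have hg : g = m := by clear h3 h4; omega
    subst hg
    rcases h4 with h4 | h4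
    · exact ⟨_, _, _, V3_gR hKm hm ⟨h4, by clear h5; omega⟩⟩
    · exact ⟨_, _, _, V3_gL hKm hm ⟨h4, by clear h5; omega⟩⟩
  · have hg : g = m - 1 ∨ g = m := by clear h3 h4; omega
    rcases hg with hg | hg
    · subst hg
      rcases h3 with h3 | h3
      · rcases (show s % (K : ℤ) ≤ K - 3 ∨ s % (K : ℤ) = K - 2 by clear h5; omega) with h6 | h6
        · exact ⟨_, _, _, V3_dR hKm hm (by clear h5; omega) h4.1 h6⟩
        · exact ⟨_, _, _, V3_dX hKm hm (Or.inr ⟨h6, by clear h5; omega⟩)⟩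
      · rcases (show 2 ≤ s % (K : ℤ) ∨ s % (K : ℤ) = 1 by clear h5; omega) with h6 | h6
        · exact ⟨_, _, _, V3_dL hKm hm (by clear h5; omega) h6 h4.2⟩
        · exact ⟨_, _, _, V3_dX hKm hm (Or.inl ⟨h6, by clear h5; omega⟩)⟩
    · subst hg
      rcases h3 with h3 | h3
      · exact ⟨_, _, _, V3_eR hKm hm (Or.inl ⟨by clear h5; omega, h4⟩)⟩
      · exact ⟨_, _, _, V3_eL hKm hm (Or.inl ⟨by clear h5; omega, h4⟩)⟩
  · subst h3
    rcases h5 with h5 | h5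
    · exact ⟨_, _, _, V3_eL hKm hm (Or.inr h5)⟩
    · exact ⟨_, _, _, V3_eR hKm hm (Or.inr h5)⟩

/-- every cell of level at most one is good -/
lemma V3_good (hKm : K = 2 * m) (hm : 2 ≤ m) {s i g l : ℤ} (hok : ok3 K m s i g l)
    (hl : l ≤ 1) : Good (V3 K m) (sw3 K s i g l) := by
  obtain ⟨c1, c2, c3, c4⟩ := ok3_bounds hok
  have hl' : l = 0 ∨ l = 1 := by clear hok; omega
  rcases hl' with rfl | rfl
  · exact V3_good0 hKm hm hok
  · exact V3_good1 hKm hm hok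

lemma V3_cubic (hKm : K = 2 * m) (hm : 2 ≤ m) : CubicCode (V3 K m) := by
  have hne : (V3 K m).Nonempty := by
    rcases Int.emod_two_eq_zero_or_one (m : ℤ) with h' | h'
    · exact ⟨_, 0, m / 2, 1, 0, okZ hKm (by omega) (by omega) (by omega), rfl⟩
    · exact ⟨_, 0, (m + 1) / 2, 0, 0, okZ hKm (by omega) (by omega) (by omega), rfl⟩
  refine cubicCode_of_good hne (V3_compl hKm) ?_
  rintro x ⟨s, i, g, l, hok, rfl⟩
  obtain ⟨c1, c2, c3, c4⟩ := ok3_bounds hok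
  rcases le_or_gt l 1 with hl | hl
  · exact V3_good hKm hm hok hl
  · have h1 := V3_good hKm hm (ok3_compl hKm hok) (by omega)
    rw [← cpl_sw3 c1 c2 c3 c4] at h1
    have h3 := h1.cpl (V3_compl hKm)
    rwa [cpl_cpl] at h3

lemma V3_mem_diameterSet (hKm : K = 2 * m) (hm : 2 ≤ m) : 2 * K + 3 ∈ diameterSet := by
  have hV := V3_cubic hKm hm
  obtain ⟨h1, h2, h3, hi, hj, hk, hu⟩ := V3_good_zero hKm hm (s := -m) (b := 0)
    (i := 0) (Or.inl (by omega))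
  have hmem : sw3 K (-m) 0 0 0 ∈ V3 K m :=
    ⟨-m, 0, 0, 0, okZ hKm (by omega) (by omega) (by omega), rfl⟩
  have key := hV.card_mem ⟨sw3 K (-m) 0 0 0, hmem, _, _, _, h1, h2, h3, hi, hj, hk, hu, ?_, ?_⟩
  · have e : Fintype.card (Fin K ⊕ Fin K ⊕ Fin 3) = 2 * K + 3 := by
      simp; ring
    rwa [e] at key
  · rintro ⟨s', i', g', l', hok, he⟩
    rw [sw3, flip_pen, flip_pen] at he
    have : flipAt (flipAt (pen K (-m)) (cls K (-m))) (cls K (-m + 1)) = pen K s' := by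
      funext z
      exact congrFun he (Sum.inl z)
    exact pen_flip2_ne (by omega) _ s' this.symm
  · rintro ⟨s', i', g', l', hok, he⟩
    have eb := arc_add_right (K := K) (i := 0) (g := 0) (by omega) (by omega)
    rw [zero_add, zero_add] at eb
    rw [sw3, flip_pen, flip_arc, flip_pen_left, eb] at he
    have hp : pen K s' = pen K (-m - 1) := by
      funext z
      exact (congrFun he (Sum.inl z)).symm
    have ha : arc K i' g' = arc K 0 1 := by
      funext z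
      exact (congrFun he (Sum.inr (Sum.inl z))).symm
    obtain ⟨c1, c2, c3, c4⟩ := ok3_bounds hok
    obtain ⟨t, ht⟩ := pen_inj hp
    obtain ⟨t', ht', hg⟩ := arc_eq_singleton (by omega) c2 ha
    have e3 : 2 * (K : ℤ) * t = 2 * (K * t) := by ring
    rw [e3] at ht
    unfold ok3 at hok
    have hr := res_bounds (K := K) s'
    have hres : m = 2 → s' % (K : ℤ) = 1 := by
      intro hm2
      have hK4 : (K : ℤ) = 4 := by omega
      rw [hK4] at ht ⊢
      omega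
    have h5 : (K : ℤ) * (t + t') = 0 ∨ (K : ℤ) * (t + t') = 1 := by
      rw [mul_add]
      rcases hok with ⟨h1, h2, ⟨h3, ⟨h4, h5⟩ | ⟨h4, h5⟩⟩ | ⟨h3, h4, h5⟩⟩ <;> omega
    rcases h5 with h5 | h5
    · rw [mul_add] at h5
      rcases hok with ⟨h1, h2, ⟨h3, ⟨h4, h6⟩ | ⟨h4, h6⟩⟩ | ⟨h3, h4, h6⟩⟩
      · clear h4 h6; omega
      · clear h4 h6; omega
      · omega
    · have : (K : ℤ) ∣ 1 := ⟨_, h5.symm⟩
      have := Int.le_of_dvd (by omega) this
      omega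

end Pool.Agent.SGraph33
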