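import Pool.Agent.SGraph33.Code

/-!
The complete graph on two vertices and the cycles of length 4 and 6 are S-graphs; a criterion for
isomorphism of cubic graphs.
-/

namespace Pool.Agent.SGraph33

open SimpleGraph

/-- walks from a table of distances -/
lemma walk_of_table {α : Type} {G : SimpleGraph α} {D : α → α → ℕ}
    (h0 : ∀ a b, D a b = 0 ↔ a = b)
    (h2 : ∀ a b, a ≠ b → ∃ c, G.Adj c b ∧ D a c + 1 = D a b) :
    ∀ (n : ℕ) (a b : α), D a b = n → ∃ p : G.Walk a b, p.length = n := by
  intro n
  induction n with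
  | zero =>
    intro a b h
    obtain rfl := (h0 a b).mp h
    exact ⟨Walk.nil, rfl⟩
  | succ n ih =>
    intro a b h
    have hab : a ≠ b := by
      intro hab
      rw [(h0 a b).mpr hab] at h
      omega
    obtain ⟨c, hc, hd⟩ := h2 a b hab
    obtain ⟨p, hp⟩ := ih a c (by omega)
    exact ⟨p.concat hc, by rw [Walk.length_concat, hp]⟩

lemma le_of_table {α : Type} {G : SimpleGraph α} {D : α → α → ℕ}
    (h0 : ∀ a b, D a b = 0 ↔ a = b)
    (h1 : ∀ a b c, G.Adj b c → D b a ≤ D c a + 1) {a b : α} (p : G.Walk a b) :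
    D a b ≤ p.length := by
  induction p with
  | nil => rw [(h0 _ _).mpr rfl]; omega
  | @cons u v w hadj p ih =>
    have := h1 w u v hadj
    rw [Walk.length_cons]
    omega

lemma dist_of_table {α : Type} {G : SimpleGraph α} {D : α → α → ℕ}
    (h0 : ∀ a b, D a b = 0 ↔ a = b)
    (h1 : ∀ a b c, G.Adj b c → D b a ≤ D c a + 1)
    (h2 : ∀ a b, a ≠ b → ∃ c, G.Adj c b ∧ D a c + 1 = D a b) (a b : α) :
    G.dist a b = D a b := by
  obtain ⟨p, hp⟩ := walk_of_table h0 h2 _ a b rfl
  apply le_antisymm
  · rw [← hp]; exact SimpleGraph.dist_le p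
  · obtain ⟨q, hq⟩ := (Walk.reachable p).exists_walk_length_eq_dist
    rw [← hq]
    exact le_of_table h0 h1 q

lemma isSGraph_of_table {α : Type} [Nonempty α] {G : SimpleGraph α} {D : α → α → ℕ}
    (h0 : ∀ a b, D a b = 0 ↔ a = b)
    (h1 : ∀ a b c, G.Adj b c → D b a ≤ D c a + 1)
    (h2 : ∀ a b, a ≠ b → ∃ c, G.Adj c b ∧ D a c + 1 = D a b)
    (c : α → Fin 2) (hc : ∀ a b, G.Adj a b → c a ≠ c b)
    (br : α → α) (hbr : ∀ v x, (∀ y, G.Adj x y → D v y ≤ D v x) ↔ x = br v) : IsSGraph G where
  connected := by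
    refine ⟨fun a b => ?_⟩
    obtain ⟨p, -⟩ := walk_of_table h0 h2 _ a b rfl
    exact p.reachable
  bipartite := ⟨Coloring.mk c (fun {a b} h => hc a b h)⟩
  ncard_farSet v := by
    have : farSet G v = {br v} := by
      ext x
      simp only [farSet, Set.mem_ofPred_eq, Set.mem_singleton_iff, dist_of_table h0 h1 h2]
      exact hbr v x
    rw [this]; simp

/-- the edge -/
def K2 : SimpleGraph (Fin 2) where
  Adj i j := i ≠ j
  symm := ⟨fun _ _ h => h.symm⟩
  loopless := ⟨fun _ h => h rfl⟩

/-- the cycle of length 4 -/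
def C4 : SimpleGraph (Fin 4) where
  Adj i j := j = i + 1 ∨ i = j + 1
  symm := ⟨fun _ _ h => h.symm⟩
  loopless := ⟨by decide⟩

/-- the cycle of length 6 -/
def C6 : SimpleGraph (Fin 6) where
  Adj i j := j = i + 1 ∨ i = j + 1
  symm := ⟨fun _ _ h => h.symm⟩
  loopless := ⟨by decide⟩

instance : DecidableRel K2.Adj := fun i j => inferInstanceAs (Decidable (i ≠ j))
instance : DecidableRel C4.Adj := fun i j => inferInstanceAs (Decidable (j = i + 1 ∨ i = j + 1))
instance : DecidableRel C6.Adj := fun i j => inferInstanceAs (Decidable (j = i + 1 ∨ i = j + 1))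

lemma isSGraph_K2 : IsSGraph K2 :=
  isSGraph_of_table (D := fun i j => if i = j then 0 else 1) (by decide) (by decide) (by decide)
    id (by decide) (fun i => i + 1) (by decide)

lemma isSGraph_C4 : IsSGraph C4 :=
  isSGraph_of_table (D := fun i j => min (i - j).val (j - i).val) (by decide) (by decide)
    (by decide) (fun i => if i.val % 2 = 0 then 0 else 1) (by decide) (fun i => i + 2) (by decide)

lemma isSGraph_C6 : IsSGraph C6 :=
  isSGraph_of_table (D := fun i j => min (i - j).val (j - i).val) (by decide +kernel)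
    (by decide +kernel)
    (by decide +kernel) (fun i => if i.val % 2 = 0 then 0 else 1) (by decide +kernel)
    (fun i => i + 3) (by decide +kernel)

lemma ncard_box4 : ∀ i, ((K2 □ C4).neighborSet i).ncard = 3 := by
  intro i
  rw [Set.ncard_eq_toFinset_card']
  revert i
  decide +kernel

lemma ncard_box6 : ∀ i, ((K2 □ C6).neighborSet i).ncard = 3 := by
  intro i
  rw [Set.ncard_eq_toFinset_card']
  revert i
  decide +kernel

/-- an injective homomorphism from a cubic graph to a connected cubic graph is an isomorphism -/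
lemma iso_of_hom {I V : Type} [Nonempty I] {H : SimpleGraph I} {G : SimpleGraph V} [Finite V]
    (hH : ∀ i, (H.neighborSet i).ncard = 3) (hG : IsCubic G) (hconn : G.Connected) (f : I → V)
    (hf : Function.Injective f) (hadj : ∀ i j, H.Adj i j → G.Adj (f i) (f j)) :
    Nonempty (G ≃g H) := by
  have himg : ∀ i, f '' (H.neighborSet i) = G.neighborSet (f i) := by
    intro i
    apply Set.eq_of_subset_of_ncard_le
    · rintro _ ⟨j, hj, rfl⟩
      exact hadj i j hj
    · rw [Set.ncard_image_of_injective _ hf, hH, hG]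
    · exact Set.toFinite _
  have hclosed : ∀ {a b : V} (p : G.Walk a b), a ∈ Set.range f → b ∈ Set.range f := by
    intro a b p
    induction p with
    | nil => exact id
    | cons h _ ih =>
      rintro ⟨i, rfl⟩
      apply ih
      have h1 : _ ∈ G.neighborSet (f i) := h
      rw [← himg] at h1
      obtain ⟨j, -, hj⟩ := h1
      exact ⟨j, hj⟩
  have hsurj : Function.Surjective f := by
    intro b
    obtain ⟨i⟩ := (inferInstance : Nonempty I)
    obtain ⟨p⟩ := hconn.preconnected (f i) b
    exact hclosed p ⟨i, rfl⟩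
  refine ⟨RelIso.symm ⟨Equiv.ofBijective f ⟨hf, hsurj⟩, ?_⟩⟩
  intro i j
  constructor
  · intro h
    have h1 : f j ∈ G.neighborSet (f i) := h
    rw [← himg] at h1
    obtain ⟨k, hk, hkj⟩ := h1
    rw [← hf hkj]; exact hk
  · intro h
    exact hadj i j h

end Pool.Agent.SGraph33
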