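import Pool.Agent.SGraph33.Anti
import Pool.Agent.SGraph33.Cycles

/-!
A primitive cubic S-graph has diameter at least 5.
-/

namespace Pool.Agent.SGraph33

open SimpleGraph

variable {V : Type} [Finite V] {G : SimpleGraph V}

/-- the map given by two rows -/
def rows {n : ℕ} (r0 r1 : Fin n → V) (p : Fin 2 × Fin n) : V := if p.1 = 0 then r0 p.2 else r1 p.2

omit [Finite V] in
lemma rows_adj {n : ℕ} [NeZero n] {C : SimpleGraph (Fin n)}
    (hC : ∀ i j, C.Adj i j → j = i + 1 ∨ i = j + 1) {r0 r1 : Fin n → V}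
    (h0 : ∀ i, G.Adj (r0 i) (r0 (i + 1))) (h1 : ∀ i, G.Adj (r1 i) (r1 (i + 1)))
    (h2 : ∀ i, G.Adj (r0 i) (r1 i)) (p q : Fin 2 × Fin n) (h : (K2 □ C).Adj p q) :
    G.Adj (rows r0 r1 p) (rows r0 r1 q) := by
  obtain ⟨a, i⟩ := p
  obtain ⟨b, j⟩ := q
  rw [boxProd_adj] at h
  simp only at h
  rcases h with ⟨hab, rfl⟩ | ⟨hij, rfl⟩
  · have hab' : a ≠ b := hab
    by_cases ha : a = 0
    · have hb : b ≠ 0 := fun hb => hab' (ha.trans hb.symm)
      simp only [rows, ha, hb, if_true, if_false]
      exact h2 i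
    · have hb : b = 0 := by omega
      simp only [rows, ha, hb, if_true, if_false]
      exact (h2 i).symm
  · rcases hC i j hij with rfl | rfl
    · by_cases ha : a = 0
      · simp only [rows, ha, if_true]; exact h0 i
      · simp only [rows, ha, if_false]; exact h1 i
    · by_cases ha : a = 0
      · simp only [rows, ha, if_true]; exact (h0 j).symm
      · simp only [rows, ha, if_false]; exact (h1 j).symm

omit [Finite V] in
lemma inj_of_lev {I : Type} {f : I → V} {v : V} (L : I → ℕ) (hL : ∀ i, G.dist v (f i) = L i)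
    (hs : ∀ i j, i ≠ j → L i = L j → f i ≠ f j) : Function.Injective f := by
  intro i j h
  by_contra hne
  have h1 := hL i
  rw [h, hL j] at h1
  exact hs i j hne h1.symm h

/-- description of the neighbours of a vertex -/
def Nb (G : SimpleGraph V) (v x y z : V) : Prop :=
  x ≠ y ∧ x ≠ z ∧ y ≠ z ∧ ∀ w, G.Adj v w ↔ w = x ∨ w = y ∨ w = z

omit [Finite V] in
lemma exists_nb (hG : IsCubic G) (v : V) : ∃ x y z, Nb G v x y z := by
  obtain ⟨x, y, z, h1, h2, h3, h⟩ := Set.ncard_eq_three.mp (hG v)
  refine ⟨x, y, z, h1, h2, h3, fun w => ?_⟩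
  have : w ∈ G.neighborSet v ↔ w ∈ ({x, y, z} : Set V) := by rw [h]
  simpa using this

omit [Finite V] in
lemma Nb.swap {v x y z : V} (h : Nb G v x y z) : Nb G v y x z := by
  obtain ⟨h1, h2, h3, h4⟩ := h
  exact ⟨h1.symm, h3, h2, fun w => by rw [h4]; tauto⟩

omit [Finite V] in
lemma Nb.rot {v x y z : V} (h : Nb G v x y z) : Nb G v y z x := by
  obtain ⟨h1, h2, h3, h4⟩ := h
  exact ⟨h3, h1.symm, h2.symm, fun w => by rw [h4]; tauto⟩

/-- all neighbours of `v` belong to a three element set, hence all its elements are neighbours -/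
lemma nb_of_subset (hG : IsCubic G) {v x y z : V} (h : ∀ w, G.Adj v w → w = x ∨ w = y ∨ w = z) :
    G.Adj v x ∧ G.Adj v y ∧ G.Adj v z := by
  have hsub : G.neighborSet v ⊆ {x, y, z} := by
    intro w hw
    simpa using h w hw
  have hle : ({x, y, z} : Set V).ncard ≤ 3 := by
    refine (Set.ncard_insert_le _ _).trans ?_
    have := Set.ncard_insert_le y ({z} : Set V)
    rw [Set.ncard_singleton] at this
    omega
  have heq : G.neighborSet v = {x, y, z} := by
    apply Set.eq_of_subset_of_ncard_le hsub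
    · rw [hG v]; exact hle
  have hm : ∀ w, w ∈ ({x, y, z} : Set V) → G.Adj v w := by
    intro w hw
    rw [← heq] at hw
    exact hw
  exact ⟨hm x (by simp), hm y (by simp), hm z (by simp)⟩

lemma dist_bar (h : IsSGraph G) {v x : V} {k : ℕ} (hx : G.dist v x = k) :
    G.dist v (bar h x) + k = G.diam := by
  have := dist_add' h x v
  rw [dist_comm (u := x) (v := v), hx] at this
  omega

lemma adj_of_dist_bar (h : IsSGraph G) {v w : V} (hw : G.dist v w + 1 = G.diam) :
    G.Adj v (bar h w) := by
  have h1 := dist_bar h (v := v) (x := w) rfl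
  exact dist_eq_one_iff_adj.mp (by omega)

lemma not_adj_both (h : IsSGraph G) (hd : 3 ≤ G.diam) {x w : V} (h1 : G.Adj w x)
    (h2 : G.Adj w (bar h x)) : False := by
  have h3 := h.connected.dist_triangle (u := x) (v := w) (w := bar h x)
  rw [dist_eq_one_iff_adj.mpr h1.symm, dist_eq_one_iff_adj.mpr h2, ecc_diam] at h3
  omega

lemma diam_ne_two (h : IsSGraph G) (hd : G.diam = 2) {v x y z : V} (hN : Nb G v x y z) :
    False := by
  obtain ⟨hxy, hxz, hyz, hv⟩ := hN
  have key : ∀ w, G.Adj v w → (bar h w = x ∨ bar h w = y ∨ bar h w = z) ∧ bar h w ≠ w := by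
    intro w hw
    refine ⟨(hv _).mp (adj_of_dist_bar h ?_), ?_⟩
    · rw [dist_eq_one_iff_adj.mpr hw, hd]
    · intro he
      have := ecc_diam h w
      rw [he, dist_self, hd] at this
      omega
  have ax : G.Adj v x := (hv x).mpr (Or.inl rfl)
  have ay : G.Adj v y := (hv y).mpr (Or.inr (Or.inl rfl))
  have az : G.Adj v z := (hv z).mpr (Or.inr (Or.inr rfl))
  obtain ⟨kx, nx⟩ := key x ax
  obtain ⟨ky, ny⟩ := key y ay
  obtain ⟨kz, nz⟩ := key z az
  have bx := bar_bar h x
  have bY := bar_bar h y
  have bz := bar_bar h z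
  rcases kx with kx | kx | kx
  · exact nx kx
  · rcases kz with kz | kz | kz
    · rw [kz, kx] at bz; exact hyz bz
    · exact hxz (bar_inj h (kz.trans kx.symm)).symm
    · exact nz kz
  · rcases ky with ky | ky | ky
    · rw [ky, kx] at bY; exact hyz bY.symm
    · exact ny ky
    · exact hxy (bar_inj h (ky.trans kx.symm)).symm

/-! Diameter 3. -/

lemma adj3 (h : IsSGraph G) (hG : IsCubic G) (hd : G.diam = 3) {v x y z : V} (hN : Nb G v x y z) :
    G.Adj x (bar h y) ∧ G.Adj x (bar h z) := by
  obtain ⟨hxy, hxz, hyz, hv⟩ := hN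
  have ax : G.Adj v x := (hv x).mpr (Or.inl rfl)
  have lx : G.dist v x = 1 := dist_eq_one_iff_adj.mpr ax
  have := nb_of_subset hG (v := x) (x := v) (y := bar h y) (z := bar h z) (by
    intro w hw
    rcases adj_level h hw v with h1 | h1
    · have h2 : G.Adj v (bar h w) := adj_of_dist_bar h (by omega)
      rcases (hv _).mp h2 with h3 | h3 | h3
      · exfalso
        have h4 : w = bar h x := by rw [← h3, bar_bar]
        rw [h4] at hw
        have h5 := dist_eq_one_iff_adj.mpr hw
        rw [ecc_diam, hd] at h5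
        omega
      · right; left; rw [← h3, bar_bar]
      · right; right; rw [← h3, bar_bar]
    · left
      have h2 : G.dist v w = 0 := by omega
      exact ((h.connected.dist_eq_zero_iff).mp h2).symm)
  exact ⟨this.2.1, this.2.2⟩

lemma iso3 (h : IsSGraph G) (hG : IsCubic G) (hd : G.diam = 3) : Nonempty (G ≃g (K2 □ C4)) := by
  obtain ⟨v⟩ := h.connected.nonempty
  obtain ⟨x, y, z, hN⟩ := exists_nb hG v
  obtain ⟨hxy, hxz, hyz, hv⟩ := id hN
  have ax : G.Adj v x := (hv x).mpr (Or.inl rfl)
  have ay : G.Adj v y := (hv y).mpr (Or.inr (Or.inl rfl))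
  have az : G.Adj v z := (hv z).mpr (Or.inr (Or.inr rfl))
  obtain ⟨xy, xz⟩ := adj3 h hG hd hN
  obtain ⟨yz, yx⟩ := adj3 h hG hd hN.rot
  obtain ⟨zx, zy⟩ := adj3 h hG hd hN.rot.rot
  have bx := bar_adj h ax
  have bY := bar_adj h ay
  have bz := bar_adj h az
  have lx : G.dist v x = 1 := dist_eq_one_iff_adj.mpr ax
  have ly : G.dist v y = 1 := dist_eq_one_iff_adj.mpr ay
  have lz : G.dist v z = 1 := dist_eq_one_iff_adj.mpr az
  have lbx : G.dist v (bar h x) = 2 := by have := dist_bar h lx; omega
  have lby : G.dist v (bar h y) = 2 := by have := dist_bar h ly; omega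
  have lbz : G.dist v (bar h z) = 2 := by have := dist_bar h lz; omega
  have lbv : G.dist v (bar h v) = 3 := by rw [ecc_diam, hd]
  have bxy : bar h x ≠ bar h y := fun he => hxy (bar_inj h he)
  have bxz : bar h x ≠ bar h z := fun he => hxz (bar_inj h he)
  have byz : bar h y ≠ bar h z := fun he => hyz (bar_inj h he)
  have hxy' := hxy.symm
  have hxz' := hxz.symm
  have hyz' := hyz.symm
  have bxy' := bxy.symm
  have bxz' := bxz.symm
  have byz' := byz.symm
  apply iso_of_hom ncard_box4 hG h.connected (rows ![v, x, bar h y, z] ![y, bar h z, bar h v, bar h x])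
  · apply inj_of_lev (G := G) (v := v)
      (fun p : Fin 2 × Fin 4 => ![![0, 1, 2, 1], ![1, 2, 3, 2]] p.1 p.2)
    · rintro ⟨a, i⟩
      fin_cases a <;> fin_cases i
      exacts [dist_self, lx, lby, lz, ly, lbz, lbv, lbx]
    · rintro ⟨a, i⟩ ⟨b, j⟩
      fin_cases a <;> fin_cases i <;> fin_cases b <;> fin_cases j <;> intro hne hL <;>
        first
        | exact absurd rfl hne
        | exact absurd hL (by decide)
        | assumption
  · apply rows_adj (C := C4) (fun i j hij => hij)
    · intro i
      fin_cases i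
      exacts [ax, xy, zy.symm, az.symm]
    · intro i
      fin_cases i
      exacts [yz, bz.symm, bx, yx.symm]
    · intro i
      fin_cases i
      exacts [ay, xz, bY.symm, zx]

end Pool.Agent.SGraph33

namespace Pool.Agent.SGraph33

open SimpleGraph

variable {V : Type} [Finite V] {G : SimpleGraph V}

/-! Diameter 4. -/

lemma twin (h : IsSGraph G) (hG : IsCubic G) (hd : G.diam = 4) {a b : V}
    (hab : ∀ w, G.Adj b w → G.Adj a w) : b = a := by
  have key : ∀ w, G.Adj b w → G.dist (bar h a) w = 3 := by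
    intro w hw
    have h1 := dist_add' h a w
    rw [dist_eq_one_iff_adj.mpr (hab w hw), dist_comm (u := w) (v := bar h a)] at h1
    omega
  obtain ⟨x, y, z, hxy, hxz, hyz, hb⟩ := exists_nb hG b
  have bx : G.Adj b x := (hb x).mpr (Or.inl rfl)
  have kx := key x bx
  rcases adj_level h bx (bar h a) with h1 | h1
  · exfalso
    have hne : b ≠ bar h a := by
      intro he
      rw [he, dist_self] at h1
      omega
    obtain ⟨w, hw, hw2⟩ := exists_down h hne
    have := key w hw
    omega
  · have h2 : G.dist (bar h a) b = G.diam := by omega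
    have h3 := eq_bar_of_dist h h2
    rwa [bar_bar] at h3

lemma iso4_of (h : IsSGraph G) (hG : IsCubic G) (hd : G.diam = 4) {v x y z p q : V}
    (hN : Nb G v x y z) (px : G.Adj p x) (py : G.Adj p y) (pz : G.Adj p (bar h z))
    (lp : G.dist v p = 2) (qz : G.Adj q z) (qy : G.Adj q y) (qx : G.Adj q (bar h x))
    (lq : G.dist v q = 2) : Nonempty (G ≃g (K2 □ C6)) := by
  obtain ⟨hxy, hxz, hyz, hv⟩ := id hN
  have ax : G.Adj v x := (hv x).mpr (Or.inl rfl)
  have ay : G.Adj v y := (hv y).mpr (Or.inr (Or.inl rfl))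
  have az : G.Adj v z := (hv z).mpr (Or.inr (Or.inr rfl))
  have bx := bar_adj h ax
  have bY := bar_adj h ay
  have bz := bar_adj h az
  have bpx := bar_adj h px
  have bpy := bar_adj h py
  have bpz := bar_adj h pz
  have bqx := bar_adj h qx
  have bqy := bar_adj h qy
  have bqz := bar_adj h qz
  rw [bar_bar] at bpz bqx
  have lx : G.dist v x = 1 := dist_eq_one_iff_adj.mpr ax
  have ly : G.dist v y = 1 := dist_eq_one_iff_adj.mpr ay
  have lz : G.dist v z = 1 := dist_eq_one_iff_adj.mpr az
  have lbx : G.dist v (bar h x) = 3 := by have := dist_bar h lx; omega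
  have lby : G.dist v (bar h y) = 3 := by have := dist_bar h ly; omega
  have lbz : G.dist v (bar h z) = 3 := by have := dist_bar h lz; omega
  have lbp : G.dist v (bar h p) = 2 := by have := dist_bar h lp; omega
  have lbq : G.dist v (bar h q) = 2 := by have := dist_bar h lq; omega
  have lbv : G.dist v (bar h v) = 4 := by rw [ecc_diam, hd]
  have bxy : bar h x ≠ bar h y := fun he => hxy (bar_inj h he)
  have bxz : bar h x ≠ bar h z := fun he => hxz (bar_inj h he)
  have byz : bar h y ≠ bar h z := fun he => hyz (bar_inj h he)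
  have npq : p ≠ q := by
    intro he
    rw [← he] at qx
    exact not_adj_both h (by omega) px qx
  have npbq : p ≠ bar h q := by
    intro he
    rw [← he] at bqy
    exact not_adj_both h (by omega) py bqy
  have nqbp : q ≠ bar h p := by
    intro he
    apply npbq
    rw [he, bar_bar]
  have npbp : p ≠ bar h p := by
    intro he
    have := ecc_diam h p
    rw [← he, dist_self] at this
    omega
  have nqbq : q ≠ bar h q := by
    intro he
    have := ecc_diam h q
    rw [← he, dist_self] at this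
    omega
  have nbpbq : bar h p ≠ bar h q := fun he => npq (bar_inj h he)
  have hxy' := hxy.symm
  have hxz' := hxz.symm
  have hyz' := hyz.symm
  have bxy' := bxy.symm
  have bxz' := bxz.symm
  have byz' := byz.symm
  have npq' := npq.symm
  have npbq' := npbq.symm
  have nqbp' := nqbp.symm
  have npbp' := npbp.symm
  have nqbq' := nqbq.symm
  have nbpbq' := nbpbq.symm
  apply iso_of_hom ncard_box6 hG h.connected
    (rows ![v, x, bar h q, bar h y, bar h p, z] ![y, p, bar h z, bar h v, bar h x, q])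
  · apply inj_of_lev (G := G) (v := v)
      (fun p : Fin 2 × Fin 6 => ![![0, 1, 2, 3, 2, 1], ![1, 2, 3, 4, 3, 2]] p.1 p.2)
    · rintro ⟨a, i⟩
      fin_cases a <;> fin_cases i
      exacts [dist_self, lx, lbq, lby, lbp, lz, ly, lp, lbz, lbv, lbx, lq]
    · rintro ⟨a, i⟩ ⟨b, j⟩
      fin_cases a <;> fin_cases i <;> fin_cases b <;> fin_cases j <;> intro hne hL <;>
        first
        | exact absurd rfl hne
        | exact absurd hL (by decide)
        | assumption
  · apply rows_adj (C := C6) (fun i j hij => hij)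
    · intro i
      fin_cases i
      exacts [ax, bqx.symm, bqy, bpy.symm, bpz, az.symm]
    · intro i
      fin_cases i
      exacts [py.symm, pz, bz.symm, bx, qx.symm, qy]
    · intro i
      fin_cases i
      exacts [ay, px.symm, bqz, bY.symm, bpx, qz.symm]

omit [Finite V] in
/-- the third neighbour -/
lemma exists_third (hG : IsCubic G) {v a b : V} (ha : G.Adj v a) (hb : G.Adj v b) (hab : a ≠ b) :
    ∃ c, Nb G v a b c := by
  obtain ⟨x, y, z, hxy, hxz, hyz, hv⟩ := exists_nb hG v
  have hN : Nb G v x y z := ⟨hxy, hxz, hyz, hv⟩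
  rcases (hv a).mp ha with rfl | rfl | rfl <;> rcases (hv b).mp hb with rfl | rfl | rfl
  · exact absurd rfl hab
  · exact ⟨z, hN⟩
  · exact ⟨y, hN.rot.rot.swap⟩
  · exact ⟨z, hN.swap⟩
  · exact absurd rfl hab
  · exact ⟨x, hN.rot⟩
  · exact ⟨y, hN.rot.rot⟩
  · exact ⟨x, hN.rot.swap⟩
  · exact absurd rfl hab

lemma exists_p (h : IsSGraph G) (hG : IsCubic G) (hd : G.diam = 4) (v : V) :
    ∃ p a b, G.dist v p = 2 ∧ a ≠ b ∧ G.Adj v a ∧ G.Adj v b ∧ G.Adj p a ∧ G.Adj p b := by
  obtain ⟨x, y, z, hxy, hxz, hyz, hv⟩ := exists_nb hG v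
  have ax : G.Adj v x := (hv x).mpr (Or.inl rfl)
  have lx : G.dist v x = 1 := dist_eq_one_iff_adj.mpr ax
  have lbv : G.dist v (bar h v) = 4 := by rw [ecc_diam, hd]
  have hx : x ≠ bar h v := by
    intro he
    rw [he] at lx
    omega
  obtain ⟨w, hxw, hw⟩ := exists_up h hx
  rw [lx] at hw
  obtain ⟨a, b, c, hab, hac, hbc, hN⟩ := exists_nb hG w
  have wa : G.Adj w a := (hN a).mpr (Or.inl rfl)
  have wb : G.Adj w b := (hN b).mpr (Or.inr (Or.inl rfl))
  have wc : G.Adj w c := (hN c).mpr (Or.inr (Or.inr rfl))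
  have key : ∀ s t : V, s ≠ t → G.Adj w s → G.Adj w t →
      (G.dist v s = 1 ∧ G.dist v t = 1) ∨ (G.dist v s = 3 ∧ G.dist v t = 3) →
      ∃ p a b, G.dist v p = 2 ∧ a ≠ b ∧ G.Adj v a ∧ G.Adj v b ∧ G.Adj p a ∧ G.Adj p b := by
    rintro s t hst hs ht (⟨h1, h2⟩ | ⟨h1, h2⟩)
    · exact ⟨w, s, t, hw, hst, dist_eq_one_iff_adj.mp h1, dist_eq_one_iff_adj.mp h2, hs, ht⟩
    · have e1 := dist_bar h h1
      have e2 := dist_bar h h2
      have e3 := dist_bar h hw
      exact ⟨bar h w, bar h s, bar h t, by omega, fun he => hst (bar_inj h he),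
        dist_eq_one_iff_adj.mp (by omega), dist_eq_one_iff_adj.mp (by omega),
        bar_adj h hs, bar_adj h ht⟩
  have la := adj_level h wa v
  have lb := adj_level h wb v
  have lc := adj_level h wc v
  by_cases h1 : (G.dist v a = 1 ∧ G.dist v b = 1) ∨ (G.dist v a = 3 ∧ G.dist v b = 3)
  · exact key a b hab wa wb h1
  · by_cases h2 : (G.dist v a = 1 ∧ G.dist v c = 1) ∨ (G.dist v a = 3 ∧ G.dist v c = 3)
    · exact key a c hac wa wc h2
    · exact key b c hbc wb wc (by omega)

lemma iso4 (h : IsSGraph G) (hG : IsCubic G) (hd : G.diam = 4) : Nonempty (G ≃g (K2 □ C6)) := by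
  obtain ⟨v⟩ := h.connected.nonempty
  obtain ⟨p, x, y, lp, hxy, ax, ay, px, py⟩ := exists_p h hG hd v
  obtain ⟨z, hN⟩ := exists_third hG ax ay hxy
  obtain ⟨-, hxz, hyz, hv⟩ := id hN
  have az : G.Adj v z := (hv z).mpr (Or.inr (Or.inr rfl))
  have lbv : G.dist v (bar h v) = 4 := by rw [ecc_diam, hd]
  have lev1 : ∀ w, G.dist v w = 1 → w = x ∨ w = y ∨ w = z := fun w hw =>
    (hv w).mp (dist_eq_one_iff_adj.mp hw)
  have lev3 : ∀ w, G.dist v w = 3 → w = bar h x ∨ w = bar h y ∨ w = bar h z := by
    intro w hw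
    have e1 := dist_bar h hw
    rcases lev1 (bar h w) (by omega) with e | e | e
    · left; rw [← e, bar_bar]
    · right; left; rw [← e, bar_bar]
    · right; right; rw [← e, bar_bar]
  -- a vertex at level 2 has a neighbour at level 3
  have up2 : ∀ w, G.dist v w = 2 → ∃ t, G.Adj w t ∧ G.dist v t = 3 := by
    intro w hw
    have hne : w ≠ bar h v := by
      intro he
      rw [he] at hw; omega
    obtain ⟨t, ht, ht2⟩ := exists_up h hne
    exact ⟨t, ht, by omega⟩
  have pz : G.Adj p (bar h z) := by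
    obtain ⟨t, ht, ht2⟩ := up2 p lp
    rcases lev3 t ht2 with rfl | rfl | rfl
    · exact absurd (not_adj_both h (by omega) px ht) id
    · exact absurd (not_adj_both h (by omega) py ht) id
    · exact ht
  have lbp : G.dist v (bar h p) = 2 := by have := dist_bar h lp; omega
  have bpz : G.Adj (bar h p) z := by have := bar_adj h pz; rwa [bar_bar] at this
  have bpx := bar_adj h px
  have bpy := bar_adj h py
  have hvp : v ≠ bar h p := by
    intro he
    rw [← he, dist_self] at lbp
    omega
  obtain ⟨q, hz1, hz2, hz3, hz⟩ := exists_third hG az.symm bpz.symm hvp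
  have zq : G.Adj z q := (hz q).mpr (Or.inr (Or.inr rfl))
  have lz : G.dist v z = 1 := dist_eq_one_iff_adj.mpr az
  have lq : G.dist v q = 2 := by
    rcases adj_level h zq v with h1 | h1
    · omega
    · have h2 : G.dist v q = 0 := by omega
      exact absurd ((h.connected.dist_eq_zero_iff).mp h2) hz2
  have lbx : G.dist v (bar h x) = 3 := by
    have := dist_bar h (dist_eq_one_iff_adj.mpr ax); omega
  have lby : G.dist v (bar h y) = 3 := by
    have := dist_bar h (dist_eq_one_iff_adj.mpr ay); omega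
  -- neighbours of `q`
  obtain ⟨t, qt, ht⟩ := up2 q lq
  have htz : z ≠ t := by
    intro he
    rw [← he] at ht; omega
  obtain ⟨s, -, hzs, hts, hq⟩ := exists_third hG zq.symm qt htz
  have qs : G.Adj q s := (hq s).mpr (Or.inr (Or.inr rfl))
  rcases lev3 t ht with rfl | rfl | rfl
  · -- `t = bar x`
    rcases adj_level h qs v with h1 | h1
    · -- `s` at level 3
      rcases lev3 s (by omega) with rfl | rfl | rfl
      · exact absurd rfl hts
      · exfalso
        have := twin h hG hd (a := bar h p) (b := q) (by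
          intro w hw
          rcases (hq w).mp hw with rfl | rfl | rfl
          · exact bpz
          · exact bpx
          · exact bpy)
        exact hz3 this.symm
      · exact absurd (not_adj_both h (by omega) zq.symm qs) id
    · rcases lev1 s (by omega) with rfl | rfl | rfl
      · exact absurd (not_adj_both h (by omega) qs qt) id
      · exact iso4_of h hG hd hN px py pz lp zq.symm qs qt lq
      · exact absurd rfl hzs
  · -- `t = bar y`
    rcases adj_level h qs v with h1 | h1
    · rcases lev3 s (by omega) with rfl | rfl | rfl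
      · exfalso
        have := twin h hG hd (a := bar h p) (b := q) (by
          intro w hw
          rcases (hq w).mp hw with rfl | rfl | rfl
          · exact bpz
          · exact bpy
          · exact bpx)
        exact hz3 this.symm
      · exact absurd rfl hts
      · exact absurd (not_adj_both h (by omega) zq.symm qs) id
    · rcases lev1 s (by omega) with rfl | rfl | rfl
      · exact iso4_of h hG hd hN.swap py px pz lp zq.symm qs qt lq
      · exact absurd (not_adj_both h (by omega) qs qt) id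
      · exact absurd rfl hzs
  · exact absurd (not_adj_both h (by omega) zq.symm qt) id

/-- a primitive cubic S-graph has diameter at least 5 -/
theorem five_le_diam (h : IsSGraph G) (hG : IsCubic G) (hP : IsPrimitive G) : 5 ≤ G.diam := by
  obtain ⟨v⟩ := h.connected.nonempty
  obtain ⟨x, y, z, hN⟩ := exists_nb hG v
  obtain ⟨hxy, hxz, hyz, hv⟩ := id hN
  have ax : G.Adj v x := (hv x).mpr (Or.inl rfl)
  have ay : G.Adj v y := (hv y).mpr (Or.inr (Or.inl rfl))
  have lx : G.dist v x = 1 := dist_eq_one_iff_adj.mpr ax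
  have ly : G.dist v y = 1 := dist_eq_one_iff_adj.mpr ay
  have hle := dist_le_D h v x
  by_contra hcon
  have h4 : G.diam = 1 ∨ G.diam = 2 ∨ G.diam = 3 ∨ G.diam = 4 := by omega
  rcases h4 with h4 | h4 | h4 | h4
  · have e1 := eq_bar_of_dist h (lx.trans h4.symm)
    have e2 := eq_bar_of_dist h (ly.trans h4.symm)
    exact hxy (e1.trans e2.symm)
  · exact diam_ne_two h h4 hN
  · obtain ⟨φ⟩ := iso3 h hG h4
    exact (hP (Fin 2) (Fin 4) K2 C4 isSGraph_K2 isSGraph_C4).false φ
  · obtain ⟨φ⟩ := iso4 h hG h4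
    exact (hP (Fin 2) (Fin 6) K2 C6 isSGraph_K2 isSGraph_C6).false φ

end Pool.Agent.SGraph33
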