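import Pool.Agent.SGraph33.Code

/-!
Basic theory of S-graphs: the antipode, geodesics, the antipodal automorphism.
-/

namespace Pool.Agent.SGraph33

open SimpleGraph

variable {V : Type} {G : SimpleGraph V}

/-- the antipode -/
noncomputable def bar (h : IsSGraph G) (v : V) : V :=
  (Set.ncard_eq_one.mp (h.ncard_farSet v)).choose

lemma farSet_eq (h : IsSGraph G) (v : V) : farSet G v = {bar h v} :=
  (Set.ncard_eq_one.mp (h.ncard_farSet v)).choose_spec

lemma dist_adj_le (hc : G.Connected) {x y : V} (hxy : G.Adj x y) (v : V) :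
    G.dist v y ≤ G.dist v x + 1 := by
  have := hc.dist_triangle (u := v) (v := x) (w := y)
  rwa [dist_eq_one_iff_adj.mpr hxy] at this

lemma exists_up (h : IsSGraph G) {v x : V} (hx : x ≠ bar h v) :
    ∃ y, G.Adj x y ∧ G.dist v y = G.dist v x + 1 := by
  have h1 : x ∉ farSet G v := by rw [farSet_eq h]; exact hx
  simp only [farSet, Set.mem_ofPred_eq, not_forall, not_le] at h1
  obtain ⟨y, hy, hlt⟩ := h1
  have := dist_adj_le h.connected hy v
  exact ⟨y, hy, by omega⟩

lemma dist_le_D [Finite V] (h : IsSGraph G) (v x : V) : G.dist v x ≤ G.diam := by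
  have : Nonempty V := ⟨v⟩
  exact SimpleGraph.dist_le_diam (SimpleGraph.connected_iff_ediam_ne_top.mp h.connected)

lemma dist_add [Finite V] (h : IsSGraph G) (v x : V) :
    G.dist v x + G.dist x (bar h v) = G.dist v (bar h v) := by
  have key : ∀ n : ℕ, ∀ x, G.diam ≤ G.dist v x + n →
      G.dist v x + G.dist x (bar h v) = G.dist v (bar h v) := by
    intro n
    induction n with
    | zero =>
      intro x hx
      by_cases hxb : x = bar h v
      · rw [hxb, dist_self]; omega
      · obtain ⟨y, -, hy⟩ := exists_up h hxb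
        have := dist_le_D h v y
        omega
    | succ n ih =>
      intro x hx
      by_cases hxb : x = bar h v
      · rw [hxb, dist_self]; omega
      · obtain ⟨y, hxy, hy⟩ := exists_up h hxb
        have h1 := ih y (by omega)
        have h2 := dist_adj_le h.connected hxy.symm (bar h v)
        rw [dist_comm (u := bar h v), dist_comm (u := bar h v)] at h2
        have h3 := h.connected.dist_triangle (u := v) (v := x) (w := bar h v)
        omega
  exact key G.diam x (by omega)

lemma bar_bar [Finite V] (h : IsSGraph G) (v : V) : bar h (bar h v) = v := by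
  have h1 := dist_add h v (bar h (bar h v))
  have h2 := dist_add h (bar h v) v
  rw [dist_comm (u := bar h v) (v := v), dist_comm (u := bar h (bar h v)) (v := bar h v)] at *
  have h3 : G.dist v (bar h (bar h v)) = 0 := by omega
  exact ((h.connected.dist_eq_zero_iff).mp h3).symm

lemma ecc_adj [Finite V] (h : IsSGraph G) {u v : V} (huv : G.Adj u v) :
    G.dist u (bar h u) = G.dist v (bar h v) ∧ G.dist (bar h u) (bar h v) = 1 := by
  have a1 := dist_add h u v
  have a2 := dist_add h v (bar h u)
  have a3 := dist_add h v u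
  have a4 := dist_add h u (bar h v)
  rw [dist_eq_one_iff_adj.mpr huv] at a1
  rw [dist_eq_one_iff_adj.mpr huv.symm] at a3
  rw [dist_comm (u := bar h v) (v := bar h u)] at a4
  omega

lemma ecc_eq [Finite V] (h : IsSGraph G) (u v : V) :
    G.dist u (bar h u) = G.dist v (bar h v) := by
  obtain ⟨p⟩ := h.connected.preconnected u v
  induction p with
  | nil => rfl
  | cons hadj _ ih => exact (ecc_adj h hadj).1.trans ih

lemma ecc_diam [Finite V] (h : IsSGraph G) (v : V) : G.dist v (bar h v) = G.diam := by
  have : Nonempty V := ⟨v⟩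
  obtain ⟨a, b, hab⟩ := G.exists_dist_eq_diam
  have h1 := dist_add h a b
  have h2 := dist_le_D h a (bar h a)
  have h3 := ecc_eq h v a
  omega

lemma dist_add' [Finite V] (h : IsSGraph G) (v x : V) :
    G.dist v x + G.dist x (bar h v) = G.diam := by
  rw [dist_add, ecc_diam]

lemma bar_adj [Finite V] (h : IsSGraph G) {u v : V} (huv : G.Adj u v) :
    G.Adj (bar h u) (bar h v) :=
  dist_eq_one_iff_adj.mp (ecc_adj h huv).2

lemma bar_inj [Finite V] (h : IsSGraph G) {u v : V} (huv : bar h u = bar h v) : u = v := by
  rw [← bar_bar h u, huv, bar_bar]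

/-- the only vertex at distance `diam` -/
lemma eq_bar_of_dist [Finite V] (h : IsSGraph G) {v x : V} (hx : G.dist v x = G.diam) :
    x = bar h v := by
  have := dist_add' h v x
  have h3 : G.dist x (bar h v) = 0 := by omega
  exact (h.connected.dist_eq_zero_iff).mp h3

lemma dist_ne_of_adj (h : IsSGraph G) {u w : V} (hadj : G.Adj u w) (v : V) :
    G.dist v u ≠ G.dist v w := by
  intro heq
  obtain ⟨c⟩ := h.bipartite
  let c' : G.Coloring Bool := recolorOfEquiv G finTwoEquiv c
  obtain ⟨p, hp⟩ := h.connected.exists_walk_length_eq_dist v u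
  obtain ⟨q, hq⟩ := h.connected.exists_walk_length_eq_dist v w
  have e1 := Coloring.even_length_iff_congr c' p
  have e2 := Coloring.even_length_iff_congr c' q
  rw [hp, heq] at e1
  rw [hq, e1] at e2
  have e3 := c'.valid hadj
  cases hv : c' v <;> cases hu : c' u <;> cases hw : c' w <;> simp [hv, hu, hw] at e2 e3

lemma adj_level (h : IsSGraph G) {u w : V} (hadj : G.Adj u w) (v : V) :
    G.dist v w = G.dist v u + 1 ∨ G.dist v u = G.dist v w + 1 := by
  have h1 := dist_adj_le h.connected hadj v
  have h2 := dist_adj_le h.connected hadj.symm v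
  have h3 := dist_ne_of_adj h hadj v
  omega

/-- a vertex other than the base has a neighbour one step closer -/
lemma exists_down [Finite V] (h : IsSGraph G) {v x : V} (hx : x ≠ v) :
    ∃ y, G.Adj x y ∧ G.dist v x = G.dist v y + 1 := by
  have hx' : x ≠ bar h (bar h v) := by rwa [bar_bar]
  obtain ⟨y, hxy, hy⟩ := exists_up h hx'
  refine ⟨y, hxy, ?_⟩
  have h1 := dist_add' h (bar h v) x
  have h2 := dist_add' h (bar h v) y
  rw [bar_bar] at h1 h2
  rw [dist_comm (u := v) (v := x), dist_comm (u := v) (v := y)]
  omega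

end Pool.Agent.SGraph33
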