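import Pool.Agent.SGraph33.Prim

namespace Pool.Agent.SGraph33

set_option linter.unusedSectionVars false

variable {K : ℕ} [NeZero K]

lemma K_pos : (0 : ℤ) < (K : ℤ) := by
  have := NeZero.pos K
  exact_mod_cast this

/-- The residue of an integer as an element of `Fin K`. -/
def cls (K : ℕ) [NeZero K] (w : ℤ) : Fin K :=
  ⟨(w % (K : ℤ)).toNat, by
    have h1 := Int.emod_lt_of_pos w (K_pos (K := K))
    have h2 := Int.emod_nonneg w (K_pos (K := K)).ne'
    omega⟩

lemma cls_val (w : ℤ) : ((cls K w : ℕ) : ℤ) = w % (K : ℤ) := by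
  have h2 := Int.emod_nonneg w (K_pos (K := K)).ne'
  simp [cls, Int.toNat_of_nonneg h2]

lemma eq_cls_iff (z : Fin K) (w : ℤ) : z = cls K w ↔ ∃ q : ℤ, w = (z : ℕ) + (K : ℤ) * q := by
  constructor
  · rintro rfl
    refine ⟨w / K, ?_⟩
    rw [cls_val]
    exact (Int.emod_add_mul_ediv w K).symm
  · rintro ⟨q, hq⟩
    apply Fin.ext
    have : ((z : ℕ) : ℤ) = ((cls K w : ℕ) : ℤ) := by
      rw [cls_val, hq, Int.add_mul_emod_self_left]
      refine (Int.emod_eq_of_lt (by positivity) ?_).symm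
      exact_mod_cast z.2
    exact_mod_cast this

/-- Sides of the pencil lines in sector `s`. -/
def pen (K : ℕ) (s : ℤ) : Fin K → Bool := fun z => decide (Even ((s - (z : ℕ)) / (K : ℤ)))

/-- The cyclic interval `[i, i+g)` of residues modulo `K`. -/
def arc (K : ℕ) (i g : ℤ) : Fin K → Bool := fun z => decide (((z : ℕ) - i) % (K : ℤ) < g)

lemma ediv_unique' {a q r : ℤ} (h : a = r + (K : ℤ) * q) (h0 : 0 ≤ r) (h1 : r < K) :
    a / (K : ℤ) = q ∧ a % (K : ℤ) = r :=
  (Int.ediv_emod_unique K_pos).mpr ⟨h.symm, h0, h1⟩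

lemma pen_add_two_mul (s t : ℤ) : pen K (s + 2 * K * t) = pen K s := by
  funext z
  have : s + 2 * (K : ℤ) * t - (z : ℕ) = (s - (z : ℕ)) + (K : ℤ) * (2 * t) := by ring
  simp only [pen]
  rw [this, Int.add_mul_ediv_left _ _ K_pos.ne']
  congr 1
  rw [Int.even_add]
  simp

lemma pen_add (s : ℤ) : pen K (s + K) = fun z => !(pen K s z) := by
  funext z
  have : s + (K : ℤ) - (z : ℕ) = (s - (z : ℕ)) + (K : ℤ) * 1 := by ring
  simp only [pen]
  rw [this, Int.add_mul_ediv_left _ _ K_pos.ne', ← decide_not]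
  congr 1
  rw [Int.even_add]
  simp

lemma pen_succ (s : ℤ) : pen K (s + 1) = flipAt (pen K s) (cls K (s + 1)) := by
  funext z
  by_cases hz : z = cls K (s + 1)
  · obtain ⟨q, hq⟩ := (eq_cls_iff z (s + 1)).mp hz
    rw [← hz, flipAt_same]
    simp only [pen]
    have h1 : (s + 1 - (z : ℕ)) / (K : ℤ) = q :=
      (ediv_unique' (r := 0) (by linarith) le_rfl K_pos).1
    have hK : (1 : ℤ) ≤ K := K_pos
    have h2 : (s - (z : ℕ)) / (K : ℤ) = q - 1 :=
      (ediv_unique' (r := K - 1) (by linarith [mul_sub (K : ℤ) q 1]) (by omega) (by omega)).1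
    rw [h1, h2, ← decide_not]
    congr 1
    rw [Int.even_sub_one, not_not]
  · rw [flipAt_ne _ hz]
    simp only [pen]
    set q := (s - (z : ℕ)) / (K : ℤ) with hq
    set r := (s - (z : ℕ)) % (K : ℤ) with hr
    have h0 := Int.emod_nonneg (s - (z : ℕ)) (K_pos (K := K)).ne'
    have h1 := Int.emod_lt_of_pos (s - (z : ℕ)) (K_pos (K := K))
    have h2 : (s - (z : ℕ)) = r + K * q := (Int.emod_add_mul_ediv _ _).symm
    have h3 : r + 1 ≠ K := by
      intro h3
      apply hz
      rw [eq_cls_iff]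
      exact ⟨q + 1, by linarith [mul_add (K : ℤ) q 1]⟩
    have h4 : (s + 1 - (z : ℕ)) / (K : ℤ) = q :=
      (ediv_unique' (r := r + 1) (by linarith) (by omega) (by omega)).1
    rw [h4]

/-- The side of the right wall `m_{s+1}` of sector `s`. -/
lemma pen_right (s s' : ℤ) :
    pen K s' (cls K (s + 1)) = pen K s (cls K (s + 1)) ↔ Odd ((s' - s - 1) / (K : ℤ)) := by
  obtain ⟨q, hq⟩ := (eq_cls_iff (cls K (s + 1)) (s + 1)).mp rfl
  simp only [pen]
  set z := ((cls K (s + 1) : ℕ) : ℤ)
  have e1 : s' - z = (s' - s - 1) + K * q := by linarith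
  have e2 : s - z = -1 + K * q := by linarith
  have hK : (1 : ℤ) ≤ K := K_pos
  have e3 : (-1 : ℤ) / K = -1 :=
    (ediv_unique' (r := K - 1) (by ring) (by omega) (by omega)).1
  rw [e1, e2, Int.add_mul_ediv_left _ _ K_pos.ne', Int.add_mul_ediv_left _ _ K_pos.ne', e3,
    decide_eq_decide, Int.even_add, Int.even_add, ← Int.not_even_iff_odd]
  have : ¬ Even (-1 : ℤ) := by decide
  tauto

/-- The side of the left wall `m_s` of sector `s`. -/
lemma pen_left (s s' : ℤ) :
    pen K s' (cls K s) = pen K s (cls K s) ↔ Even ((s' - s) / (K : ℤ)) := by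
  obtain ⟨q, hq⟩ := (eq_cls_iff (cls K s) s).mp rfl
  simp only [pen]
  set z := ((cls K s : ℕ) : ℤ)
  have e1 : s' - z = (s' - s) + K * q := by linarith
  have e2 : s - z = 0 + K * q := by linarith
  rw [e1, e2, Int.add_mul_ediv_left _ _ K_pos.ne', Int.add_mul_ediv_left _ _ K_pos.ne',
    Int.zero_ediv, decide_eq_decide, Int.even_add, Int.even_add]
  have : Even (0 : ℤ) := by decide
  tauto

lemma odd_div_iff {y : ℤ} (h1 : -2 * (K : ℤ) ≤ y) (h2 : y < 2 * K) :
    Odd (y / (K : ℤ)) ↔ (-(K : ℤ) ≤ y ∧ y < 0) ∨ (K : ℤ) ≤ y := by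
  have hK : (1 : ℤ) ≤ K := K_pos
  rcases lt_or_ge y (-(K : ℤ)) with h | h
  · have : y / (K : ℤ) = -2 :=
      (ediv_unique' (r := y + 2 * K) (by ring) (by omega) (by omega)).1
    rw [this]
    constructor
    · intro h'; exact absurd h' (by decide)
    · intro h'; omega
  rcases lt_or_ge y 0 with h3 | h3
  · have : y / (K : ℤ) = -1 :=
      (ediv_unique' (r := y + K) (by ring) (by omega) (by omega)).1
    rw [this]
    constructor
    · intro _; left; omega
    · intro _; decide
  rcases lt_or_ge y K with h4 | h4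
  · have : y / (K : ℤ) = 0 := (ediv_unique' (r := y) (by ring) (by omega) (by omega)).1
    rw [this]
    constructor
    · intro h'; exact absurd h' (by decide)
    · intro h'; omega
  · have : y / (K : ℤ) = 1 := (ediv_unique' (r := y - K) (by ring) (by omega) (by omega)).1
    rw [this]
    constructor
    · intro _; right; omega
    · intro _; decide

/-- both walls of a sector determine it. -/
lemma two_walls {y : ℤ} (h1 : Even (y / (K : ℤ))) (h2 : Odd ((y - 1) / (K : ℤ))) :
    ∃ t : ℤ, y = 2 * K * t := by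
  set q := y / (K : ℤ) with hq
  set r := y % (K : ℤ) with hr
  have h0 := Int.emod_nonneg y (K_pos (K := K)).ne'
  have h3 := Int.emod_lt_of_pos y (K_pos (K := K))
  have h4 : y = r + K * q := (Int.emod_add_mul_ediv _ _).symm
  obtain ⟨t, ht⟩ := h1
  by_cases hr0 : r = 0
  · exact ⟨t, by rw [h4, hr0, ht]; ring⟩
  · exfalso
    have h5 : (y - 1) / (K : ℤ) = q :=
      (ediv_unique' (r := r - 1) (by linarith) (by omega) (by omega)).1
    rw [h5] at h2
    exact (Int.not_even_iff_odd.mpr h2) ⟨t, ht⟩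

lemma div_shift {s d : ℤ} :
    (0 ≤ s % (K : ℤ) + d → s % (K : ℤ) + d < K →
      (s + d) / (K : ℤ) = s / K ∧ (s + d) % (K : ℤ) = s % K + d) ∧
    (K ≤ s % (K : ℤ) + d → s % (K : ℤ) + d < 2 * K →
      (s + d) / (K : ℤ) = s / K + 1 ∧ (s + d) % (K : ℤ) = s % K + d - K) ∧
    (-(K : ℤ) ≤ s % (K : ℤ) + d → s % (K : ℤ) + d < 0 →
      (s + d) / (K : ℤ) = s / K - 1 ∧ (s + d) % (K : ℤ) = s % K + d + K) := by
  have h4 : s = s % K + K * (s / K) := (Int.emod_add_mul_ediv _ _).symm
  refine ⟨fun h1 h2 => ?_, fun h1 h2 => ?_, fun h1 h2 => ?_⟩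
  · exact ediv_unique' (by linarith) (by omega) (by omega)
  · exact ediv_unique' (by linarith [mul_add (K : ℤ) (s / K) 1]) (by omega) (by omega)
  · exact ediv_unique' (by linarith [mul_sub (K : ℤ) (s / K) 1]) (by omega) (by omega)

lemma div_shift_two (s t : ℤ) :
    (s + 2 * K * t) / (K : ℤ) = s / K + 2 * t ∧ (s + 2 * K * t) % (K : ℤ) = s % K := by
  have h4 : s = s % K + K * (s / K) := (Int.emod_add_mul_ediv _ _).symm
  have h0 := Int.emod_nonneg s (K_pos (K := K)).ne'
  have h3 := Int.emod_lt_of_pos s (K_pos (K := K))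
  refine ediv_unique' ?_ h0 h3
  have : (K : ℤ) * (s / K + 2 * t) = K * (s / K) + 2 * K * t := by ring
  rw [this]; linarith

lemma arc_add_mul (i g t : ℤ) : arc K (i + K * t) g = arc K i g := by
  funext z
  simp only [arc]
  have : ((z : ℕ) : ℤ) - (i + K * t) = ((z : ℕ) - i) + K * (-t) := by ring
  rw [this, Int.add_mul_emod_self_left]

lemma arc_zero (i i' : ℤ) : arc K i 0 = arc K i' 0 := by
  funext z
  simp only [arc]
  have h1 := Int.emod_nonneg ((z : ℕ) - i) (K_pos (K := K)).ne'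
  have h2 := Int.emod_nonneg ((z : ℕ) - i') (K_pos (K := K)).ne'
  rw [decide_eq_decide]
  omega

lemma arc_compl {i g : ℤ} (h0 : 0 ≤ g) (h1 : g ≤ K) :
    arc K (i + g) (K - g) = fun z => !(arc K i g z) := by
  funext z
  simp only [arc]
  rw [← decide_not, decide_eq_decide]
  set r := (((z : ℕ) : ℤ) - i) % K with hr
  set q := (((z : ℕ) : ℤ) - i) / K with hq
  have h2 := Int.emod_nonneg ((z : ℕ) - i) (K_pos (K := K)).ne'
  have h3 := Int.emod_lt_of_pos ((z : ℕ) - i) (K_pos (K := K))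
  have h4 : ((z : ℕ) : ℤ) - i = r + K * q := (Int.emod_add_mul_ediv _ _).symm
  rcases lt_or_ge r g with h | h
  · have : (((z : ℕ) : ℤ) - (i + g)) % K = r - g + K :=
      (ediv_unique' (q := q - 1) (by linarith [mul_sub (K : ℤ) q 1]) (by omega) (by omega)).2
    rw [this]; omega
  · have : (((z : ℕ) : ℤ) - (i + g)) % K = r - g :=
      (ediv_unique' (q := q) (by linarith) (by omega) (by omega)).2
    rw [this]; omega

/-- adding the wire `i + g` at the right end. -/
lemma arc_right {i g : ℤ} (h0 : 0 ≤ g) (h1 : g < K) :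
    arc K i (g + 1) = flipAt (arc K i g) (cls K (i + g)) := by
  funext z
  by_cases hz : z = cls K (i + g)
  · obtain ⟨q, hq⟩ := (eq_cls_iff z (i + g)).mp hz
    rw [← hz, flipAt_same]
    simp only [arc]
    have : (((z : ℕ) : ℤ) - i) % K = g :=
      (ediv_unique' (q := -q) (by linarith [mul_neg (K : ℤ) q]) (by omega) (by omega)).2
    rw [this]
    simp
  · rw [flipAt_ne _ hz]
    simp only [arc]
    set r := (((z : ℕ) : ℤ) - i) % K with hr
    set q := (((z : ℕ) : ℤ) - i) / K with hq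
    have h4 : ((z : ℕ) : ℤ) - i = r + K * q := (Int.emod_add_mul_ediv _ _).symm
    have h3 : r ≠ g := by
      intro h3
      apply hz
      rw [eq_cls_iff]
      exact ⟨-q, by linarith [mul_neg (K : ℤ) q]⟩
    rw [decide_eq_decide]
    omega

/-- adding the wire `i - 1` at the left end. -/
lemma arc_left {i g : ℤ} (h0 : 0 ≤ g) (h1 : g < K) :
    arc K (i - 1) (g + 1) = flipAt (arc K i g) (cls K (i - 1)) := by
  funext z
  have hK : (1 : ℤ) ≤ K := K_pos
  by_cases hz : z = cls K (i - 1)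
  · obtain ⟨q, hq⟩ := (eq_cls_iff z (i - 1)).mp hz
    rw [← hz, flipAt_same]
    simp only [arc]
    have e1 : (((z : ℕ) : ℤ) - i) % K = K - 1 :=
      (ediv_unique' (q := -q - 1) (by linarith [mul_sub (K : ℤ) (-q) 1, mul_neg (K : ℤ) q])
        (by omega) (by omega)).2
    have e2 : (((z : ℕ) : ℤ) - (i - 1)) % K = 0 :=
      (ediv_unique' (q := -q) (by linarith [mul_neg (K : ℤ) q]) (by omega) (by omega)).2
    rw [e1, e2, ← decide_not, decide_eq_decide]
    omega
  · rw [flipAt_ne _ hz]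
    simp only [arc]
    set r := (((z : ℕ) : ℤ) - i) % K with hr
    set q := (((z : ℕ) : ℤ) - i) / K with hq
    have h2 := Int.emod_nonneg ((z : ℕ) - i) (K_pos (K := K)).ne'
    have h5 := Int.emod_lt_of_pos ((z : ℕ) - i) (K_pos (K := K))
    have h4 : ((z : ℕ) : ℤ) - i = r + K * q := (Int.emod_add_mul_ediv _ _).symm
    have h3 : r + 1 ≠ K := by
      intro h3
      apply hz
      rw [eq_cls_iff]
      exact ⟨-q - 1, by linarith [mul_sub (K : ℤ) (-q) 1, mul_neg (K : ℤ) q]⟩
    have e2 : (((z : ℕ) : ℤ) - (i - 1)) % K = r + 1 :=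
      (ediv_unique' (q := q) (by linarith) (by omega) (by omega)).2
    rw [e2, decide_eq_decide]
    omega

lemma arc_cls {i g : ℤ} (h1 : g ≤ K) (w : ℤ) :
    arc K i g (cls K w) = true ↔ ∃ q : ℤ, i ≤ w + K * q ∧ w + K * q < i + g := by
  obtain ⟨p, hp⟩ := (eq_cls_iff (cls K w) w).mp rfl
  simp only [arc, decide_eq_true_eq]
  set z := ((cls K w : ℕ) : ℤ)
  constructor
  · intro h
    have h2 := Int.emod_nonneg (z - i) (K_pos (K := K)).ne'
    have h4 : z - i = (z - i) % K + K * ((z - i) / K) := (Int.emod_add_mul_ediv _ _).symm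
    refine ⟨-p - (z - i) / K, ?_, ?_⟩
    · have : (K : ℤ) * (-p - (z - i) / K) = -(K * p) - K * ((z - i) / K) := by ring
      rw [this]; linarith
    · have : (K : ℤ) * (-p - (z - i) / K) = -(K * p) - K * ((z - i) / K) := by ring
      rw [this]; linarith
  · rintro ⟨q, hq1, hq2⟩
    have : (z - i) % K = w + K * q - i :=
      (ediv_unique' (q := -p - q) (by
        have : (K : ℤ) * (-p - q) = -(K * p) - K * q := by ring
        rw [this]; linarith) (by omega) (by omega)).2
    rw [this]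
    linarith

lemma arc_cls_false {i g : ℤ} (h1 : g ≤ K) (w : ℤ) (h : arc K i g (cls K w) = false) (q : ℤ) :
    ¬ (i ≤ w + K * q ∧ w + K * q < i + g) := by
  intro hq
  have := (arc_cls h1 w).mpr ⟨q, hq⟩
  rw [h] at this
  exact absurd this (by decide)

end Pool.Agent.SGraph33

namespace Pool.Agent.SGraph33

variable {K : ℕ} [NeZero K]

lemma cls_ne {a b : ℤ} (h : a < b) (h' : b < a + K) : cls K a ≠ cls K b := by
  intro he
  have h1 := cls_val (K := K) a
  have h2 := cls_val (K := K) b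
  rw [he] at h1
  have h3 : a % (K : ℤ) = b % K := h1.symm.trans h2
  have ha : a = a % K + K * (a / K) := (Int.emod_add_mul_ediv _ _).symm
  have hb : b = b % K + K * (b / K) := (Int.emod_add_mul_ediv _ _).symm
  have h4 : b - a = K * (b / K - a / K) := by
    have : (K : ℤ) * (b / K - a / K) = K * (b / K) - K * (a / K) := by ring
    rw [this]; linarith
  have h5 : 0 < b / (K : ℤ) - a / K := by
    by_contra hc
    have : (K : ℤ) * (b / K - a / K) ≤ 0 :=
      mul_nonpos_of_nonneg_of_nonpos (by positivity) (by omega)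
    omega
  have h6 : (K : ℤ) * 1 ≤ K * (b / K - a / K) := by
    apply mul_le_mul_of_nonneg_left _ (by positivity)
    omega
  omega

lemma cls_add_mul (w t : ℤ) : cls K (w + K * t) = cls K w := by
  apply Fin.ext
  have : ((cls K (w + K * t) : ℕ) : ℤ) = ((cls K w : ℕ) : ℤ) := by
    rw [cls_val, cls_val, Int.add_mul_emod_self_left]
  exact_mod_cast this

/-- shifting an arc containing `a` so that it contains `a` as an integer. -/
lemma arc_rep_mem {i g : ℤ} (h1 : g ≤ K) {a : ℤ} (ha : arc K i g (cls K a) = true) :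
    ∃ t : ℤ, i + K * t ≤ a ∧ a < i + K * t + g := by
  obtain ⟨q, hq1, hq2⟩ := (arc_cls h1 a).mp ha
  refine ⟨-q, ?_, ?_⟩ <;> rw [mul_neg] <;> linarith

/-- shifting an arc not containing `b` so that it lies in `(b, b + K)`. -/
lemma arc_rep_not_mem {i g : ℤ} (h0 : 0 ≤ g) (h1 : g ≤ K) {b : ℤ}
    (hb : arc K i g (cls K b) = false) :
    ∃ t : ℤ, b < i + K * t ∧ i + K * t + g ≤ b + K := by
  -- choose t with b < i + K t ≤ b + K
  have h2 := Int.emod_nonneg (b - i) (K_pos (K := K)).ne'
  have h3 := Int.emod_lt_of_pos (b - i) (K_pos (K := K))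
  have h4 : b - i = (b - i) % K + K * ((b - i) / K) := (Int.emod_add_mul_ediv _ _).symm
  set r := (b - i) % (K : ℤ) with hr
  set q := (b - i) / (K : ℤ) with hq
  have h5 := arc_cls_false h1 b hb (-q)
  rw [mul_neg] at h5
  refine ⟨q + 1, ?_, ?_⟩
  · rw [mul_add]; linarith
  · rw [mul_add]
    by_contra hc
    apply h5
    constructor
    · linarith
    · linarith

end Pool.Agent.SGraph33

namespace Pool.Agent.SGraph33

variable {K : ℕ} [NeZero K]

lemma pen_inj {s s' : ℤ} (h : pen K s' = pen K s) : ∃ t : ℤ, s' = s + 2 * K * t := by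
  have h1 := (pen_left s s').mp (congrFun h _)
  have h2 := (pen_right s s').mp (congrFun h _)
  obtain ⟨t, ht⟩ := two_walls h1 h2
  exact ⟨t, by linarith⟩

lemma neg_one_div (hK : 1 ≤ K) : (-1 : ℤ) / (K : ℤ) = -1 :=
  (ediv_unique' (r := K - 1) (by ring) (by omega) (by omega)).1

lemma pen_flip2_ne (hK : 3 ≤ K) (s s' : ℤ) :
    pen K s' ≠ flipAt (flipAt (pen K s) (cls K s)) (cls K (s + 1)) := by
  intro h
  have h01 : cls K s ≠ cls K (s + 1) := cls_ne (by omega) (by omega)
  have h02 : cls K s ≠ cls K (s + 2) := cls_ne (by omega) (by omega)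
  have h12 : cls K (s + 1) ≠ cls K (s + 2) := cls_ne (by omega) (by omega)
  have e0 := congrFun h (cls K s)
  rw [flipAt_ne _ h01, flipAt_same] at e0
  have e1 := congrFun h (cls K (s + 1))
  rw [flipAt_same, flipAt_ne _ h01.symm] at e1
  have e2 := congrFun h (cls K (s + 2))
  rw [flipAt_ne _ h12.symm, flipAt_ne _ h02.symm] at e2
  have f0 : ¬ Even ((s' - s) / (K : ℤ)) := by
    rw [← pen_left, e0]; simp
  have f1 : ¬ Odd ((s' - s - 1) / (K : ℤ)) := by
    rw [← pen_right, e1]; simp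
  have g2 : pen K s (cls K (s + 2)) = pen K (s + 1) (cls K (s + 2)) := by
    have : pen K s (cls K (s + 1 + 1)) = pen K (s + 1) (cls K (s + 1 + 1)) := by
      rw [pen_right, odd_div_iff (by omega) (by omega)]
      left; constructor <;> omega
    rwa [show s + 1 + 1 = s + 2 by ring] at this
  have f2 : Odd ((s' - (s + 1) - 1) / (K : ℤ)) := by
    rw [← pen_right, show s + 1 + 1 = s + 2 by ring, e2, g2]
  rw [Int.not_even_iff_odd] at f0
  rw [Int.not_odd_iff_even] at f1
  -- s' - s is a multiple of K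
  set y := s' - s with hy
  set q := y / (K : ℤ) with hq
  set r := y % (K : ℤ) with hr
  have h0 := Int.emod_nonneg y (K_pos (K := K)).ne'
  have h3 := Int.emod_lt_of_pos y (K_pos (K := K))
  have h4 : y = r + K * q := (Int.emod_add_mul_ediv _ _).symm
  by_cases hr0 : r = 0
  · have h5 : (s' - (s + 1) - 1) / (K : ℤ) = q - 1 :=
      (ediv_unique' (r := K - 2) (by rw [mul_sub]; linarith) (by omega) (by omega)).1
    rw [h5] at f2
    have : Even (q - 1) := by
      rw [Int.even_sub_one, Int.not_even_iff_odd]; exact f0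
    exact (Int.not_even_iff_odd.mpr f2) this
  · have h5 : (y - 1) / (K : ℤ) = q :=
      (ediv_unique' (r := r - 1) (by linarith) (by omega) (by omega)).1
    rw [h5] at f1
    exact (Int.not_even_iff_odd.mpr f0) f1

lemma arc_cls_singleton (hK : 2 ≤ K) {i w : ℤ} (h : arc K i 1 (cls K w) = true)
    (h1 : i - K < w) (h2 : w < i + K) : w = i := by
  obtain ⟨q, hq1, hq2⟩ := (arc_cls (by omega) w).mp h
  rcases lt_trichotomy q 0 with hq | hq | hq
  · have : (K : ℤ) * q ≤ K * (-1) := mul_le_mul_of_nonneg_left (by omega) (by positivity)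
    omega
  · subst hq; omega
  · have : (K : ℤ) * 1 ≤ K * q := mul_le_mul_of_nonneg_left (by omega) (by positivity)
    omega

lemma arc_eq_singleton (hK : 2 ≤ K) {i i' g' : ℤ} (h1 : g' ≤ K)
    (h : arc K i' g' = arc K i 1) : ∃ t : ℤ, i' + K * t = i ∧ g' = 1 := by
  have ha : arc K i' g' (cls K i) = true := by
    rw [h]; exact (arc_cls (by omega) _).mpr ⟨0, by omega, by omega⟩
  have hb : arc K i' g' (cls K (i + 1)) = false := by
    rw [h]
    by_contra hc
    rw [Bool.not_eq_false] at hc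
    have := arc_cls_singleton hK hc (by omega) (by omega)
    omega
  have hc : arc K i' g' (cls K (i - 1)) = false := by
    rw [h]
    by_contra hc
    rw [Bool.not_eq_false] at hc
    have := arc_cls_singleton hK hc (by omega) (by omega)
    omega
  obtain ⟨t, ht1, ht2⟩ := arc_rep_mem h1 ha
  have hb0 := arc_cls_false h1 _ hb (-t)
  have hc0 := arc_cls_false h1 _ hc (-t)
  rw [mul_neg] at hb0 hc0
  refine ⟨t, ?_, ?_⟩ <;> omega

end Pool.Agent.SGraph33
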