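import Mathlib

/-!
Cubic antipodal codes in the hypercube give cubic S-graphs.
-/

namespace Pool.Agent.SGraph33

open SimpleGraph

/-- The set `M(v)` of vertices at which the distance from `v` has a local maximum. -/
def farSet {V : Type*} (G : SimpleGraph V) (v : V) : Set V :=
  {x | ∀ y, G.Adj x y → G.dist v y ≤ G.dist v x}

/-- S-graphs: connected, bipartite, and `M(v)` is a single vertex for every vertex `v`. -/
structure IsSGraph {V : Type*} (G : SimpleGraph V) : Prop where
  connected : G.Connected
  bipartite : G.IsBipartite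
  ncard_farSet : ∀ v, (farSet G v).ncard = 1

/-- Cubic graphs: every vertex has exactly three neighbours. -/
def IsCubic {V : Type*} (G : SimpleGraph V) : Prop :=
  ∀ v, (G.neighborSet v).ncard = 3

/-- A finite graph is primitive if it is not isomorphic to the Cartesian product of two
S-graphs with at least two vertices each. -/
def IsPrimitive {V : Type} (G : SimpleGraph V) : Prop :=
  ∀ (A B : Type) [Finite A] [Finite B] [Nontrivial A] [Nontrivial B]
    (F : SimpleGraph A) (H : SimpleGraph B), IsSGraph F → IsSGraph H → IsEmpty (G ≃g (F □ H))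

/-- The set of diameters of primitive cubic S-graphs. -/
def diameterSet : Set ℕ :=
  {d | ∃ (V : Type) (_ : Finite V) (G : SimpleGraph V),
    IsSGraph G ∧ IsCubic G ∧ IsPrimitive G ∧ G.diam = d}

section code

set_option linter.unusedSectionVars false

variable {ι : Type} [Fintype ι] [DecidableEq ι]

/-- Flip one coordinate. -/
def flipAt (x : ι → Bool) (i : ι) : ι → Bool := Function.update x i (!x i)

@[simp] lemma flipAt_same (x : ι → Bool) (i : ι) : flipAt x i i = !x i := by
  simp [flipAt]

lemma flipAt_ne (x : ι → Bool) {i j : ι} (h : j ≠ i) : flipAt x i j = x j := by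
  simp [flipAt, h]

lemma flipAt_flipAt (x : ι → Bool) (i : ι) : flipAt (flipAt x i) i = x := by
  funext j
  by_cases h : j = i
  · subst h; simp
  · simp [flipAt_ne _ h]

lemma flipAt_comm (x : ι → Bool) (i j : ι) : flipAt (flipAt x i) j = flipAt (flipAt x j) i := by
  funext k
  by_cases h1 : k = i <;> by_cases h2 : k = j
  · subst h1; subst h2; rfl
  · subst h1; simp [flipAt_ne _ h2]
  · subst h2; simp [flipAt_ne _ h1]
  · simp [flipAt_ne _ h1, flipAt_ne _ h2]

lemma flipAt_injective (x : ι → Bool) : Function.Injective (flipAt x) := by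
  intro i j h
  by_contra hne
  have := congrFun h i
  rw [flipAt_same, flipAt_ne _ hne] at this
  cases h' : x i <;> simp [h'] at this

lemma hammingDist_flipAt_self (x : ι → Bool) (i : ι) : hammingDist x (flipAt x i) = 1 := by
  unfold hammingDist
  rw [Finset.card_eq_one]
  refine ⟨i, ?_⟩
  ext j
  simp only [Finset.mem_filter, Finset.mem_univ, true_and, Finset.mem_singleton]
  constructor
  · intro h
    by_contra hne
    exact h (flipAt_ne _ hne).symm
  · rintro rfl
    simp

lemma hammingDist_flipAt {x u : ι → Bool} {i : ι} (h : x i ≠ u i) :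
    hammingDist (flipAt x i) u + 1 = hammingDist x u := by
  unfold hammingDist
  have : (Finset.univ.filter fun j => x j ≠ u j) =
      insert i (Finset.univ.filter fun j => flipAt x i j ≠ u j) := by
    ext j
    simp only [Finset.mem_filter, Finset.mem_univ, true_and, Finset.mem_insert]
    by_cases hj : j = i
    · subst hj; simp [h]
    · simp [flipAt_ne _ hj, hj]
  rw [this, Finset.card_insert_of_notMem]
  simp only [Finset.mem_filter, Finset.mem_univ, true_and, not_not, flipAt_same]
  cases h1 : x i <;> cases h2 : u i <;> simp [h1, h2] at h ⊢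

/-- A cubic antipodal code: closed under complement, every word has three flippable
coordinates, and these determine the word within the code. -/
structure CubicCode (V : Set (ι → Bool)) : Prop where
  nonempty : V.Nonempty
  compl : ∀ x ∈ V, (fun i => !x i) ∈ V
  walls : ∀ x ∈ V, ∃ i j k, i ≠ j ∧ i ≠ k ∧ j ≠ k ∧
    flipAt x i ∈ V ∧ flipAt x j ∈ V ∧ flipAt x k ∈ V ∧
    ∀ u ∈ V, u i = x i → u j = x j → u k = x k → u = x

/-- The graph of a code: two words are adjacent if they differ in exactly one coordinate. -/
def codeGraph (V : Set (ι → Bool)) : SimpleGraph V where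
  Adj x y := ∃ i, y.1 = flipAt x.1 i
  symm := ⟨by
    rintro x y ⟨i, h⟩
    exact ⟨i, by rw [h, flipAt_flipAt]⟩⟩
  loopless := ⟨by
    rintro x ⟨i, h⟩
    have := congrFun h i
    simp at this⟩

variable {V : Set (ι → Bool)}

lemma CubicCode.step (hV : CubicCode V) {x u : ι → Bool} (hx : x ∈ V) (hu : u ∈ V)
    (hne : x ≠ u) : ∃ i, x i ≠ u i ∧ flipAt x i ∈ V := by
  obtain ⟨i, j, k, -, -, -, hi, hj, hk, huniq⟩ := hV.walls x hx
  by_contra hcon
  push Not at hcon
  apply hne
  symm
  apply huniq u hu
  · by_contra h
    exact hcon i (fun h' => h h'.symm) hi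
  · by_contra h
    exact hcon j (fun h' => h h'.symm) hj
  · by_contra h
    exact hcon k (fun h' => h h'.symm) hk

lemma hammingDist_le_length {x u : V} (p : (codeGraph V).Walk x u) :
    hammingDist x.1 u.1 ≤ p.length := by
  induction p with
  | nil => simp
  | @cons a b c h p ih =>
    have h' := h
    obtain ⟨i, hi⟩ := h'
    calc hammingDist a.1 c.1 ≤ hammingDist a.1 b.1 + hammingDist b.1 c.1 :=
          hammingDist_triangle _ _ _
      _ ≤ 1 + p.length := by
          gcongr
          rw [hi, hammingDist_flipAt_self]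
      _ = _ := by rw [Walk.length_cons, add_comm]

lemma CubicCode.exists_walk (hV : CubicCode V) : ∀ (n : ℕ) (x u : V),
    hammingDist x.1 u.1 = n → ∃ p : (codeGraph V).Walk x u, p.length = n := by
  intro n
  induction n with
  | zero =>
    intro x u h
    have : x = u := Subtype.ext (hammingDist_eq_zero.mp h)
    subst this
    exact ⟨Walk.nil, rfl⟩
  | succ n ih =>
    intro x u h
    have hne : x.1 ≠ u.1 := by
      intro h'
      rw [h', hammingDist_self] at h
      omega
    obtain ⟨i, hi, hmem⟩ := hV.step x.2 u.2 hne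
    have h1 := hammingDist_flipAt hi
    obtain ⟨p, hp⟩ := ih ⟨flipAt x.1 i, hmem⟩ u (by simp only; omega)
    have hadj : (codeGraph V).Adj x ⟨flipAt x.1 i, hmem⟩ := ⟨i, rfl⟩
    exact ⟨Walk.cons hadj p, by simp [hp]⟩

lemma CubicCode.dist_eq (hV : CubicCode V) (x u : V) :
    (codeGraph V).dist x u = hammingDist x.1 u.1 := by
  obtain ⟨p, hp⟩ := hV.exists_walk _ x u rfl
  apply le_antisymm
  · rw [← hp]; exact SimpleGraph.dist_le p
  · obtain ⟨q, hq⟩ := (Walk.reachable p).exists_walk_length_eq_dist
    rw [← hq]
    exact hammingDist_le_length q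

lemma CubicCode.connected (hV : CubicCode V) : (codeGraph V).Connected := by
  have : Nonempty V := hV.nonempty.to_subtype
  refine ⟨fun x u => ?_⟩
  obtain ⟨p, -⟩ := hV.exists_walk _ x u rfl
  exact p.reachable

/-- The antipode of a word. -/
def CubicCode.anti (hV : CubicCode V) (x : V) : V := ⟨fun i => !x.1 i, hV.compl x.1 x.2⟩

lemma hammingDist_compl (x u : ι → Bool) :
    hammingDist x u + hammingDist u (fun i => !x i) = Fintype.card ι := by
  unfold hammingDist
  rw [← Finset.card_univ, ← Finset.card_filter_add_card_filter_not (s := Finset.univ)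
    (p := fun i => x i ≠ u i)]
  congr 2
  ext i
  simp only [Finset.mem_filter, Finset.mem_univ, true_and]
  cases x i <;> cases u i <;> simp

lemma CubicCode.farSet_eq (hV : CubicCode V) (v : V) :
    farSet (codeGraph V) v = {hV.anti v} := by
  ext x
  simp only [farSet, Set.mem_ofPred_eq, Set.mem_singleton_iff]
  have key : ∀ y : V, (codeGraph V).dist v y + hammingDist y.1 (hV.anti v).1 = Fintype.card ι := by
    intro y
    rw [hV.dist_eq]
    exact hammingDist_compl v.1 y.1
  constructor
  · intro h
    by_contra hne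
    have hne' : x.1 ≠ (hV.anti v).1 := fun h' => hne (Subtype.ext h')
    obtain ⟨i, hi, hmem⟩ := hV.step x.2 (hV.anti v).2 hne'
    have h1 := hammingDist_flipAt hi
    have h2 := h ⟨flipAt x.1 i, hmem⟩ ⟨i, rfl⟩
    have h3 := key x
    have h4 := key ⟨flipAt x.1 i, hmem⟩
    simp only at h4
    omega
  · rintro rfl y hy
    have h3 := key (hV.anti v)
    have h4 := key y
    rw [hammingDist_self] at h3
    omega

lemma card_true_flipAt (x : ι → Bool) (i : ι) :
    Even (Finset.univ.filter fun j => flipAt x i j = true).card ↔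
      ¬ Even (Finset.univ.filter fun j => x j = true).card := by
  cases h : x i
  · have : (Finset.univ.filter fun j => flipAt x i j = true) =
        insert i (Finset.univ.filter fun j => x j = true) := by
      ext j
      simp only [Finset.mem_filter, Finset.mem_univ, true_and, Finset.mem_insert]
      by_cases hj : j = i
      · subst hj; simp [h]
      · simp [flipAt_ne _ hj, hj]
    rw [this, Finset.card_insert_of_notMem (by simp [h]), Nat.even_add_one]
  · have : (Finset.univ.filter fun j => x j = true) =
        insert i (Finset.univ.filter fun j => flipAt x i j = true) := by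
      ext j
      simp only [Finset.mem_filter, Finset.mem_univ, true_and, Finset.mem_insert]
      by_cases hj : j = i
      · subst hj; simp [h]
      · simp [flipAt_ne _ hj, hj]
    rw [this, Finset.card_insert_of_notMem (by simp [h]), Nat.even_add_one, not_not]

lemma codeGraph_bipartite (V : Set (ι → Bool)) : (codeGraph V).IsBipartite := by
  classical
  refine ⟨Coloring.mk (fun x : V =>
    if Even (Finset.univ.filter fun j => x.1 j = true).card then (0 : Fin 2) else 1) ?_⟩
  rintro x y ⟨i, hi⟩
  have h := card_true_flipAt x.1 i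
  rw [← hi] at h
  by_cases hx : Even (Finset.univ.filter fun j => x.1 j = true).card
  · have : ¬ Even (Finset.univ.filter fun j => y.1 j = true).card := fun h' => (h.mp h') hx
    simp [hx, this]
  · have : Even (Finset.univ.filter fun j => y.1 j = true).card := h.mpr hx
    simp [hx, this]

lemma CubicCode.isSGraph (hV : CubicCode V) : IsSGraph (codeGraph V) where
  connected := hV.connected
  bipartite := codeGraph_bipartite V
  ncard_farSet v := by rw [hV.farSet_eq]; simp

/-- the neighbours are exactly the three flips. -/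
lemma CubicCode.flip_mem_iff (hV : CubicCode V) {x : ι → Bool} {i j k : ι}
    (hi : flipAt x i ∈ V) (hj : flipAt x j ∈ V) (hk : flipAt x k ∈ V)
    (huniq : ∀ u ∈ V, u i = x i → u j = x j → u k = x k → u = x) (l : ι) :
    flipAt x l ∈ V ↔ l = i ∨ l = j ∨ l = k := by
  constructor
  · intro hl
    by_contra hcon
    push Not at hcon
    obtain ⟨h1, h2, h3⟩ := hcon
    have := huniq _ hl (flipAt_ne _ h1.symm) (flipAt_ne _ h2.symm) (flipAt_ne _ h3.symm)
    have := congrFun this l
    simp at this
  · rintro (rfl | rfl | rfl) <;> assumption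

lemma CubicCode.isCubic (hV : CubicCode V) : IsCubic (codeGraph V) := by
  rintro ⟨x, hx⟩
  obtain ⟨i, j, k, hij, hik, hjk, hi, hj, hk, huniq⟩ := hV.walls x hx
  have hset : (codeGraph V).neighborSet ⟨x, hx⟩ =
      ({⟨flipAt x i, hi⟩, ⟨flipAt x j, hj⟩, ⟨flipAt x k, hk⟩} : Set V) := by
    ext ⟨y, hy⟩
    simp only [mem_neighborSet, codeGraph, Set.mem_insert_iff, Set.mem_singleton_iff,
      Subtype.mk.injEq]
    constructor
    · rintro ⟨l, rfl⟩
      rcases (hV.flip_mem_iff hi hj hk huniq l).mp hy with rfl | rfl | rfl <;> simp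
    · rintro (rfl | rfl | rfl)
      exacts [⟨i, rfl⟩, ⟨j, rfl⟩, ⟨k, rfl⟩]
  rw [hset]
  have h1 : (⟨flipAt x i, hi⟩ : V) ≠ ⟨flipAt x j, hj⟩ := by
    intro h; exact hij (flipAt_injective x (Subtype.ext_iff.mp h))
  have h2 : (⟨flipAt x i, hi⟩ : V) ≠ ⟨flipAt x k, hk⟩ := by
    intro h; exact hik (flipAt_injective x (Subtype.ext_iff.mp h))
  have h3 : (⟨flipAt x j, hj⟩ : V) ≠ ⟨flipAt x k, hk⟩ := by
    intro h; exact hjk (flipAt_injective x (Subtype.ext_iff.mp h))
  rw [Set.ncard_eq_three]
  exact ⟨_, _, _, h1, h2, h3, rfl⟩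

lemma CubicCode.diam_eq (hV : CubicCode V) : (codeGraph V).diam = Fintype.card ι := by
  have : Nonempty V := hV.nonempty.to_subtype
  have hconn := hV.connected
  have htop : (codeGraph V).ediam ≠ ⊤ := by
    exact SimpleGraph.connected_iff_ediam_ne_top.mp hconn
  apply le_antisymm
  · obtain ⟨x, u, h⟩ := (codeGraph V).exists_dist_eq_diam
    rw [← h, hV.dist_eq]
    exact hammingDist_le_card_fintype
  · obtain ⟨x, hx⟩ := hV.nonempty
    have := SimpleGraph.dist_le_diam htop (u := (⟨x, hx⟩ : V)) (v := hV.anti ⟨x, hx⟩)
    have h2 := hammingDist_compl x (hV.anti ⟨x, hx⟩).1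
    rw [hV.dist_eq] at this
    have h3 : hammingDist (hV.anti ⟨x, hx⟩).1 (fun i => !x i) = 0 := by
      rw [hammingDist_eq_zero]; rfl
    simp only at this
    omega

end code

end Pool.Agent.SGraph33
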