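import Pool.Agent.SGraph33.Good

namespace Pool.Agent.SGraph33

set_option linter.unusedSectionVars false

variable {K : ℕ} {β : Type} [DecidableEq β] [Fintype β]

/-- sign vector with three parts -/
def sv3 (p a : Fin K → Bool) (f : β → Bool) : Fin K ⊕ Fin K ⊕ β → Bool :=
  Sum.elim p (Sum.elim a f)

lemma flip_pen (p a : Fin K → Bool) (f : β → Bool) (z : Fin K) :
    flipAt (sv3 p a f) (Sum.inl z) = sv3 (flipAt p z) a f := by
  funext c
  rcases c with c | c
  · by_cases h : c = z
    · subst h; simp [sv3]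
    · rw [flipAt_ne _ (by simpa using h)]
      simp [sv3, flipAt_ne _ h]
  · rw [flipAt_ne _ (by simp)]; rfl

lemma flip_arc (p a : Fin K → Bool) (f : β → Bool) (z : Fin K) :
    flipAt (sv3 p a f) (Sum.inr (Sum.inl z)) = sv3 p (flipAt a z) f := by
  funext c
  rcases c with c | c | c
  · rw [flipAt_ne _ (by simp)]; rfl
  · by_cases h : c = z
    · subst h; simp [sv3]
    · rw [flipAt_ne _ (by simpa using h)]
      simp [sv3, flipAt_ne _ h]
  · rw [flipAt_ne _ (by simp)]; rfl

lemma flip_spec (p a : Fin K → Bool) (f : β → Bool) (z : β) :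
    flipAt (sv3 p a f) (Sum.inr (Sum.inr z)) = sv3 p a (flipAt f z) := by
  funext c
  rcases c with c | c | c
  · rw [flipAt_ne _ (by simp)]; rfl
  · rw [flipAt_ne _ (by simp)]; rfl
  · by_cases h : c = z
    · subst h; simp [sv3]
    · rw [flipAt_ne _ (by simpa using h)]
      simp [sv3, flipAt_ne _ h]

@[simp] lemma sv3_inl (p a : Fin K → Bool) (f : β → Bool) (z : Fin K) :
    sv3 p a f (Sum.inl z) = p z := rfl
@[simp] lemma sv3_inr_inl (p a : Fin K → Bool) (f : β → Bool) (z : Fin K) :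
    sv3 p a f (Sum.inr (Sum.inl z)) = a z := rfl
@[simp] lemma sv3_inr_inr (p a : Fin K → Bool) (f : β → Bool) (z : β) :
    sv3 p a f (Sum.inr (Sum.inr z)) = f z := rfl

lemma cpl_sv3 (p a : Fin K → Bool) (f : β → Bool) :
    cpl (sv3 p a f) = sv3 (fun z => !p z) (fun z => !a z) (fun z => !f z) := by
  funext c
  rcases c with c | c | c <;> rfl

variable [NeZero K]

lemma flip_pen_right (s : ℤ) : flipAt (pen K s) (cls K (s + 1)) = pen K (s + 1) :=
  (pen_succ s).symm

lemma flip_pen_left (s : ℤ) : flipAt (pen K s) (cls K s) = pen K (s - 1) := by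
  have := pen_succ (K := K) (s - 1)
  rw [sub_add_cancel] at this
  rw [this, flipAt_flipAt]

/-- adding the wire `i + g`. -/
lemma arc_add_right {i g : ℤ} (h0 : 0 ≤ g) (h1 : g < K) :
    flipAt (arc K i g) (cls K (i + g)) = arc K i (g + 1) := (arc_right h0 h1).symm

/-- adding the wire `i - 1`. -/
lemma arc_add_left {i g : ℤ} (h0 : 0 ≤ g) (h1 : g < K) :
    flipAt (arc K i g) (cls K (i - 1)) = arc K (i - 1) (g + 1) := (arc_left h0 h1).symm

/-- removing the wire `i + g - 1`. -/
lemma arc_remove_right {i g : ℤ} (h0 : 1 ≤ g) (h1 : g ≤ K) :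
    flipAt (arc K i g) (cls K (i + g - 1)) = arc K i (g - 1) := by
  have := arc_right (K := K) (i := i) (g := g - 1) (by omega) (by omega)
  rw [sub_add_cancel, show i + (g - 1) = i + g - 1 by ring] at this
  rw [this, flipAt_flipAt]

/-- removing the wire `i`. -/
lemma arc_remove_left {i g : ℤ} (h0 : 1 ≤ g) (h1 : g ≤ K) :
    flipAt (arc K i g) (cls K i) = arc K (i + 1) (g - 1) := by
  have := arc_left (K := K) (i := i + 1) (g := g - 1) (by omega) (by omega)
  rw [sub_add_cancel, add_sub_cancel_right] at this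
  rw [this, flipAt_flipAt]

lemma arc_true {i g w : ℤ} (h1 : g ≤ K) (h2 : i ≤ w) (h3 : w < i + g) :
    arc K i g (cls K w) = true :=
  (arc_cls h1 _).mpr ⟨0, by omega, by omega⟩

lemma arc_false {i g w : ℤ} (h1 : g ≤ K) (h2 : w < i ∨ i + g ≤ w) (h3 : w < i + K)
    (h4 : i + g ≤ w + K) : arc K i g (cls K w) = false := by
  by_contra hc
  rw [Bool.not_eq_false, arc_cls h1] at hc
  obtain ⟨q, hq1, hq2⟩ := hc
  rcases lt_trichotomy q 0 with hq | hq | hq
  · have : (K : ℤ) * q ≤ K * (-1) := mul_le_mul_of_nonneg_left (by omega) (by positivity)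
    omega
  · subst hq; omega
  · have : (K : ℤ) * 1 ≤ K * q := mul_le_mul_of_nonneg_left (by omega) (by positivity)
    omega

lemma odd_shift (s' s t : ℤ) :
    Odd ((s' + 2 * K * t - s - 1) / (K : ℤ)) ↔ Odd ((s' - s - 1) / (K : ℤ)) := by
  have e : s' + 2 * K * t - s - 1 = (s' - s - 1) + K * (2 * t) := by ring
  rw [e, Int.add_mul_ediv_left _ _ K_pos.ne', Int.odd_add]
  simp

lemma even_shift (s' s t : ℤ) :
    Even ((s' + 2 * K * t - s) / (K : ℤ)) ↔ Even ((s' - s) / (K : ℤ)) := by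
  have e : s' + 2 * K * t - s = (s' - s) + K * (2 * t) := by ring
  rw [e, Int.add_mul_ediv_left _ _ K_pos.ne', Int.even_add]
  simp

end Pool.Agent.SGraph33
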