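import Pool.Agent.SGraph33.Spec

namespace Pool.Agent.SGraph33

set_option linter.unusedVariables false
set_option linter.unusedSectionVars false
set_option maxHeartbeats 1000000

variable {K m : ℕ} [NeZero K]

lemma mem3 {s i g l : ℤ} {e : Bool} (h : ok3 K m s i g l) (he : e = half K s ∨ l = 0) :
    sv3 (pen K s) (arc K i g) (spec e l) ∈ V3 K m := by
  refine ⟨s, i, g, l, h, ?_⟩
  rcases he with rfl | rfl
  · rfl
  · rw [sw3, spec_zero e]

lemma res_bounds (s : ℤ) : 0 ≤ s % (K : ℤ) ∧ s % (K : ℤ) < K :=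
  ⟨Int.emod_nonneg s (K_pos (K := K)).ne', Int.emod_lt_of_pos s (K_pos (K := K))⟩

lemma okZ (hKm : K = 2 * m) {s i g : ℤ} (h0 : 0 ≤ g)
    (hn : 2 * i = s + 1 + m - g ∨ 2 * i + 1 = s + 1 + m - g) (hg : g ≤ m - 1) :
    ok3 K m s i g 0 := by
  obtain ⟨h1, h2⟩ := res_bounds (K := K) s
  unfold ok3
  generalize s % (K : ℤ) = r at *
  refine ⟨h0, by omega, Or.inl ⟨hn, ?_⟩⟩
  rcases (show r = 0 ∨ r = K - 1 ∨ (1 ≤ r ∧ r ≤ K - 2) by omega) with h | h | h
  · exact Or.inl ⟨Or.inl h, by omega⟩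
  · exact Or.inl ⟨Or.inr h, by omega⟩
  · exact Or.inr ⟨h, by omega⟩

lemma V3_R (hKm : K = 2 * m) (hm : 2 ≤ m) {s i g : ℤ} (h0 : 1 ≤ g) (h : 2 * i = s + 1 + m - g)
    (hg : ((s % (K : ℤ) = 0 ∨ s % (K : ℤ) = K - 1) ∧ g ≤ m - 1) ∨
      ((1 ≤ s % (K : ℤ) ∧ s % (K : ℤ) ≤ K - 2) ∧ g ≤ m - 2)) :
    GoodAt (V3 K m) (sw3 K s i g 0) (Sum.inl (cls K (s + 1)))
      (Sum.inr (Sum.inl (cls K (i + g - 1)))) (Sum.inr (Sum.inl (cls K (i - 1)))) := by
  refine ⟨by simp, by simp, ?_, ?_, ?_, ?_, ?_⟩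
  · intro h'
    exact cls_ne (K := K) (a := i - 1) (b := i + g - 1) (by omega) (by omega)
      (Sum.inl_injective (Sum.inr_injective h')).symm
  · rw [sw3, flip_pen, flip_pen_right]
    exact mem3 (okZ hKm (by omega) (by omega) (by omega)) (Or.inr rfl)
  · rw [sw3, flip_arc, arc_remove_right (by omega) (by omega)]
    exact mem3 (okZ hKm (by omega) (by omega) (by omega)) (Or.inr rfl)
  · rw [sw3, flip_arc, arc_add_left (by omega) (by omega)]
    refine mem3 ?_ (Or.inr rfl)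
    unfold ok3
    generalize s % (K : ℤ) = r at *
    rcases hg with ⟨hg1, hg2⟩ | ⟨hg1, hg2⟩
    · exact ⟨by omega, by omega, Or.inl ⟨by omega, Or.inl ⟨hg1, by omega⟩⟩⟩
    · exact ⟨by omega, by omega, Or.inl ⟨by omega, Or.inr ⟨hg1, by omega⟩⟩⟩
  · rintro u ⟨s', i', g', l', hok, rfl⟩ hp ha hb
    simp only [sw3, sv3_inl, sv3_inr_inl] at hp ha hb
    rw [arc_true (i := i) (g := g) (by omega) (by omega) (by omega)] at ha
    rw [arc_false (i := i) (g := g) (by omega) (by omega) (by omega) (by omega)] at hb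
    obtain ⟨c1, c2, c3, c4⟩ := ok3_bounds hok
    obtain ⟨t, ht1, ht2⟩ := arc_rep_mem c2 ha
    have hb0 := arc_cls_false c2 _ hb (-t)
    have hb1 := arc_cls_false c2 _ hb (-t + 1)
    rw [mul_add, mul_neg] at hb1
    rw [mul_neg] at hb0
    rw [pen_right, ← odd_shift _ _ t] at hp
    rw [← sw3_shift s' i' g' l' t]
    have hok' := ok3_shift hok t
    generalize hi : i' + K * t = i'' at *
    generalize hs : s' + 2 * K * t = s'' at *
    have hr := res_bounds (K := K) s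
    have hr'' := res_bounds (K := K) s''
    have g1 : i ≤ i'' := by omega
    have g2 : i'' + g' ≤ i + K - 1 := by omega
    have g3 : i + g ≤ i'' + g' := by omega
    unfold ok3 at hok'
    have hfin : s'' = s ∧ i'' = i ∧ g' = g ∧ l' = 0 := by
      rcases hok' with ⟨h1, h2, ⟨h3, h4⟩ | ⟨h3, h4, h5⟩⟩
      · rw [odd_div_iff (by omega) (by omega)] at hp
        have e1 : s'' = s := by omega
        have e2 : i'' = i := by omega
        have e3 : g' = g := by omega
        subst e1 e2 e3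
        refine ⟨rfl, rfl, rfl, ?_⟩
        omega
      · rw [odd_div_iff (by omega) (by omega)] at hp
        exfalso
        have hs : s'' = s ∨ s'' = s - 1 := by omega
        rcases hs with rfl | rfl
        · omega
        · omega
    obtain ⟨e1, e2, e3, e4⟩ := hfin
    rw [e1, e2, e3, e4]

lemma V3_L (hKm : K = 2 * m) (hm : 2 ≤ m) {s i g : ℤ} (h0 : 1 ≤ g)
    (h : 2 * i + 1 = s + 1 + m - g)
    (hg : ((s % (K : ℤ) = 0 ∨ s % (K : ℤ) = K - 1) ∧ g ≤ m - 1) ∨
      ((1 ≤ s % (K : ℤ) ∧ s % (K : ℤ) ≤ K - 2) ∧ g ≤ m - 2)) :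
    GoodAt (V3 K m) (sw3 K s i g 0) (Sum.inl (cls K s))
      (Sum.inr (Sum.inl (cls K i))) (Sum.inr (Sum.inl (cls K (i + g)))) := by
  refine ⟨by simp, by simp, ?_, ?_, ?_, ?_, ?_⟩
  · intro h'
    exact cls_ne (K := K) (a := i) (b := i + g) (by omega) (by omega)
      (Sum.inl_injective (Sum.inr_injective h'))
  · rw [sw3, flip_pen, flip_pen_left]
    exact mem3 (okZ hKm (by omega) (by omega) (by omega)) (Or.inr rfl)
  · rw [sw3, flip_arc, arc_remove_left (by omega) (by omega)]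
    exact mem3 (okZ hKm (by omega) (by omega) (by omega)) (Or.inr rfl)
  · rw [sw3, flip_arc, arc_add_right (by omega) (by omega)]
    refine mem3 ?_ (Or.inr rfl)
    unfold ok3
    generalize s % (K : ℤ) = r at *
    rcases hg with ⟨hg1, hg2⟩ | ⟨hg1, hg2⟩
    · exact ⟨by omega, by omega, Or.inl ⟨by omega, Or.inl ⟨hg1, by omega⟩⟩⟩
    · exact ⟨by omega, by omega, Or.inl ⟨by omega, Or.inr ⟨hg1, by omega⟩⟩⟩
  · rintro u ⟨s', i', g', l', hok, rfl⟩ hp ha hb
    simp only [sw3, sv3_inl, sv3_inr_inl] at hp ha hb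
    rw [arc_true (i := i) (g := g) (by omega) (by omega) (by omega)] at ha
    rw [arc_false (i := i) (g := g) (by omega) (by omega) (by omega) (by omega)] at hb
    obtain ⟨c1, c2, c3, c4⟩ := ok3_bounds hok
    obtain ⟨t, ht1, ht2⟩ := arc_rep_mem c2 ha
    have hb0 := arc_cls_false c2 _ hb (-t)
    have hb1 := arc_cls_false c2 _ hb (-t - 1)
    rw [mul_sub, mul_neg] at hb1
    rw [mul_neg] at hb0
    rw [pen_left, ← even_shift _ _ t] at hp
    rw [← sw3_shift s' i' g' l' t]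
    have hok' := ok3_shift hok t
    generalize hi : i' + K * t = i'' at *
    generalize hs : s' + 2 * K * t = s'' at *
    have hr := res_bounds (K := K) s
    have hr'' := res_bounds (K := K) s''
    have g1 : i'' ≤ i := by omega
    have g2 : i + g - K + 1 ≤ i'' := by omega
    have g3 : i'' + g' ≤ i + g := by omega
    unfold ok3 at hok'
    have hfin : s'' = s ∧ i'' = i ∧ g' = g ∧ l' = 0 := by
      rcases hok' with ⟨h1, h2, ⟨h3, h4⟩ | ⟨h3, h4, h5⟩⟩
      · rw [← Int.not_odd_iff_even, odd_div_iff (by omega) (by omega)] at hp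
        have e1 : s'' = s := by omega
        have e2 : i'' = i := by omega
        have e3 : g' = g := by omega
        subst e1 e2 e3
        refine ⟨rfl, rfl, rfl, ?_⟩
        omega
      · rw [← Int.not_odd_iff_even, odd_div_iff (by omega) (by omega)] at hp
        exfalso
        have hs : s'' = s ∨ s'' = s + 1 := by omega
        rcases hs with rfl | rfl
        · omega
        · omega
    obtain ⟨e1, e2, e3, e4⟩ := hfin
    rw [e1, e2, e3, e4]

lemma V3_topR (hKm : K = 2 * m) (hm : 2 ≤ m) {s i g : ℤ} (h : 2 * i = s + 1 + m - g)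
    (hg : ((s % (K : ℤ) = 0 ∨ s % (K : ℤ) = K - 1) ∧ g = m) ∨
      ((1 ≤ s % (K : ℤ) ∧ s % (K : ℤ) ≤ K - 2) ∧ g = m - 1)) :
    GoodAt (V3 K m) (sw3 K s i g 0) (Sum.inl (cls K (s + 1)))
      (Sum.inr (Sum.inl (cls K (i + g - 1)))) (Sum.inr (Sum.inr (low (half K s)))) := by
  obtain ⟨T, hT⟩ := parity3 hKm s
  have hr := res_bounds (K := K) s
  refine ⟨by simp, by simp, by simp, ?_, ?_, ?_, ?_⟩
  · rw [sw3, flip_pen, flip_pen_right]
    refine mem3 ?_ (Or.inr rfl)
    rcases hg with ⟨hg1, hg2⟩ | ⟨hg1, hg2⟩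
    · have hr1 : s % (K : ℤ) = K - 1 := by omega
      have hr2 := (res_succ (K := K) (s := s)).2 (by omega)
      unfold ok3
      rw [hr2]
      exact ⟨by omega, by omega, Or.inl ⟨by omega, Or.inl ⟨by omega, by omega⟩⟩⟩
    · exact okZ hKm (by omega) (by omega) (by omega)
  · rw [sw3, flip_arc, arc_remove_right (by omega) (by omega)]
    exact mem3 (okZ hKm (by omega) (by omega) (by omega)) (Or.inr rfl)
  · rw [sw3, flip_spec, spec_flip_low]
    refine mem3 ?_ (Or.inl rfl)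
    unfold ok3
    generalize s % (K : ℤ) = r at *
    rcases hg with ⟨hg1, hg2⟩ | ⟨hg1, hg2⟩
    · exact ⟨by omega, by omega, Or.inl ⟨by omega, Or.inl ⟨hg1, by omega⟩⟩⟩
    · exact ⟨by omega, by omega, Or.inl ⟨by omega, Or.inr ⟨hg1, by omega⟩⟩⟩
  · rintro u ⟨s', i', g', l', hok, rfl⟩ hp ha hl
    simp only [sw3, sv3_inl, sv3_inr_inl, sv3_inr_inr] at hp ha hl
    rw [arc_true (i := i) (g := g) (by omega) (by omega) (by omega)] at ha
    obtain ⟨c1, c2, c3, c4⟩ := ok3_bounds hok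
    obtain ⟨t, ht1, ht2⟩ := arc_rep_mem c2 ha
    rw [pen_right, ← odd_shift _ _ t] at hp
    rw [← half_shift s' t, spec_at_low, spec_at_low] at hl
    rw [← sw3_shift s' i' g' l' t]
    have hok' := ok3_shift hok t
    generalize hi : i' + K * t = i'' at *
    generalize hs : s' + 2 * K * t = s'' at *
    have hr'' := res_bounds (K := K) s''
    obtain ⟨T', hT'⟩ := parity3 hKm s''
    unfold ok3 at hok'
    have hl3 : l' < 3 := by
      by_contra hc
      have hc1 : (1 : ℤ) ≤ l' := by omega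
      have hc2 : (3 : ℤ) ≤ l' := by omega
      simp [hc1, hc2] at hl
    have hg' : g' ≤ m + 1 := by
      rcases hok' with ⟨h1, h2, ⟨h3, ⟨h4, h5⟩ | ⟨h4, h5⟩⟩ | ⟨h3, h4, h5⟩⟩ <;> omega
    have hy : -4 ≤ s'' - s - 1 ∧ s'' - s - 1 < K := by
      rcases hok' with ⟨h1, h2, ⟨h3, ⟨h4, h5⟩ | ⟨h4, h5⟩⟩ | ⟨h3, h4, h5⟩⟩ <;> omega
    rw [odd_div_iff (by omega) (by omega)] at hp
    have hfin : s'' = s ∧ i'' = i ∧ g' = g ∧ l' = 0 := by
      rcases bridge (K := K) (s := s) (s' := s'') (by omega) (by omega) with ⟨he, hbr⟩ | ⟨he, hbr⟩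
      · rw [if_pos he] at hl
        have hl0 : l' = 0 := by
          by_contra hc
          have hc1 : (1 : ℤ) ≤ l' := by omega
          simp [hc1] at hl
        subst hl0
        rcases hok' with ⟨h1, h2, ⟨h3, ⟨h4, h5⟩ | ⟨h4, h5⟩⟩ | ⟨h3, h4, h5⟩⟩
        · omega
        · omega
        · omega
      · exfalso
        rcases hok' with ⟨h1, h2, ⟨h3, ⟨h4, h5⟩ | ⟨h4, h5⟩⟩ | ⟨h3, h4, h5⟩⟩
        · omega
        · omega
        · omega
    obtain ⟨e1, e2, e3, e4⟩ := hfin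
    rw [e1, e2, e3, e4]

end Pool.Agent.SGraph33
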