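import Pool.Agent.SGraph33.Family3a

namespace Pool.Agent.SGraph33

set_option linter.unusedVariables false
set_option linter.unusedSectionVars false
set_option maxHeartbeats 1000000

variable {K m : ℕ} [NeZero K]

/-- cells at the pivot -/
lemma V3_good_zero (hKm : K = 2 * m) (hm : 2 ≤ m) {s b i : ℤ}
    (h : s + m = 2 * b ∨ s + m = 2 * b + 1) :
    GoodAt (V3 K m) (sw3 K s i 0 0) (Sum.inl (cls K s)) (Sum.inl (cls K (s + 1)))
      (Sum.inr (Sum.inl (cls K b))) := by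
  have e0 : arc K i 0 = arc K b 0 := arc_zero _ _
  have ex : ∀ s' : ℤ, ∀ e : Bool, sv3 (pen K s') (arc K i 0) (spec e 0) ∈ V3 K m := by
    intro s' e
    rcases Int.emod_two_eq_zero_or_one (s' + m) with h' | h'
    · rw [arc_zero i ((s' + m) / 2)]
      exact mem3 (okZ hKm (by omega) (by omega) (by omega)) (Or.inr rfl)
    · rw [arc_zero i ((s' + m + 1) / 2)]
      exact mem3 (okZ hKm (by omega) (by omega) (by omega)) (Or.inr rfl)
  refine ⟨?_, by simp, by simp, ?_, ?_, ?_, ?_⟩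
  · intro h'
    exact cls_ne (K := K) (a := s) (b := s + 1) (by omega) (by omega)
      (Sum.inl_injective h')
  · rw [sw3, flip_pen, flip_pen_left]
    exact ex (s - 1) _
  · rw [sw3, flip_pen, flip_pen_right]
    exact ex (s + 1) _
  · have eb := arc_add_right (K := K) (i := b) (g := 0) (by omega) (by omega)
    rw [zero_add, add_zero] at eb
    rw [sw3, flip_arc, e0, eb]
    exact mem3 (okZ hKm (by omega) (by omega) (by omega)) (Or.inr rfl)
  · rintro u ⟨s', i', g', l', hok, rfl⟩ hp1 hp2 hb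
    simp only [sw3, sv3_inl, sv3_inr_inl] at hp1 hp2 hb
    have hxb : arc K i 0 (cls K b) = false := by
      simp only [arc, decide_eq_false_iff_not, not_lt]
      exact Int.emod_nonneg _ K_pos.ne'
    rw [hxb] at hb
    rw [pen_left] at hp1
    rw [pen_right] at hp2
    obtain ⟨t, ht⟩ := two_walls hp1 hp2
    rw [← sw3_shift s' i' g' l' (-t)]
    have e1 : s' + 2 * K * -t = s := by
      have : 2 * (K : ℤ) * -t = -(2 * K * t) := by ring
      rw [this]; omega
    obtain ⟨c1, c2, c3, c4⟩ := ok3_bounds hok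
    have hok' := ok3_shift hok (-t)
    unfold ok3 at hok'
    rw [e1] at hok' ⊢
    have hr := res_bounds (K := K) s
    have hb0 := arc_cls_false c2 _ hb t
    rw [mul_neg] at hok' ⊢
    generalize hi : i' + -(K * t) = i'' at *
    have hg : g' = 0 ∧ l' = 0 := by
      rcases hok' with ⟨h1, h2, ⟨h3, ⟨h4, h5⟩ | ⟨h4, h5⟩⟩ | ⟨h3, h4, h5⟩⟩
      · omega
      · omega
      · omega
    obtain ⟨hg, hl⟩ := hg
    subst hg hl
    simp only [sw3, arc_zero _ i]

lemma V3_topL (hKm : K = 2 * m) (hm : 2 ≤ m) {s i g : ℤ} (h : 2 * i + 1 = s + 1 + m - g)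
    (hg : ((s % (K : ℤ) = 0 ∨ s % (K : ℤ) = K - 1) ∧ g = m) ∨
      ((1 ≤ s % (K : ℤ) ∧ s % (K : ℤ) ≤ K - 2) ∧ g = m - 1)) :
    GoodAt (V3 K m) (sw3 K s i g 0) (Sum.inl (cls K s))
      (Sum.inr (Sum.inl (cls K i))) (Sum.inr (Sum.inr (low (half K s)))) := by
  obtain ⟨T, hT⟩ := parity3 hKm s
  have hr := res_bounds (K := K) s
  refine ⟨by simp, by simp, by simp, ?_, ?_, ?_, ?_⟩
  · rw [sw3, flip_pen, flip_pen_left]
    refine mem3 ?_ (Or.inr rfl)
    rcases hg with ⟨hg1, hg2⟩ | ⟨hg1, hg2⟩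
    · have hr1 : s % (K : ℤ) = 0 := by omega
      have hr2 := (res_pred (K := K) (s := s)).2 hr1
      unfold ok3
      rw [hr2]
      exact ⟨by omega, by omega, Or.inl ⟨by omega, Or.inl ⟨by omega, by omega⟩⟩⟩
    · exact okZ hKm (by omega) (by omega) (by omega)
  · rw [sw3, flip_arc, arc_remove_left (by omega) (by omega)]
    exact mem3 (okZ hKm (by omega) (by omega) (by omega)) (Or.inr rfl)
  · rw [sw3, flip_spec, spec_flip_low]
    refine mem3 ?_ (Or.inl rfl)
    unfold ok3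
    generalize s % (K : ℤ) = r at *
    rcases hg with ⟨hg1, hg2⟩ | ⟨hg1, hg2⟩
    · exact ⟨by omega, by omega, Or.inl ⟨by omega, Or.inl ⟨hg1, by omega⟩⟩⟩
    · exact ⟨by omega, by omega, Or.inl ⟨by omega, Or.inr ⟨hg1, by omega⟩⟩⟩
  · rintro u ⟨s', i', g', l', hok, rfl⟩ hp ha hl
    simp only [sw3, sv3_inl, sv3_inr_inl, sv3_inr_inr] at hp ha hl
    rw [arc_true (i := i) (g := g) (by omega) (by omega) (by omega)] at ha
    obtain ⟨c1, c2, c3, c4⟩ := ok3_bounds hok
    obtain ⟨t, ht1, ht2⟩ := arc_rep_mem c2 ha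
    rw [pen_left, ← even_shift _ _ t] at hp
    rw [← half_shift s' t, spec_at_low, spec_at_low] at hl
    rw [← sw3_shift s' i' g' l' t]
    have hok' := ok3_shift hok t
    generalize hi : i' + K * t = i'' at *
    generalize hs : s' + 2 * K * t = s'' at *
    have hr'' := res_bounds (K := K) s''
    obtain ⟨T', hT'⟩ := parity3 hKm s''
    unfold ok3 at hok'
    have hl3 : l' < 3 := by
      by_contra hc
      have hc1 : (1 : ℤ) ≤ l' := by omega
      have hc2 : (3 : ℤ) ≤ l' := by omega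
      simp [hc1, hc2] at hl
    have hg' : g' ≤ m + 1 := by
      rcases hok' with ⟨h1, h2, ⟨h3, ⟨h4, h5⟩ | ⟨h4, h5⟩⟩ | ⟨h3, h4, h5⟩⟩ <;> omega
    have hy : -(K : ℤ) ≤ s'' - s ∧ s'' - s < K := by
      rcases hok' with ⟨h1, h2, ⟨h3, ⟨h4, h5⟩ | ⟨h4, h5⟩⟩ | ⟨h3, h4, h5⟩⟩ <;> omega
    rw [← Int.not_odd_iff_even, odd_div_iff (by omega) (by omega)] at hp
    have hfin : s'' = s ∧ i'' = i ∧ g' = g ∧ l' = 0 := by
      rcases bridge (K := K) (s := s) (s' := s'') (by omega) (by omega) with ⟨he, hbr⟩ | ⟨he, hbr⟩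
      · rw [if_pos he] at hl
        have hl0 : l' = 0 := by
          by_contra hc
          have hc1 : (1 : ℤ) ≤ l' := by omega
          simp [hc1] at hl
        subst hl0
        rcases hok' with ⟨h1, h2, ⟨h3, ⟨h4, h5⟩ | ⟨h4, h5⟩⟩ | ⟨h3, h4, h5⟩⟩
        · omega
        · omega
        · omega
      · exfalso
        rcases hok' with ⟨h1, h2, ⟨h3, ⟨h4, h5⟩ | ⟨h4, h5⟩⟩ | ⟨h3, h4, h5⟩⟩
        · omega
        · omega
        · omega
    obtain ⟨e1, e2, e3, e4⟩ := hfin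
    rw [e1, e2, e3, e4]

end Pool.Agent.SGraph33
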