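import Pool.Agent.SGraph33.Family3b

namespace Pool.Agent.SGraph33

set_option linter.unusedVariables false
set_option linter.unusedSectionVars false
set_option maxHeartbeats 1000000

variable {K m : ℕ} [NeZero K]

lemma spec_low_one {e e' : Bool} {l' : ℤ} (c4 : l' ≤ 3)
    (hl : spec e' l' (low e) = spec e 1 (low e)) : (e' = e ∧ 1 ≤ l') ∨ (e' ≠ e ∧ l' = 3) := by
  rw [spec_at_low, spec_at_low, if_pos rfl] at hl
  have h1 : decide ((1 : ℤ) ≤ 1) = true := by decide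
  rw [h1] at hl
  by_cases he : e' = e
  · rw [if_pos he, decide_eq_true_eq] at hl
    exact Or.inl ⟨he, hl⟩
  · rw [if_neg he, decide_eq_true_eq] at hl
    exact Or.inr ⟨he, by omega⟩

lemma spec_mid_one {e e' : Bool} {l' : ℤ} (hl : spec e' l' 1 = spec e 1 1) : l' ≤ 1 := by
  rw [spec_at_one, spec_at_one] at hl
  have h1 : decide ((2 : ℤ) ≤ 1) = false := by decide
  rw [h1, decide_eq_false_iff_not] at hl
  omega

lemma bridge_low {P Q R S T : Prop} (h1 : (P ∧ Q) ∨ (¬ P ∧ R)) (h2 : (P ∧ S) ∨ (¬ P ∧ T)) :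
    (Q ∧ S) ∨ (R ∧ T) := by tauto

/-- shifting an arc not containing `b` so that it lies in `(b - K, b)`. -/
lemma arc_rep_not_mem' {i g : ℤ} (h0 : 0 ≤ g) (h1 : g ≤ K) {b : ℤ}
    (hb : arc K i g (cls K b) = false) :
    ∃ t : ℤ, b < i + K * t + K ∧ i + K * t + g ≤ b := by
  obtain ⟨t, ht1, ht2⟩ := arc_rep_not_mem h0 h1 hb
  refine ⟨t - 1, ?_, ?_⟩ <;> rw [mul_sub] <;> linarith

lemma okB1 (hKm : K = 2 * m) (hm : 2 ≤ m) {s i g : ℤ}
    (hn : 2 * i = s + 1 + m - g ∨ 2 * i + 1 = s + 1 + m - g) (hg : g = m - 1 ∨ g = m)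
    (hr : 1 ≤ s % (K : ℤ) ∧ s % (K : ℤ) ≤ K - 2) : ok3 K m s i g 1 := by
  unfold ok3
  exact ⟨by omega, by omega, Or.inl ⟨hn, Or.inr ⟨hr, by omega⟩⟩⟩

lemma V3_dR (hKm : K = 2 * m) (hm : 2 ≤ m) {s i : ℤ} (h : 2 * i = s + 2)
    (h1 : 1 ≤ s % (K : ℤ)) (h2 : s % (K : ℤ) ≤ K - 3) :
    GoodAt (V3 K m) (sw3 K s i (m - 1) 1) (Sum.inl (cls K (s + 1)))
      (Sum.inr (Sum.inl (cls K (i - 1)))) (Sum.inr (Sum.inr (low (half K s)))) := by
  refine ⟨by simp, by simp, by simp, ?_, ?_, ?_, ?_⟩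
  · rw [sw3, flip_pen, flip_pen_right]
    obtain ⟨e1, e2⟩ := (res_succ (K := K) (s := s)).1 (by omega)
    exact mem3 (okB1 hKm hm (by omega) (by omega) (by omega)) (Or.inl e2.symm)
  · rw [sw3, flip_arc, arc_add_left (by omega) (by omega)]
    exact mem3 (okB1 hKm hm (by omega) (by omega) (by omega)) (Or.inl rfl)
  · rw [sw3, flip_spec, spec_flip_low']
    exact mem3 (okZ hKm (by omega) (by omega) (by omega)) (Or.inr rfl)
  · rintro u ⟨s', i', g', l', hok, rfl⟩ hp hb hl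
    simp only [sw3, sv3_inl, sv3_inr_inl, sv3_inr_inr] at hp hb hl
    rw [arc_false (i := i) (g := m - 1) (by omega) (by omega) (by omega) (by omega)] at hb
    obtain ⟨c1, c2, c3, c4⟩ := ok3_bounds hok
    obtain ⟨t, ht1, ht2⟩ := arc_rep_not_mem c1 c2 hb
    rw [pen_right, ← odd_shift _ _ t] at hp
    rw [← half_shift s' t] at hl
    rw [← sw3_shift s' i' g' l' t]
    have hok' := ok3_shift hok t
    generalize hi : i' + K * t = i'' at *
    generalize hs : s' + 2 * K * t = s'' at *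
    have hr := res_bounds (K := K) s
    have hr'' := res_bounds (K := K) s''
    have hl' := spec_low_one c4 hl
    unfold ok3 at hok'
    have hg' : (m : ℤ) - 1 ≤ g' := by
      rcases hok' with ⟨h1, h2, ⟨h3, ⟨h4, h5⟩ | ⟨h4, h5⟩⟩ | ⟨h3, h4, h5⟩⟩ <;> omega
    have hy : -(K : ℤ) ≤ s'' - s - 1 ∧ s'' - s - 1 ≤ K := by
      rcases hok' with ⟨h1, h2, ⟨h3, ⟨h4, h5⟩ | ⟨h4, h5⟩⟩ | ⟨h3, h4, h5⟩⟩ <;> omega
    rw [odd_div_iff (by omega) (by omega)] at hp
    have hbr := bridge (K := K) (s := s) (s' := s'') (by omega) (by omega)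
    have hbl := bridge_low hbr hl'
    have hfin : s'' = s ∧ i'' = i ∧ g' = m - 1 ∧ l' = 1 := by
      rcases hok' with ⟨h1, h2, ⟨h3, ⟨h4, h5⟩ | ⟨h4, h5⟩⟩ | ⟨h3, h4, h5⟩⟩
      · omega
      · omega
      · omega
    obtain ⟨e1, e2, e3, e4⟩ := hfin
    rw [e1, e2, e3, e4]

lemma V3_dL (hKm : K = 2 * m) (hm : 2 ≤ m) {s i : ℤ} (h : 2 * i + 1 = s + 2)
    (h1 : 2 ≤ s % (K : ℤ)) (h2 : s % (K : ℤ) ≤ K - 2) :
    GoodAt (V3 K m) (sw3 K s i (m - 1) 1) (Sum.inl (cls K s))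
      (Sum.inr (Sum.inl (cls K (i + (m - 1))))) (Sum.inr (Sum.inr (low (half K s)))) := by
  refine ⟨by simp, by simp, by simp, ?_, ?_, ?_, ?_⟩
  · rw [sw3, flip_pen, flip_pen_left]
    obtain ⟨e1, e2⟩ := (res_pred (K := K) (s := s)).1 (by omega)
    exact mem3 (okB1 hKm hm (by omega) (by omega) (by omega)) (Or.inl e2.symm)
  · rw [sw3, flip_arc, arc_add_right (by omega) (by omega)]
    exact mem3 (okB1 hKm hm (by omega) (by omega) (by omega)) (Or.inl rfl)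
  · rw [sw3, flip_spec, spec_flip_low']
    exact mem3 (okZ hKm (by omega) (by omega) (by omega)) (Or.inr rfl)
  · rintro u ⟨s', i', g', l', hok, rfl⟩ hp hb hl
    simp only [sw3, sv3_inl, sv3_inr_inl, sv3_inr_inr] at hp hb hl
    rw [arc_false (i := i) (g := m - 1) (by omega) (by omega) (by omega) (by omega)] at hb
    obtain ⟨c1, c2, c3, c4⟩ := ok3_bounds hok
    obtain ⟨t, ht1, ht2⟩ := arc_rep_not_mem' c1 c2 hb
    rw [pen_left, ← even_shift _ _ t] at hp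
    rw [← half_shift s' t] at hl
    rw [← sw3_shift s' i' g' l' t]
    have hok' := ok3_shift hok t
    generalize hi : i' + K * t = i'' at *
    generalize hs : s' + 2 * K * t = s'' at *
    have hr := res_bounds (K := K) s
    have hr'' := res_bounds (K := K) s''
    have hl' := spec_low_one c4 hl
    unfold ok3 at hok'
    have hg' : (m : ℤ) - 1 ≤ g' := by
      rcases hok' with ⟨h1, h2, ⟨h3, ⟨h4, h5⟩ | ⟨h4, h5⟩⟩ | ⟨h3, h4, h5⟩⟩ <;> omega
    have hy : -(K : ℤ) - 2 ≤ s'' - s ∧ s'' - s < K := by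
      rcases hok' with ⟨h1, h2, ⟨h3, ⟨h4, h5⟩ | ⟨h4, h5⟩⟩ | ⟨h3, h4, h5⟩⟩ <;> omega
    rw [← Int.not_odd_iff_even, odd_div_iff (by omega) (by omega)] at hp
    have hbr := bridge (K := K) (s := s) (s' := s'') (by omega) (by omega)
    have hbl := bridge_low hbr hl'
    have hfin : s'' = s ∧ i'' = i ∧ g' = m - 1 ∧ l' = 1 := by
      rcases hok' with ⟨h1, h2, ⟨h3, ⟨h4, h5⟩ | ⟨h4, h5⟩⟩ | ⟨h3, h4, h5⟩⟩
      · omega
      · omega
      · omega
    obtain ⟨e1, e2, e3, e4⟩ := hfin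
    rw [e1, e2, e3, e4]

lemma V3_dX (hKm : K = 2 * m) (hm : 2 ≤ m) {s i : ℤ}
    (h : (s % (K : ℤ) = 1 ∧ 2 * i + 1 = s + 2) ∨ (s % (K : ℤ) = K - 2 ∧ 2 * i = s + 2)) :
    GoodAt (V3 K m) (sw3 K s i (m - 1) 1) (Sum.inr (Sum.inl (cls K (i - 1))))
      (Sum.inr (Sum.inl (cls K (i + (m - 1))))) (Sum.inr (Sum.inr (low (half K s)))) := by
  refine ⟨?_, by simp, by simp, ?_, ?_, ?_, ?_⟩
  · intro h'
    exact cls_ne (K := K) (a := i - 1) (b := i + (m - 1)) (by omega) (by omega)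
      (Sum.inl_injective (Sum.inr_injective h'))
  · rw [sw3, flip_arc, arc_add_left (by omega) (by omega)]
    refine mem3 ?_ (Or.inl rfl)
    unfold ok3
    rcases h with ⟨h1, h2⟩ | ⟨h1, h2⟩
    · exact ⟨by omega, by omega, Or.inr ⟨by omega, by omega, by omega⟩⟩
    · exact ⟨by omega, by omega, Or.inl ⟨by omega, Or.inr ⟨by omega, by omega⟩⟩⟩
  · rw [sw3, flip_arc, arc_add_right (by omega) (by omega)]
    refine mem3 ?_ (Or.inl rfl)
    unfold ok3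
    rcases h with ⟨h1, h2⟩ | ⟨h1, h2⟩
    · exact ⟨by omega, by omega, Or.inl ⟨by omega, Or.inr ⟨by omega, by omega⟩⟩⟩
    · exact ⟨by omega, by omega, Or.inr ⟨by omega, by omega, by omega⟩⟩
  · rw [sw3, flip_spec, spec_flip_low']
    exact mem3 (okZ hKm (by omega) (by omega) (by omega)) (Or.inr rfl)
  · rintro u ⟨s', i', g', l', hok, rfl⟩ hb hc hl
    simp only [sw3, sv3_inl, sv3_inr_inl, sv3_inr_inr] at hb hc hl
    rw [arc_false (i := i) (g := m - 1) (by omega) (by omega) (by omega) (by omega)] at hb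
    rw [arc_false (i := i) (g := m - 1) (by omega) (by omega) (by omega) (by omega)] at hc
    obtain ⟨c1, c2, c3, c4⟩ := ok3_bounds hok
    obtain ⟨t, ht1, ht2⟩ := arc_rep_not_mem c1 c2 hb
    have hc0 := arc_cls_false c2 _ hc (-t)
    rw [mul_neg] at hc0
    rw [← half_shift s' t] at hl
    rw [← sw3_shift s' i' g' l' t]
    have hok' := ok3_shift hok t
    generalize hi : i' + K * t = i'' at *
    generalize hs : s' + 2 * K * t = s'' at *
    have hr := res_bounds (K := K) s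
    have hr'' := res_bounds (K := K) s''
    have hl' := spec_low_one c4 hl
    have hc1 : i'' + g' ≤ i + (m - 1) ∨ i + m ≤ i'' := by omega
    unfold ok3 at hok'
    have hg1 : g' ≤ m - 1 := by omega
    have hlg : l' = 1 ∧ g' = m - 1 := by
      rcases hok' with ⟨h1, h2, ⟨h3, ⟨h4, h5⟩ | ⟨h4, h5⟩⟩ | ⟨h3, h4, h5⟩⟩ <;> omega
    have hy : -(K : ℤ) - 2 ≤ s'' - s ∧ s'' - s ≤ K + 1 := by
      rcases hok' with ⟨h1, h2, ⟨h3, ⟨h4, h5⟩ | ⟨h4, h5⟩⟩ | ⟨h3, h4, h5⟩⟩ <;> omega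
    have hbr := bridge (K := K) (s := s) (s' := s'') (by omega) (by omega)
    have hbl := bridge_low hbr hl'
    have hfin : s'' = s ∧ i'' = i ∧ g' = m - 1 ∧ l' = 1 := by
      rcases hok' with ⟨h1, h2, ⟨h3, ⟨h4, h5⟩ | ⟨h4, h5⟩⟩ | ⟨h3, h4, h5⟩⟩
      · omega
      · omega
      · omega
    obtain ⟨e1, e2, e3, e4⟩ := hfin
    rw [e1, e2, e3, e4]

end Pool.Agent.SGraph33
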