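import Pool.Agent.SGraph33.Arc

namespace Pool.Agent.SGraph33

set_option linter.unusedSectionVars false

variable {ι : Type} [Fintype ι] [DecidableEq ι]

/-- The local condition on a word of a cubic code, with given walls. -/
def GoodAt (V : Set (ι → Bool)) (x : ι → Bool) (i j k : ι) : Prop :=
  i ≠ j ∧ i ≠ k ∧ j ≠ k ∧
    flipAt x i ∈ V ∧ flipAt x j ∈ V ∧ flipAt x k ∈ V ∧
    ∀ u ∈ V, u i = x i → u j = x j → u k = x k → u = x

/-- The local condition on a word of a cubic code. -/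
def Good (V : Set (ι → Bool)) (x : ι → Bool) : Prop := ∃ i j k, GoodAt V x i j k

/-- complement of a word -/
def cpl (x : ι → Bool) : ι → Bool := fun i => !x i

lemma cpl_cpl (x : ι → Bool) : cpl (cpl x) = x := by
  funext i; simp [cpl]

lemma flipAt_cpl (x : ι → Bool) (i : ι) : flipAt (cpl x) i = cpl (flipAt x i) := by
  funext j
  by_cases h : j = i
  · subst h; simp [cpl]
  · simp [flipAt_ne _ h, cpl]

lemma Good.cpl {V : Set (ι → Bool)} (hV : ∀ x ∈ V, cpl x ∈ V) {x : ι → Bool} (h : Good V x) :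
    Good V (cpl x) := by
  obtain ⟨i, j, k, h1, h2, h3, hi, hj, hk, hu⟩ := h
  refine ⟨i, j, k, h1, h2, h3, ?_, ?_, ?_, ?_⟩
  · rw [flipAt_cpl]; exact hV _ hi
  · rw [flipAt_cpl]; exact hV _ hj
  · rw [flipAt_cpl]; exact hV _ hk
  · intro u hu' a b c
    have e : ∀ l, u l = Pool.Agent.SGraph33.cpl x l → Pool.Agent.SGraph33.cpl u l = x l := by
      intro l hl
      simp only [Pool.Agent.SGraph33.cpl] at hl ⊢
      rw [hl]; simp
    have := hu (Pool.Agent.SGraph33.cpl u) (hV u hu') (e i a) (e j b) (e k c)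
    rw [← this, cpl_cpl]

lemma cubicCode_of_good {ι : Type} [Fintype ι] [DecidableEq ι] {V : Set (ι → Bool)}
    (h0 : V.Nonempty) (h1 : ∀ x ∈ V, cpl x ∈ V) (h2 : ∀ x ∈ V, Good V x) : CubicCode V where
  nonempty := h0
  compl := h1
  walls x hx := by
    obtain ⟨i, j, k, h⟩ := h2 x hx
    exact ⟨i, j, k, h⟩

end Pool.Agent.SGraph33
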