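import Pool.Agent.SGraph33.Code

namespace Pool.Agent.SGraph33

open SimpleGraph

lemma exists_adj_of_connected {A : Type*} [Nontrivial A] {F : SimpleGraph A} (h : F.Connected)
    (a : A) : ∃ b, F.Adj a b := by
  obtain ⟨y, hy⟩ := exists_ne a
  obtain ⟨p⟩ := h.preconnected a y
  cases p with
  | nil => exact absurd rfl hy
  | cons h _ => exact ⟨_, h⟩

/-- Three neighbours of `x`, the first of which has a second common neighbour with each of the
other two. -/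
def TwoSquares {A : Type*} (G : SimpleGraph A) (x : A) : Prop :=
  ∃ n0 n1 n2, n0 ≠ n1 ∧ n0 ≠ n2 ∧ n1 ≠ n2 ∧ G.Adj x n0 ∧ G.Adj x n1 ∧ G.Adj x n2 ∧
    (∃ c, c ≠ x ∧ G.Adj n0 c ∧ G.Adj n1 c) ∧ (∃ c, c ≠ x ∧ G.Adj n0 c ∧ G.Adj n2 c)

lemma TwoSquares.map {A B : Type*} {G : SimpleGraph A} {H : SimpleGraph B} (φ : G ≃g H) {x : A}
    (h : TwoSquares H (φ x)) : TwoSquares G x := by
  obtain ⟨n0, n1, n2, h01, h02, h12, a0, a1, a2, ⟨c, hc, hc0, hc1⟩, ⟨d, hd, hd0, hd2⟩⟩ := h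
  have key : ∀ {u v : B}, H.Adj u v → G.Adj (φ.symm u) (φ.symm v) := fun {u v} h =>
    φ.symm.map_adj_iff.mpr h
  have hx : φ.symm (φ x) = x := φ.symm_apply_apply x
  refine ⟨φ.symm n0, φ.symm n1, φ.symm n2, ?_, ?_, ?_, ?_, ?_, ?_, ⟨φ.symm c, ?_, key hc0, key hc1⟩,
    ⟨φ.symm d, ?_, key hd0, key hd2⟩⟩
  · exact fun h => h01 (φ.symm.injective h)
  · exact fun h => h02 (φ.symm.injective h)
  · exact fun h => h12 (φ.symm.injective h)
  · have := key a0; rwa [hx] at this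
  · have := key a1; rwa [hx] at this
  · have := key a2; rwa [hx] at this
  · intro h; apply hc; rw [← h]; exact (φ.apply_symm_apply c).symm
  · intro h; apply hd; rw [← h]; exact (φ.apply_symm_apply d).symm

lemma twoSquares_boxProd {A B : Type*} [Nontrivial A] [Nontrivial B] {F : SimpleGraph A}
    {H : SimpleGraph B} (hF : F.Connected) (hH : H.Connected) (p : A × B)
    (h3 : ((F □ H).neighborSet p).ncard = 3) : TwoSquares (F □ H) p := by
  obtain ⟨a, b⟩ := p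
  obtain ⟨a0, ha0⟩ := exists_adj_of_connected hF a
  obtain ⟨b0, hb0⟩ := exists_adj_of_connected hH b
  have hadj : ∀ (x y : A × B), (F □ H).Adj x y ↔ F.Adj x.1 y.1 ∧ x.2 = y.2 ∨
      H.Adj x.2 y.2 ∧ x.1 = y.1 := fun x y => boxProd_adj
  have na : a ≠ a0 := ha0.ne
  have nb : b ≠ b0 := hb0.ne
  by_cases h1 : ∃ a1, F.Adj a a1 ∧ a1 ≠ a0
  · obtain ⟨a1, ha1, hne⟩ := h1
    have na1 : a ≠ a1 := ha1.ne
    refine ⟨(a, b0), (a0, b), (a1, b), ?_, ?_, ?_, ?_, ?_, ?_, ⟨(a0, b0), ?_, ?_, ?_⟩,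
      ⟨(a1, b0), ?_, ?_, ?_⟩⟩ <;>
      simp [hadj, ha0, ha1, hb0, na, nb, nb.symm, na1, hne, hne.symm, hb0.symm]
  · by_cases h2 : ∃ b1, H.Adj b b1 ∧ b1 ≠ b0
    · obtain ⟨b1, hb1, hne⟩ := h2
      have nb1 : b ≠ b1 := hb1.ne
      refine ⟨(a0, b), (a, b0), (a, b1), ?_, ?_, ?_, ?_, ?_, ?_, ⟨(a0, b0), ?_, ?_, ?_⟩,
        ⟨(a0, b1), ?_, ?_, ?_⟩⟩ <;>
        simp [hadj, ha0, hb1, hb0, na, na.symm, nb, nb1, hne, hne.symm, ha0.symm]
    · exfalso
      push Not at h1 h2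
      have hsub : (F □ H).neighborSet (a, b) ⊆ {(a0, b), (a, b0)} := by
        rintro ⟨x, y⟩ hxy
        rw [mem_neighborSet, hadj] at hxy
        simp only at hxy
        rcases hxy with ⟨h, rfl⟩ | ⟨h, rfl⟩
        · rw [h1 x h]; simp
        · rw [h2 y h]; simp
      have := Set.ncard_le_ncard hsub (Set.toFinite _)
      have h4 : ({(a0, b), (a, b0)} : Set (A × B)).ncard ≤ 2 := Set.ncard_insert_le _ _ |>.trans
        (by simp)
      omega

section code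

variable {ι : Type} [Fintype ι] [DecidableEq ι] {V : Set (ι → Bool)}

lemma square_aux {x y : ι → Bool} {l0 l1 m m' : ι} (h0 : y = flipAt (flipAt x l0) m)
    (h1 : y = flipAt (flipAt x l1) m') (hne : l0 ≠ l1) (hxy : y ≠ x) :
    y = flipAt (flipAt x l0) l1 := by
  have hm : m = l1 := by
    by_contra hm
    have hm' : m' ≠ l1 := by
      rintro rfl
      rw [flipAt_flipAt] at h1
      exact hxy h1
    have e1 : y l1 = !x l1 := by rw [h1, flipAt_ne _ hm'.symm, flipAt_same]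
    have e2 : y l1 = x l1 := by rw [h0, flipAt_ne _ (Ne.symm hm), flipAt_ne _ hne.symm]
    rw [e2] at e1
    simp at e1
  rw [h0, hm]

lemma CubicCode.isPrimitive (hV : CubicCode V)
    (hirr : ∃ x ∈ V, ∃ i j k, i ≠ j ∧ i ≠ k ∧ j ≠ k ∧ flipAt x i ∈ V ∧ flipAt x j ∈ V ∧
      flipAt x k ∈ V ∧ (∀ u ∈ V, u i = x i → u j = x j → u k = x k → u = x) ∧
      flipAt (flipAt x i) j ∉ V ∧ flipAt (flipAt x i) k ∉ V) :
    IsPrimitive (codeGraph V) := by
  intro A B _ _ _ _ F H hF hH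
  refine ⟨fun φ => ?_⟩
  obtain ⟨x, hx, i, j, k, hij, hik, hjk, hi, hj, hk, huniq, hnj, hnk⟩ := hirr
  have hall := hV.flip_mem_iff hi hj hk huniq
  have h3 : ((F □ H).neighborSet (φ ⟨x, hx⟩)).ncard = 3 := by
    have := hV.isCubic ⟨x, hx⟩
    rw [← this]
    rw [← Nat.card_coe_set_eq, ← Nat.card_coe_set_eq]
    exact (Nat.card_congr (φ.mapNeighborSet ⟨x, hx⟩)).symm
  have hT := TwoSquares.map φ (twoSquares_boxProd hF.connected hH.connected _ h3)
  obtain ⟨n0, n1, n2, h01, h02, h12, ⟨l0, e0⟩, ⟨l1, e1⟩, ⟨l2, e2⟩, ⟨c, hc, ⟨m0, c0⟩, ⟨m1, c1⟩⟩,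
    ⟨d, hd, ⟨p0, d0⟩, ⟨p2, d2⟩⟩⟩ := hT
  simp only at e0 e1 e2
  have hl01 : l0 ≠ l1 := by
    rintro rfl; exact h01 (Subtype.ext (e0.trans e1.symm))
  have hl02 : l0 ≠ l2 := by
    rintro rfl; exact h02 (Subtype.ext (e0.trans e2.symm))
  have hl12 : l1 ≠ l2 := by
    rintro rfl; exact h12 (Subtype.ext (e1.trans e2.symm))
  have hc' : c.1 ≠ x := fun h => hc (Subtype.ext h)
  have hd' : d.1 ≠ x := fun h => hd (Subtype.ext h)
  rw [e0] at c0 d0
  rw [e1] at c1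
  rw [e2] at d2
  have s1 : flipAt (flipAt x l0) l1 ∈ V := by
    rw [← square_aux c0 c1 hl01 hc']; exact c.2
  have s2 : flipAt (flipAt x l0) l2 ∈ V := by
    rw [← square_aux d0 d2 hl02 hd']; exact d.2
  have m0' := (hall l0).mp (e0 ▸ n0.2)
  have m1' := (hall l1).mp (e1 ▸ n1.2)
  have m2' := (hall l2).mp (e2 ▸ n2.2)
  rcases m0' with rfl | rfl | rfl
  · rcases m1' with rfl | rfl | rfl
    · exact hl01 rfl
    · exact hnj s1
    · exact hnk s1
  · rcases m1' with rfl | rfl | rfl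
    · rw [flipAt_comm] at s1; exact hnj s1
    · exact hl01 rfl
    · rcases m2' with rfl | rfl | rfl
      · rw [flipAt_comm] at s2; exact hnj s2
      · exact hl02 rfl
      · exact hl12 rfl
  · rcases m1' with rfl | rfl | rfl
    · rw [flipAt_comm] at s1; exact hnk s1
    · rcases m2' with rfl | rfl | rfl
      · rw [flipAt_comm] at s2; exact hnk s2
      · exact hl12 rfl
      · exact hl02 rfl
    · exact hl01 rfl

/-- A cubic code with an irreducibility witness puts the number of coordinates into the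
diameter set. -/
lemma CubicCode.card_mem (hV : CubicCode V)
    (hirr : ∃ x ∈ V, ∃ i j k, i ≠ j ∧ i ≠ k ∧ j ≠ k ∧ flipAt x i ∈ V ∧ flipAt x j ∈ V ∧
      flipAt x k ∈ V ∧ (∀ u ∈ V, u i = x i → u j = x j → u k = x k → u = x) ∧
      flipAt (flipAt x i) j ∉ V ∧ flipAt (flipAt x i) k ∉ V) :
    Fintype.card ι ∈ diameterSet :=
  ⟨V, inferInstance, codeGraph V, hV.isSGraph, hV.isCubic, hV.isPrimitive hirr, hV.diam_eq⟩

end code

end Pool.Agent.SGraph33
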