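import Pool.Agent.SGraph33.Prim

namespace Pool.Agent.SGraph33

open SimpleGraph

/-- The word of length `n` given by the binary digits of `a`. -/
def word (n a : ℕ) : Fin n → Bool := fun i => Nat.testBit a i

/-- The code given by a list of numbers with their three walls. -/
def listCode (n : ℕ) (L : List (ℕ × ℕ × ℕ × ℕ)) : Set (Fin n → Bool) :=
  {x | ∃ e ∈ L, x = word n e.1}

/-- Boolean test of the code conditions. -/
def checkEntry (n : ℕ) (L : List (ℕ × ℕ × ℕ × ℕ)) (e : ℕ × ℕ × ℕ × ℕ) : Bool :=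
  decide (e.2.1 < n) && decide (e.2.2.1 < n) && decide (e.2.2.2 < n) &&
  (e.2.1 != e.2.2.1) && (e.2.1 != e.2.2.2) && (e.2.2.1 != e.2.2.2) &&
  L.any (fun b => b.1 == e.1 ^^^ (2 ^ n - 1)) &&
  L.any (fun b => b.1 == e.1 ^^^ 2 ^ e.2.1) &&
  L.any (fun b => b.1 == e.1 ^^^ 2 ^ e.2.2.1) &&
  L.any (fun b => b.1 == e.1 ^^^ 2 ^ e.2.2.2) &&
  L.all (fun u => !((u.1.testBit e.2.1 == e.1.testBit e.2.1) &&
    ((u.1.testBit e.2.2.1 == e.1.testBit e.2.2.1) &&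
    (u.1.testBit e.2.2.2 == e.1.testBit e.2.2.2))) || (u.1 == e.1))

/-- Boolean test of the irreducibility witness. -/
def checkWit (n : ℕ) (L : List (ℕ × ℕ × ℕ × ℕ)) (e : ℕ × ℕ × ℕ × ℕ) : Bool :=
  L.all (fun u => (List.range n).any
    (fun l => u.1.testBit l != (e.1 ^^^ 2 ^ e.2.1 ^^^ 2 ^ e.2.2.1).testBit l)) &&
  L.all (fun u => (List.range n).any
    (fun l => u.1.testBit l != (e.1 ^^^ 2 ^ e.2.1 ^^^ 2 ^ e.2.2.2).testBit l))

lemma flipAt_word (n a : ℕ) (i : Fin n) : flipAt (word n a) i = word n (a ^^^ 2 ^ (i : ℕ)) := by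
  funext j
  by_cases h : j = i
  · subst h
    simp [word, Nat.testBit_xor, Nat.testBit_two_pow]
  · rw [flipAt_ne _ h]
    have : (i : ℕ) ≠ (j : ℕ) := fun h' => h (Fin.ext h'.symm)
    simp [word, Nat.testBit_xor, Nat.testBit_two_pow, this]

lemma compl_word (n a : ℕ) : (fun i => !(word n a i)) = word n (a ^^^ (2 ^ n - 1)) := by
  funext j
  simp [word, Nat.testBit_xor, Nat.testBit_two_pow_sub_one]

lemma listCode_mem {n : ℕ} {L : List (ℕ × ℕ × ℕ × ℕ)} {b : ℕ}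
    (h : L.any (fun c => c.1 == b) = true) : word n b ∈ listCode n L := by
  rw [List.any_eq_true] at h
  obtain ⟨c, hc, hcb⟩ := h
  exact ⟨c, hc, by rw [eq_of_beq hcb]⟩

lemma listCode_spec {n : ℕ} {L : List (ℕ × ℕ × ℕ × ℕ)} {e : ℕ × ℕ × ℕ × ℕ}
    (h : checkEntry n L e = true) :
    (fun i => !(word n e.1 i)) ∈ listCode n L ∧
    ∃ i j k : Fin n, (i : ℕ) = e.2.1 ∧ (j : ℕ) = e.2.2.1 ∧ (k : ℕ) = e.2.2.2 ∧
      i ≠ j ∧ i ≠ k ∧ j ≠ k ∧
      flipAt (word n e.1) i ∈ listCode n L ∧ flipAt (word n e.1) j ∈ listCode n L ∧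
      flipAt (word n e.1) k ∈ listCode n L ∧
      ∀ u ∈ listCode n L, u i = word n e.1 i → u j = word n e.1 j → u k = word n e.1 k →
        u = word n e.1 := by
  obtain ⟨a, i, j, k⟩ := e
  simp only [checkEntry, Bool.and_eq_true, decide_eq_true_eq, bne_iff_ne, ne_eq] at h
  obtain ⟨⟨⟨⟨⟨⟨⟨⟨⟨⟨hi, hj⟩, hk⟩, hij⟩, hik⟩, hjk⟩, hc⟩, fi⟩, fj⟩, fk⟩, hu⟩ := h
  refine ⟨?_, ⟨i, hi⟩, ⟨j, hj⟩, ⟨k, hk⟩, rfl, rfl, rfl, ?_, ?_, ?_, ?_, ?_, ?_, ?_⟩
  · rw [compl_word]; exact listCode_mem hc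
  · simpa [Fin.ext_iff] using hij
  · simpa [Fin.ext_iff] using hik
  · simpa [Fin.ext_iff] using hjk
  · rw [flipAt_word]; exact listCode_mem fi
  · rw [flipAt_word]; exact listCode_mem fj
  · rw [flipAt_word]; exact listCode_mem fk
  · rintro u ⟨b, hb, rfl⟩ h1 h2 h3
    rw [List.all_eq_true] at hu
    have := hu b hb
    simp only [word] at h1 h2 h3
    simp only [h1, h2, h3, beq_self_eq_true, Bool.and_self, Bool.not_true, Bool.false_or,
      beq_iff_eq] at this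
    rw [this]

lemma listCode_cubic {n : ℕ} {L : List (ℕ × ℕ × ℕ × ℕ)} (hne : L ≠ [])
    (h : L.all (checkEntry n L) = true) : CubicCode (listCode n L) := by
  rw [List.all_eq_true] at h
  refine ⟨?_, ?_, ?_⟩
  · obtain ⟨e, L', rfl⟩ := List.exists_cons_of_ne_nil hne
    exact ⟨word n e.1, e, by simp, rfl⟩
  · rintro x ⟨e, he, rfl⟩
    exact (listCode_spec (h e he)).1
  · rintro x ⟨e, he, rfl⟩
    obtain ⟨-, i, j, k, -, -, -, h'⟩ := listCode_spec (h e he)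
    exact ⟨i, j, k, h'⟩

lemma listCode_card_mem {n : ℕ} {L : List (ℕ × ℕ × ℕ × ℕ)}
    (h : L.all (checkEntry n L) = true) {e : ℕ × ℕ × ℕ × ℕ} (he : e ∈ L)
    (hw : checkWit n L e = true) : n ∈ diameterSet := by
  have hne : L ≠ [] := by rintro rfl; simp at he
  have hV := listCode_cubic hne h
  have h' := h
  rw [List.all_eq_true] at h'
  obtain ⟨-, i, j, k, ei, ej, ek, hij, hik, hjk, hi, hj, hk, hu⟩ := listCode_spec (h' e he)
  simp only [checkWit, Bool.and_eq_true, List.all_eq_true, List.any_eq_true, List.mem_range,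
    bne_iff_ne, ne_eq] at hw
  have key := hV.card_mem ⟨word n e.1, ⟨e, he, rfl⟩, i, j, k, hij, hik, hjk, hi, hj, hk, hu, ?_, ?_⟩
  · simpa using key
  · rintro ⟨u, hu', hu2⟩
    obtain ⟨l, hl, hl2⟩ := hw.1 u hu'
    rw [flipAt_word, flipAt_word, ei, ej] at hu2
    exact hl2 (congrFun hu2 ⟨l, hl⟩).symm
  · rintro ⟨u, hu', hu2⟩
    obtain ⟨l, hl, hl2⟩ := hw.2 u hu'
    rw [flipAt_word, flipAt_word, ei, ek] at hu2
    exact hl2 (congrFun hu2 ⟨l, hl⟩).symm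

/-- The Desargues graph: the two middle levels of the 5-cube. -/
def desargues : List (ℕ × ℕ × ℕ × ℕ) :=
  [(3, 2, 3, 4), (5, 1, 3, 4), (6, 0, 3, 4), (7, 0, 1, 2), (9, 1, 2, 4), (10, 0, 2, 4),
   (11, 0, 1, 3), (12, 0, 1, 4), (13, 0, 2, 3), (14, 1, 2, 3), (17, 1, 2, 3), (18, 0, 2, 3),
   (19, 0, 1, 4), (20, 0, 1, 3), (21, 0, 2, 4), (22, 1, 2, 4), (24, 0, 1, 2), (25, 0, 3, 4),
   (26, 1, 3, 4), (28, 2, 3, 4)]

/-- The chambers of the simplicial arrangement of seven planes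
`x = y, x = -y, x = z, x = -z, y = z, y = -z, x = 0`. -/
def seven : List (ℕ × ℕ × ℕ × ℕ) :=
  [(0, 1, 4, 5), (2, 1, 2, 3), (6, 2, 4, 6), (10, 3, 5, 6), (16, 2, 4, 5), (20, 0, 1, 2),
   (21, 0, 5, 6), (22, 1, 4, 6), (32, 3, 4, 5), (40, 0, 1, 3), (41, 0, 4, 6), (42, 1, 5, 6),
   (48, 0, 4, 5), (49, 0, 2, 3), (53, 2, 5, 6), (57, 3, 4, 6), (70, 3, 4, 6), (74, 2, 5, 6),
   (78, 0, 2, 3), (79, 0, 4, 5), (85, 1, 5, 6), (86, 0, 4, 6), (87, 0, 1, 3), (95, 3, 4, 5),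
   (105, 1, 4, 6), (106, 0, 5, 6), (107, 0, 1, 2), (111, 2, 4, 5), (117, 3, 5, 6),
   (121, 2, 4, 6), (125, 1, 2, 3), (127, 1, 4, 5)]

lemma five_mem : 5 ∈ diameterSet :=
  listCode_card_mem (n := 5) (L := desargues) (by decide +kernel) (e := (3, 2, 3, 4)) (by decide)
    (by decide +kernel)

lemma seven_mem : 7 ∈ diameterSet :=
  listCode_card_mem (n := 7) (L := seven) (by decide +kernel) (e := (0, 1, 4, 5)) (by decide)
    (by decide +kernel)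

end Pool.Agent.SGraph33
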