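import Pool.Agent.SGraph33.Elim

/-!
The third family: `K = 2 m` pencil lines, `K` ordinary lines and three special lines.
-/

namespace Pool.Agent.SGraph33

set_option linter.unusedVariables false
set_option linter.unusedSectionVars false

/-- the lowest special line (`e`: first half-turn) -/
def low (e : Bool) : Fin 3 := if e then 0 else 2

/-- the special bits at level `l` -/
def spec (e : Bool) (l : ℤ) : Fin 3 → Bool := fun c =>
  if c = 1 then decide (2 ≤ l) else if c = low e then decide (1 ≤ l) else decide (3 ≤ l)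

lemma low_ne_one (e : Bool) : low e ≠ 1 := by cases e <;> decide

lemma spec_zero (e e' : Bool) : spec e 0 = spec e' 0 := by
  funext c; simp [spec]

lemma spec_flip_low (e : Bool) : flipAt (spec e 0) (low e) = spec e 1 := by
  cases e <;> decide

lemma spec_flip_low' (e : Bool) : flipAt (spec e 1) (low e) = spec e 0 := by
  cases e <;> decide

lemma spec_flip_mid (e : Bool) : flipAt (spec e 1) 1 = spec e 2 := by
  cases e <;> decide

lemma spec_compl (e : Bool) {l : ℤ} (h0 : 0 ≤ l) (h1 : l ≤ 3) :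
    (fun c => !(spec e l c)) = spec (!e) (3 - l) := by
  interval_cases l <;> cases e <;> decide

lemma spec_at_one (e : Bool) (l : ℤ) : spec e l 1 = decide (2 ≤ l) := by
  simp [spec]

lemma spec_at_low (e' e : Bool) (l : ℤ) :
    spec e' l (low e) = if e' = e then decide (1 ≤ l) else decide (3 ≤ l) := by
  cases e <;> cases e' <;> simp [spec, low]

/-- the half-turn of the sector `s` -/
def half (K : ℕ) (s : ℤ) : Bool := decide (Even (s / (K : ℤ)))

/-- sign vector -/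
def sw3 (K : ℕ) (s i g l : ℤ) : Fin K ⊕ Fin K ⊕ Fin 3 → Bool :=
  sv3 (pen K s) (arc K i g) (spec (half K s) l)

/-- the parameters of a cell; `r` is the residue of the sector -/
def ok3' (K m : ℕ) (r s i g l : ℤ) : Prop :=
  0 ≤ g ∧ g ≤ K ∧
  (((2 * i = s + 1 + m - g ∨ 2 * i + 1 = s + 1 + m - g) ∧
      (((r = 0 ∨ r = K - 1) ∧
          ((l = 0 ∧ g ≤ m) ∨ (l = 1 ∧ g = m) ∨ (l = 2 ∧ g = m) ∨ (l = 3 ∧ m ≤ g))) ∨
        ((1 ≤ r ∧ r ≤ K - 2) ∧
          ((l = 0 ∧ g ≤ m - 1) ∨ (l = 1 ∧ (g = m - 1 ∨ g = m)) ∨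
            (l = 2 ∧ (g = m ∨ g = m + 1)) ∨ (l = 3 ∧ m + 1 ≤ g))))) ∨
    (g = m ∧ (l = 1 ∨ l = 2) ∧ ((r = 1 ∧ 2 * i + 1 = s) ∨ (r = K - 2 ∧ 2 * i = s + 2))))

/-- the parameters of a cell -/
def ok3 (K m : ℕ) (s i g l : ℤ) : Prop := ok3' K m (s % (K : ℤ)) s i g l

/-- the code -/
def V3 (K m : ℕ) : Set (Fin K ⊕ Fin K ⊕ Fin 3 → Bool) :=
  {x | ∃ s i g l : ℤ, ok3 K m s i g l ∧ x = sw3 K s i g l}

variable {K m : ℕ} [NeZero K]

lemma half_shift (s t : ℤ) : half K (s + 2 * K * t) = half K s := by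
  simp only [half]
  rw [(div_shift_two s t).1, decide_eq_decide, Int.even_add]
  simp

lemma sw3_shift (s i g l : ℤ) (t : ℤ) :
    sw3 K (s + 2 * K * t) (i + K * t) g l = sw3 K s i g l := by
  simp only [sw3, pen_add_two_mul, arc_add_mul, half_shift]

lemma ok3_shift {s i g l : ℤ} (h : ok3 K m s i g l) (t : ℤ) :
    ok3 K m (s + 2 * K * t) (i + K * t) g l := by
  unfold ok3 at *
  rw [(div_shift_two s t).2]
  have : 2 * (K : ℤ) * t = 2 * (K * t) := by ring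
  rw [this]
  generalize (K : ℤ) * t = T
  generalize s % (K : ℤ) = r at *
  rcases h with ⟨h1, h2, ⟨h3, ⟨h4, h5⟩ | ⟨h4, h5⟩⟩ | ⟨h3, h4, h5⟩⟩
  · exact ⟨h1, h2, Or.inl ⟨by omega, Or.inl ⟨h4, h5⟩⟩⟩
  · exact ⟨h1, h2, Or.inl ⟨by omega, Or.inr ⟨h4, h5⟩⟩⟩
  · exact ⟨h1, h2, Or.inr ⟨h3, h4, by omega⟩⟩

lemma half_add (s : ℤ) : half K (s + K) = !half K s := by
  simp only [half]
  have := Int.add_mul_ediv_left s 1 (K_pos (K := K)).ne'
  rw [mul_one] at this
  rw [this, ← decide_not, decide_eq_decide, Int.even_add]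
  simp

lemma cpl_sw3 {s i g l : ℤ} (h0 : 0 ≤ g) (h1 : g ≤ K) (h2 : 0 ≤ l) (h3 : l ≤ 3) :
    cpl (sw3 K s i g l) = sw3 K (s + K) (i + g) (K - g) (3 - l) := by
  simp only [sw3, cpl_sv3, pen_add, arc_compl h0 h1, half_add, spec_compl _ h2 h3]

lemma ok3_bounds {s i g l : ℤ} (h : ok3 K m s i g l) : 0 ≤ g ∧ g ≤ K ∧ 0 ≤ l ∧ l ≤ 3 := by
  unfold ok3 at h
  generalize s % (K : ℤ) = r at *
  rcases h with ⟨h1, h2, ⟨h3, ⟨h4, h5⟩ | ⟨h4, h5⟩⟩ | ⟨h3, h4, h5⟩⟩
  · exact ⟨h1, h2, by omega, by omega⟩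
  · exact ⟨h1, h2, by omega, by omega⟩
  · exact ⟨h1, h2, by omega, by omega⟩

lemma ok3_compl (hKm : K = 2 * m) {s i g l : ℤ} (h : ok3 K m s i g l) :
    ok3 K m (s + K) (i + g) (K - g) (3 - l) := by
  unfold ok3 at *
  have := Int.add_mul_emod_self_left s (K : ℤ) 1
  rw [mul_one] at this
  rw [this]
  generalize s % (K : ℤ) = r at *
  rcases h with ⟨h1, h2, ⟨h3, ⟨h4, h5⟩ | ⟨h4, h5⟩⟩ | ⟨h3, h4, h5⟩⟩
  · exact ⟨by omega, by omega, Or.inl ⟨by omega, Or.inl ⟨h4, by omega⟩⟩⟩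
  · exact ⟨by omega, by omega, Or.inl ⟨by omega, Or.inr ⟨h4, by omega⟩⟩⟩
  · exact ⟨by omega, by omega, Or.inr ⟨by omega, by omega, by omega⟩⟩

lemma V3_compl (hKm : K = 2 * m) (x) (hx : x ∈ V3 K m) : cpl x ∈ V3 K m := by
  obtain ⟨s, i, g, l, h, rfl⟩ := hx
  obtain ⟨h1, h2, h3, h4⟩ := ok3_bounds h
  exact ⟨_, _, _, _, ok3_compl hKm h, cpl_sw3 h1 h2 h3 h4⟩

/-- comparison of two sectors less than a full turn apart -/
lemma bridge {s s' : ℤ} (h1 : -2 * (K : ℤ) < s' - s) (h2 : s' - s < 2 * K) :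
    (half K s' = half K s ∧ (s' % (K : ℤ) = s % K + (s' - s) ∨
      s' % (K : ℤ) = s % K + (s' - s) + 2 * K ∨ s' % (K : ℤ) = s % K + (s' - s) - 2 * K)) ∨
    (half K s' ≠ half K s ∧ (s' % (K : ℤ) = s % K + (s' - s) + K ∨
      s' % (K : ℤ) = s % K + (s' - s) - K)) := by
  have a1 := Int.emod_nonneg s (K_pos (K := K)).ne'
  have a2 := Int.emod_lt_of_pos s (K_pos (K := K))
  have a3 : s = s % K + K * (s / K) := (Int.emod_add_mul_ediv _ _).symm
  have b1 := Int.emod_nonneg s' (K_pos (K := K)).ne'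
  have b2 := Int.emod_lt_of_pos s' (K_pos (K := K))
  have b3 : s' = s' % K + K * (s' / K) := (Int.emod_add_mul_ediv _ _).symm
  obtain ⟨c, hc⟩ : ∃ c, c = s' / (K : ℤ) - s / K := ⟨_, rfl⟩
  have h3 : s' % (K : ℤ) = s % K + (s' - s) - K * c := by
    rw [hc, mul_sub]; linarith
  have hc1 : -3 < c := by
    by_contra h
    have : (K : ℤ) * c ≤ K * (-3) := mul_le_mul_of_nonneg_left (by omega) (by positivity)
    omega
  have hc2 : c < 3 := by
    by_contra h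
    have : (K : ℤ) * 3 ≤ K * c := mul_le_mul_of_nonneg_left (by omega) (by positivity)
    omega
  have h4 : s' / (K : ℤ) = s / K + c := by omega
  have h5 : half K s' = half K s ↔ Even c := by
    simp only [half]
    rw [h4, decide_eq_decide, Int.even_add]
    tauto
  have h6 : c = -2 ∨ c = -1 ∨ c = 0 ∨ c = 1 ∨ c = 2 := by omega
  rcases h6 with rfl | rfl | rfl | rfl | rfl
  · left; exact ⟨h5.mpr (by decide), by omega⟩
  · right; exact ⟨fun h => absurd (h5.mp h) (by decide), by omega⟩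
  · left; exact ⟨h5.mpr (by decide), by omega⟩
  · right; exact ⟨fun h => absurd (h5.mp h) (by decide), by omega⟩
  · left; exact ⟨h5.mpr (by decide), by omega⟩

lemma parity3 (hKm : K = 2 * m) (s : ℤ) : ∃ T : ℤ, s = 2 * T + s % (K : ℤ) := by
  refine ⟨m * (s / K), ?_⟩
  have a3 : s = s % K + K * (s / K) := (Int.emod_add_mul_ediv _ _).symm
  have : (K : ℤ) * (s / K) = 2 * (m * (s / K)) := by rw [hKm]; push_cast; ring
  linarith

lemma res_succ {s : ℤ} :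
    (s % (K : ℤ) + 1 < K → (s + 1) % (K : ℤ) = s % K + 1 ∧ half K (s + 1) = half K s) ∧
    (s % (K : ℤ) + 1 = K → (s + 1) % (K : ℤ) = 0) := by
  obtain ⟨h1, h2, h3⟩ := div_shift (K := K) (s := s) (d := 1)
  have a1 := Int.emod_nonneg s (K_pos (K := K)).ne'
  refine ⟨fun h => ?_, fun h => ?_⟩
  · obtain ⟨e1, e2⟩ := h1 (by omega) h
    refine ⟨e2, ?_⟩
    simp only [half, e1]
  · have hK : (1 : ℤ) ≤ K := K_pos
    obtain ⟨e1, e2⟩ := h2 (by omega) (by omega)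
    rw [e2]; omega

lemma res_pred {s : ℤ} :
    (1 ≤ s % (K : ℤ) → (s - 1) % (K : ℤ) = s % K - 1 ∧ half K (s - 1) = half K s) ∧
    (s % (K : ℤ) = 0 → (s - 1) % (K : ℤ) = K - 1) := by
  obtain ⟨h1, h2, h3⟩ := div_shift (K := K) (s := s) (d := -1)
  have es : s + -1 = s - 1 := by ring
  rw [es] at h1 h2 h3
  have a1 := Int.emod_nonneg s (K_pos (K := K)).ne'
  have a2 := Int.emod_lt_of_pos s (K_pos (K := K))
  refine ⟨fun h => ?_, fun h => ?_⟩
  · obtain ⟨e1, e2⟩ := h1 (by omega) (by omega)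
    refine ⟨by rw [e2]; ring, ?_⟩
    simp only [half, e1]
  · have hK : (1 : ℤ) ≤ K := K_pos
    obtain ⟨e1, e2⟩ := h3 (by omega) (by omega)
    rw [e2]; omega

end Pool.Agent.SGraph33
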